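import Pool.Agent.OM80.Complete

/-!
# Codes of terms, operations on terms, names of numbers
-/

set_option autoImplicit false

namespace OM80

open Dt

/-- Digit of an exponential. -/
def dg : Bool → ℕ
  | false => 3
  | true => 4

/-- Code of a term: the word in Polish notation, as digits in base eight. -/
def Dt.code : Dt → ℕ
  | Z => 1
  | A b u t => dg b + 8 * (u.code + 8 ^ u.sz * t.code)

/-- Concatenation, adds the values. -/
def cat : Dt → Dt → Dt
  | Z, t' => t'
  | A b u t, t' => A b u (cat t t')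

/-- Opposite. -/
def neg : Dt → Dt
  | Z => Z
  | A b u t => A (!b) u (neg t)

/-- Product with a signed power. -/
def sc (b : Bool) (u : Dt) : Dt → Dt
  | Z => Z
  | A b' u' t => A (xor b b') (cat u u') (sc b u t)

/-- Product. -/
def mul : Dt → Dt → Dt
  | Z, _ => Z
  | A b u t, t' => cat (sc b u t') (mul t t')

theorem rv_cat (t t' : Dt) : rv (cat t t') = rv t + rv t' := by
  induction t with
  | Z => simp [cat, rv]
  | A b u t _ ih =>
    rw [cat, rv_A, rv_A, ih]
    ring

theorem rv_neg (t : Dt) : rv (neg t) = - rv t := by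
  induction t with
  | Z => simp [neg, rv]
  | A b u t _ ih =>
    rw [neg, rv_A, rv_A, ih, sg_not]
    push_cast
    ring

theorem rv_sc (b : Bool) (u t : Dt) : rv (sc b u t) = (sg b : ℝ) * (2 : ℝ) ^ (rv u) * rv t := by
  induction t with
  | Z => simp [sc, rv]
  | A b' u' t _ ih =>
    rw [sc, rv_A, rv_A, ih, sg_xor, rv_cat, Real.rpow_add (by norm_num)]
    push_cast
    ring

theorem rv_mul (t t' : Dt) : rv (mul t t') = rv t * rv t' := by
  induction t with
  | Z => simp [mul, rv]
  | A b u t _ ih =>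
    rw [mul, rv_cat, rv_A, ih, rv_sc]
    ring

theorem sz_cat (t t' : Dt) : (cat t t').sz + 1 = t.sz + t'.sz := by
  induction t with
  | Z => simp only [cat, sz]; ring
  | A b u t _ ih => simp only [cat, sz]; omega

theorem sz_neg (t : Dt) : (neg t).sz = t.sz := by
  induction t with
  | Z => rfl
  | A b u t _ ih => simp only [neg, sz, ih]

theorem sz_sc (b : Bool) (u t : Dt) : (sc b u t).sz ≤ u.sz * t.sz := by
  have hu := one_le_sz u
  induction t with
  | Z => simpa [sc, sz] using hu
  | A b' u' t _ ih =>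
    have h1 := sz_cat u u'
    have h2 : u'.sz ≤ u.sz * u'.sz := Nat.le_mul_of_pos_left _ hu
    have h3 : u.sz * (u'.sz + t.sz + 1) = u.sz * u'.sz + u.sz * t.sz + u.sz := by ring
    simp only [sc, sz]
    omega

theorem sz_mul (t t' : Dt) : (mul t t').sz ≤ t.sz * t'.sz := by
  have ht := one_le_sz t'
  induction t with
  | Z => simpa [mul, sz] using ht
  | A b u t _ ih =>
    have h1 := sz_cat (sc b u t') (mul t t')
    have h2 := sz_sc b u t'
    have h3 : (u.sz + t.sz + 1) * t'.sz = u.sz * t'.sz + t.sz * t'.sz + t'.sz := by ring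
    simp only [mul, sz]
    omega

theorem Dt.Ok.cat {t t' : Dt} (h : t.Ok) (h' : t'.Ok) : (OM80.cat t t').Ok := by
  induction t with
  | Z => exact h'
  | A b u t _ ih => exact ⟨h.1, h.2.1, ih h.2.2⟩

theorem Dt.Ok.neg {t : Dt} (h : t.Ok) : (OM80.neg t).Ok := by
  induction t with
  | Z => trivial
  | A b u t _ ih => exact ⟨h.1, h.2.1, ih h.2.2⟩

theorem Dt.Ok.sc {b : Bool} {u t : Dt} (hu : u.Ok) (hu0 : 0 ≤ rv u) (h : t.Ok) :
    (OM80.sc b u t).Ok := by
  induction t with
  | Z => trivial
  | A b' u' t _ ih =>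
    exact ⟨hu.cat h.1, by rw [rv_cat]; exact add_nonneg hu0 h.2.1, ih h.2.2⟩

theorem Dt.Ok.mul {t t' : Dt} (h : t.Ok) (h' : t'.Ok) : (OM80.mul t t').Ok := by
  induction t with
  | Z => trivial
  | A b u t _ ih => exact (Dt.Ok.sc h.1 h.2.1 h').cat (ih h.2.2)

theorem code_pos (t : Dt) : 1 ≤ t.code := by
  cases t with
  | Z => exact le_rfl
  | A b u t => cases b <;> simp only [code, dg] <;> omega

theorem shiftA (b : Bool) (u t : Dt) (X : ℕ) : (A b u t).code + 8 ^ (A b u t).sz * X =
    dg b + 8 * (u.code + 8 ^ u.sz * (t.code + 8 ^ t.sz * X)) := by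
  simp only [code, sz, pow_succ, pow_add]
  ring

theorem shiftZ (X : ℕ) : Z.code + 8 ^ Z.sz * X = 1 + 8 * X := by
  simp [code, sz]

theorem code_pref (u : Dt) : ∀ (u' : Dt) (X X' : ℕ),
    u.code + 8 ^ u.sz * X = u'.code + 8 ^ u'.sz * X' → u = u' ∧ X = X' := by
  induction u with
  | Z =>
    intro u' X X' h
    cases u' with
    | Z =>
      rw [shiftZ, shiftZ] at h
      exact ⟨rfl, by omega⟩
    | A b' u' t' =>
      rw [shiftZ, shiftA] at h
      cases b' <;> simp only [dg] at h <;> omega
  | A b u t ihu iht =>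
    intro u' X X' h
    cases u' with
    | Z =>
      rw [shiftZ, shiftA] at h
      cases b <;> simp only [dg] at h <;> omega
    | A b' u' t' =>
      rw [shiftA, shiftA] at h
      have hb : b = b' := by
        cases b <;> cases b' <;> first | rfl | (simp only [dg] at h; omega)
      subst hb
      have h0 : u.code + 8 ^ u.sz * (t.code + 8 ^ t.sz * X) =
          u'.code + 8 ^ u'.sz * (t'.code + 8 ^ t'.sz * X') := by omega
      obtain ⟨h1, h2⟩ := ihu u' _ _ h0
      obtain ⟨h3, h4⟩ := iht t' _ _ h2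
      exact ⟨by rw [h1, h3], h4⟩

theorem code_inj {t t' : Dt} (h : t.code = t'.code) : t = t' :=
  (code_pref t t' 0 0 (by rw [h]; simp)).1

theorem code_bounds (t : Dt) : 8 ^ t.sz ≤ 8 * t.code ∧ t.code < 8 ^ t.sz := by
  induction t with
  | Z => simp [code, sz]
  | A b u t ihu iht =>
    obtain ⟨h1, h2⟩ := ihu
    obtain ⟨h3, h4⟩ := iht
    simp only [code, sz]
    have e : 8 ^ (u.sz + t.sz + 1) = 8 * (8 ^ u.sz * 8 ^ t.sz) := by
      rw [pow_succ, pow_add]
      ring
    rw [e]
    have h5 : 8 ^ u.sz * 8 ^ t.sz ≤ 8 ^ u.sz * (8 * t.code) := Nat.mul_le_mul_left _ h3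
    have h6 : 8 ^ u.sz * (t.code + 1) ≤ 8 ^ u.sz * 8 ^ t.sz := Nat.mul_le_mul_left _ h4
    have h7 : 8 ^ u.sz * (8 * t.code) = 8 * (8 ^ u.sz * t.code) := by ring
    have h8 : 8 ^ u.sz * (t.code + 1) = 8 ^ u.sz * t.code + 8 ^ u.sz := by ring
    have hd : dg b ≤ 4 := by cases b <;> simp [dg]
    constructor
    · omega
    · omega

theorem code_lt_of_sz {t t' : Dt} (h : t.sz < t'.sz) : t.code < t'.code := by
  have h1 := (code_bounds t).2
  have h2 := (code_bounds t').1
  have h3 : 8 ^ (t.sz + 1) ≤ 8 ^ t'.sz := Nat.pow_le_pow_right (by norm_num) h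
  rw [pow_succ] at h3
  omega

theorem sz_le_of_code {t t' : Dt} (h : t.code ≤ t'.code) : t.sz ≤ t'.sz := by
  by_contra hc
  have := code_lt_of_sz (not_le.1 hc)
  omega

theorem code_le_cat (t t' : Dt) : t.code ≤ (cat t t').code := by
  induction t with
  | Z =>
    have := code_pos t'
    simpa [cat, code] using this
  | A b u t _ ih =>
    simp only [cat, code]
    have := Nat.mul_le_mul_left (8 ^ u.sz) ih
    omega

theorem code_le_cat' (t t' : Dt) : t'.code ≤ (cat t t').code := by
  induction t with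
  | Z => exact le_rfl
  | A b u t _ ih =>
    simp only [cat, code]
    have h1 : (cat t t').code ≤ 8 ^ u.sz * (cat t t').code :=
      Nat.le_mul_of_pos_left _ (by positivity)
    omega

theorem code_A_left (b : Bool) (u t : Dt) : u.code < (A b u t).code := by
  simp only [code]
  have := code_pos u
  omega

theorem code_A_right (b : Bool) (u t : Dt) : t.code < (A b u t).code := by
  simp only [code]
  have h1 : t.code ≤ 8 ^ u.sz * t.code := Nat.le_mul_of_pos_left _ (by positivity)
  have := code_pos t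
  omega

theorem sz_le_code (t : Dt) : t.sz ≤ t.code := by
  induction t with
  | Z => simp [sz, code]
  | A b u t ihu iht =>
    simp only [sz, code]
    have h1 : t.code ≤ 8 ^ u.sz * t.code := Nat.le_mul_of_pos_left _ (by positivity)
    have h2 : 3 ≤ dg b := by cases b <;> simp [dg]
    omega

theorem exists_code (n : ℕ) : ∃ c, ∃ t : Dt, t.code = c ∧ t.Ok ∧ rv t = n :=
  ⟨_, inct n Z, rfl, Dt.Ok.inct (t := Z) trivial n, by rw [rv_inct, rv]; ring⟩

open Classical in
/-- The valid term of least code with a given value. -/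
noncomputable def can (n : ℕ) : Dt := Classical.choose (Nat.find_spec (exists_code n))

theorem ok_can (n : ℕ) : (can n).Ok := by
  classical
  exact (Classical.choose_spec (Nat.find_spec (exists_code n))).2.1

theorem rv_can (n : ℕ) : rv (can n) = n := by
  classical
  exact (Classical.choose_spec (Nat.find_spec (exists_code n))).2.2

theorem can_le {t : Dt} {n : ℕ} (ht : t.Ok) (h : rv t = n) : (can n).code ≤ t.code := by
  classical
  have h1 := (Classical.choose_spec (Nat.find_spec (exists_code n))).1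
  have h2 : (can n).code = Nat.find (exists_code n) := h1
  rw [h2]
  exact Nat.find_min' _ ⟨t, rfl, ht, h⟩

/-- Length of the name attached to a term. -/
def tl (t : Dt) : ℕ := 8 ^ (t.sz ^ 8) + t.code

/-- Names of the natural numbers. -/
noncomputable def nu (n : ℕ) : List Bool := List.replicate (tl (can n)) true

theorem tl_lt (t : Dt) : tl t < 2 * 8 ^ (t.sz ^ 8) := by
  unfold tl
  have h1 := (code_bounds t).2
  have h2 : 8 ^ t.sz ≤ 8 ^ (t.sz ^ 8) :=
    Nat.pow_le_pow_right (by norm_num) (Nat.le_self_pow (by norm_num) _)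
  omega

theorem tl_inj {t t' : Dt} (h : tl t = tl t') : t = t' := by
  have key : ∀ s s' : Dt, s.sz < s'.sz → tl s < tl s' := by
    intro s s' hs
    have h1 := tl_lt s
    have h2 : 8 ^ (s'.sz ^ 8) ≤ tl s' := by
      unfold tl
      omega
    have h3 : 8 ^ (s.sz ^ 8 + 1) ≤ 8 ^ (s'.sz ^ 8) := by
      apply Nat.pow_le_pow_right (by norm_num)
      exact Nat.pow_lt_pow_left hs (by norm_num)
    rw [pow_succ] at h3
    omega
  have hs : t.sz = t'.sz := by
    rcases lt_trichotomy t.sz t'.sz with h1 | h1 | h1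
    · have := key _ _ h1
      omega
    · exact h1
    · have := key _ _ h1
      omega
  apply code_inj
  unfold tl at h
  rw [hs] at h
  omega

theorem nu_inj : Function.Injective nu := by
  intro m n h
  have h1 := congrArg List.length h
  rw [nu, nu, List.length_replicate, List.length_replicate] at h1
  have h2 : rv (can m) = rv (can n) := by rw [tl_inj h1]
  rw [rv_can, rv_can] at h2
  exact_mod_cast h2

/-- Short terms for small numbers. -/
theorem exists_short (lam : ℕ) : ∀ a : ℕ, a < 2 ^ lam → ∃ t : Dt, t.Ok ∧ rv t = a ∧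
    t.sz ≤ lam * (2 * lam + 2) + 1 := by
  induction lam with
  | zero =>
    intro a ha
    have : a = 0 := by
      rw [pow_zero] at ha
      omega
    subst this
    exact ⟨Z, trivial, by simp [rv], by simp [sz]⟩
  | succ lam ih =>
    intro a ha
    have e : (lam + 1) * (2 * (lam + 1) + 2) = lam * (2 * lam + 2) + 4 * lam + 4 := by ring
    rcases Nat.lt_or_ge a (2 ^ lam) with h | h
    · obtain ⟨t, h1, h2, h3⟩ := ih a h
      exact ⟨t, h1, h2, by omega⟩
    · obtain ⟨t, h1, h2, h3⟩ := ih (a - 2 ^ lam) (by rw [pow_succ] at ha; omega)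
      have hr : rv (inct lam Z) = lam := by rw [rv_inct, rv]; ring
      refine ⟨A false (inct lam Z) t, ⟨Dt.Ok.inct (t := Z) trivial lam, by rw [hr]; positivity, h1⟩,
        ?_, ?_⟩
      · rw [rv_A, h2, hr, Real.rpow_natCast, Nat.cast_sub h]
        simp
      · simp only [sz, sz_inct]
        omega

end OM80
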