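import Pool.Agent.OM80.Terms

/-!
# Completeness of the calculus
-/

set_option autoImplicit false

namespace OM80

open Dt

/-- Admissible lists of items. -/
def Adm (n : ℕ) (L : List It) : Prop := ∀ p ∈ L, p.2.1.Ok ∧ 0 ≤ rv p.2.1 ∧ p.2.1.sz ≤ n

theorem Adm.perm {n : ℕ} {L L' : List It} (h : Adm n L) (hp : L.Perm L') : Adm n L' :=
  fun p hp' => h p (hp.mem_iff.2 hp')

/-- Comparison of exponents is derivable. -/
def Cmp (R : Dt → Dt → Prop) (n J : ℕ) : Prop :=
  ∀ u u' : Dt, u.Ok → u'.Ok → 0 ≤ rv u → 0 ≤ rv u' → u.sz ≤ n → u'.sz ≤ n → ∀ j j', j ≤ J + 1 →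
    j' ≤ J + 1 → nv u' + j' ≤ nv u + j → R (inct j u) (inct j' u')

section claim

variable {M : ℕ} {R : Dt → Dt → Prop} (hR : Closed M R) {n J Q : ℕ}
include hR

theorem canc (hP : Cmp R n J) {p p' : It} {K : List It} {T : Dt}
    (hs : (mk (p :: p' :: K) T).sz ≤ M)
    (h1 : p.1 = false) (h2 : p'.1 = true) (o : p.2.1.Ok ∧ 0 ≤ rv p.2.1 ∧ p.2.1.sz ≤ n)
    (o' : p'.2.1.Ok ∧ 0 ≤ rv p'.2.1 ∧ p'.2.1.sz ≤ n) (hj : p.2.2 ≤ J + 1) (hj' : p'.2.2 ≤ J + 1)
    (he : en p = en p') : R (mk (p :: p' :: K) T) (mk K T) := by
  rw [mk_cons, mk_cons, h1, h2] at hs ⊢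
  exact hR.cancel _ _ _ hs
    (hP _ _ o.1 o'.1 o.2.1 o'.2.1 o.2.2 o'.2.2 _ _ hj hj' (le_of_eq he.symm))

theorem merge (hP : Cmp R n J) {p p' : It} {K : List It} {T : Dt}
    (hs : (mk (p :: p' :: K) T).sz ≤ M) (hs' : (mk (p :: p :: K) T).sz ≤ M)
    (hb : p.1 = p'.1) (o : p.2.1.Ok ∧ 0 ≤ rv p.2.1 ∧ p.2.1.sz ≤ n)
    (o' : p'.2.1.Ok ∧ 0 ≤ rv p'.2.1 ∧ p'.2.1.sz ≤ n) (hj : p.2.2 ≤ J + 1) (hj' : p'.2.2 ≤ J + 1)
    (he : en p = en p') :
    R (mk (p :: p' :: K) T) (mk ((p.1, p.2.1, p.2.2 + 1) :: K) T) := by
  have r1 := hP _ _ o.1 o'.1 o.2.1 o'.2.1 o.2.2 o'.2.2 _ _ hj hj' (le_of_eq he.symm)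
  have r2 := hP _ _ o'.1 o.1 o'.2.1 o.2.1 o'.2.2 o.2.2 _ _ hj' hj (le_of_eq he)
  obtain ⟨b, u, j⟩ := p
  obtain ⟨b', u', j'⟩ := p'
  simp only at hb
  subst hb
  rw [mk_cons, mk_cons] at hs hs' ⊢
  have s1 : (A b (ex (b, u', j')) (mk K T)).sz ≤ M := by
    simp only [sz] at hs ⊢
    omega
  have s2 : (A b (ex (b, u, j)) (mk K T)).sz ≤ M := by
    simp only [sz] at hs' ⊢
    omega
  have s3 : (mk K T).sz ≤ M := by
    simp only [sz] at s1
    omega
  have s4 : (A b (inc (ex (b, u, j))) (mk K T)).sz ≤ M := by
    have := one_le_sz (ex (b, u, j))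
    simp only [sz, sz_inc] at hs' ⊢
    omega
  have c1 : R (A b (ex (b, u', j')) (mk K T)) (A b (ex (b, u, j)) (mk K T)) := by
    cases b
    · exact hR.congP _ _ _ _ s1 s2 r2 (hR.refl _ s3)
    · exact hR.congN _ _ _ _ s1 s2 r1 (hR.refl _ s3)
  have c2 := R_A hR hs hs' c1
  exact hR.trans _ _ _ hs hs' s4 c2 (hR.half b _ _ hs')

theorem claim (hP : Cmp R n J) (hM : (Q + 2) * (n + 2 * J + 3) + 1 ≤ M) :
    ∀ (q : ℕ) (L : List It), L.length ≤ q → L.length ≤ Q → Adm n L → wt L ≤ 2 ^ J →
      0 ≤ isum L → R (mk L Z) Z := by
  have hS : ∀ K : List It, K.length ≤ Q + 2 → (∀ p ∈ K, (ex p).sz ≤ n + 2 * J + 2) →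
      (mk K Z).sz ≤ M := by
    intro K hK hK'
    have h1 := sz_mk_le hK' Z
    have h2 : K.length * (n + 2 * J + 2 + 1) ≤ (Q + 2) * (n + 2 * J + 3) :=
      Nat.mul_le_mul_right _ hK
    simp only [sz] at h1
    omega
  intro q
  induction q with
  | zero =>
    intro L hq _ _ _ _
    have : L = [] := List.length_eq_zero_iff.1 (by omega)
    subst this
    exact hR.refl _ (hS [] (by simp) (by simp))
  | succ q ih =>
    intro L hq hQ hA hW hs
    have hj : ∀ p ∈ L, p.2.2 ≤ J := by
      intro p hp
      have h1 := (le_wt hp).trans hW
      exact (Nat.pow_le_pow_iff_right (by norm_num)).1 h1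
    have hex : ∀ p ∈ L, (ex p).sz ≤ n + 2 * J := by
      intro p hp
      have h1 := (hA p hp).2.2
      have h2 := hj p hp
      rw [ex, sz_inct]
      omega
    have hSL : (mk L Z).sz ≤ M := hS L (by omega) (fun p hp => by have := hex p hp; omega)
    by_cases hnd : (L.map en).Nodup
    · by_cases hL : L = []
      · subst hL
        exact hR.refl _ hSL
      · obtain ⟨p, L', hp, htop⟩ := exists_top hnd hL
        have hpL : p ∈ L := hp.mem_iff.2 (by simp)
        have hL'L : ∀ x ∈ L', x ∈ L := fun x hx => hp.mem_iff.2 (by simp [hx])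
        have hlen := hp.length_eq
        rw [List.length_cons] at hlen
        have hnd' : ((p :: L').map en).Nodup := (hp.map en).nodup_iff.1 hnd
        rw [List.map_cons, List.nodup_cons] at hnd'
        have habs := abs_isum_lt hnd'.2 htop
        rw [isum_perm hp, isum_cons] at hs
        have hWp : wt L = 2 ^ p.2.2 + wt L' := by rw [wt_perm hp, wt_cons]
        have r1 := R_perm hR hp hSL
        have hSp : (mk (p :: L') Z).sz ≤ M := by
          rw [sz_mk] at hSL ⊢
          rwa [← (hp.map ps).sum_eq]
        have hp1 : p.1 = false := by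
          by_contra hne
          have : p.1 = true := by simpa using hne
          rw [this] at hs
          simp only [sg_true] at hs
          have := (abs_lt.1 habs).2
          linarith
        by_cases hpos : ∃ p' ∈ L', p'.1 = false
        · obtain ⟨p', hp', hp'1⟩ := hpos
          obtain ⟨L'', hL''⟩ : ∃ L'', L'.Perm (p' :: L'') := by
            obtain ⟨l₁, l₂, rfl⟩ := List.append_of_mem hp'
            exact ⟨l₁ ++ l₂, List.perm_middle⟩
          have q1 : L.Perm (p' :: p :: L'') :=
            hp.trans ((hL''.cons p).trans (List.Perm.swap p' p L''))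
          have r2 := R_perm hR q1 hSL
          have s2 : (mk (p' :: p :: L'') Z).sz ≤ M := by
            rw [sz_mk] at hSL ⊢
            rwa [← (q1.map ps).sum_eq]
          have r3 : R (mk (p' :: p :: L'') Z) (mk (p :: L'') Z) := by
            rw [mk_cons, hp'1] at s2 ⊢
            exact hR.drop _ _ s2
          have l1 := q1.length_eq
          simp only [List.length_cons] at l1
          have hsub : ∀ x ∈ p :: L'', x ∈ L := fun x hx => q1.mem_iff.2 (by
            rcases List.mem_cons.1 hx with rfl | hx
            · simp
            · simp [hx])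
          have s3 : (mk (p :: L'') Z).sz ≤ M := by
            rw [mk_cons, sz] at s2
            omega
          have w3 : wt (p :: L'') ≤ 2 ^ J := by
            have : wt L = 2 ^ p'.2.2 + wt (p :: L'') := by rw [wt_perm q1, wt_cons]
            exact le_trans (by rw [this]; exact Nat.le_add_left _ _) hW
          have i3 : 0 ≤ isum (p :: L'') := by
            have hnd'' : ((p' :: L'').map en).Nodup := (hL''.map en).nodup_iff.1 hnd'.2
            rw [List.map_cons, List.nodup_cons] at hnd''
            have := abs_isum_lt hnd''.2 (m := en p)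
              (fun x hx => htop x (hL''.mem_iff.2 (by simp [hx])))
            rw [isum_cons, hp1, sg_false]
            have := (abs_lt.1 this).1
            linarith
          have r4 := ih (p :: L'') (by simp only [List.length_cons]; omega)
            (by simp only [List.length_cons]; omega) (fun x hx => hA x (hsub x hx)) w3 i3
          have s0 : (Z : Dt).sz ≤ M := hS [] (by simp) (by simp)
          exact hR.trans _ _ _ hSL s2 s0 r2 (hR.trans _ _ _ s2 s3 s0 r3 r4)
        · push Not at hpos
          have hneg : ∀ p' ∈ L', p'.1 = true := fun p' hp' => by simpa using hpos p' hp'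
          by_cases hL' : L' = []
          · subst hL'
            have s0 : (Z : Dt).sz ≤ M := hS [] (by simp) (by simp)
            refine hR.trans _ _ _ hSL hSp s0 r1 ?_
            rw [mk_cons, hp1] at hSp ⊢
            exact hR.drop _ _ hSp
          · obtain ⟨m, L'', hm, hmtop⟩ := exists_top hnd'.2 hL'
            have hmL' : m ∈ L' := hm.mem_iff.2 (by simp)
            have hmL := hL'L m hmL'
            have hL''L : ∀ x ∈ L'', x ∈ L := fun x hx => hL'L x (hm.mem_iff.2 (by simp [hx]))
            have hm1 := hneg m hmL'
            have q1 : L.Perm (p :: m :: L'') := hp.trans (hm.cons p)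
            have l1 := q1.length_eq
            simp only [List.length_cons] at l1
            have r2 := R_perm hR q1 hSL
            obtain ⟨b, u, j⟩ := m
            simp only at hm1
            subst hm1
            have om := hA _ hmL
            have op := hA _ hpL
            have jm := hj _ hmL
            have jp := hj _ hpL
            have xm := hex _ hmL
            have xp := hex _ hpL
            simp only at om jm
            have e1 : ex (false, u, j) = ex (true, u, j) := rfl
            have e2 : ex (false, u, j + 1) = inc (ex (false, u, j)) := rfl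
            -- the five lists
            have s2 : (mk (p :: (true, u, j) :: L'') Z).sz ≤ M := by
              rw [sz_mk] at hSL ⊢
              rwa [← (q1.map ps).sum_eq]
            have s3 : (mk ((false, u, j + 1) :: (true, u, j) :: L'') Z).sz ≤ M := by
              apply hS
              · simp only [List.length_cons]
                omega
              · intro x hx
                rcases List.mem_cons.1 hx with rfl | hx
                · rw [e2, sz_inc, e1]
                  omega
                rcases List.mem_cons.1 hx with rfl | hx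
                · omega
                · have := hex x (hL''L x hx)
                  omega
            have s4 : (mk ((false, u, j) :: (false, u, j) :: (true, u, j) :: L'') Z).sz ≤ M := by
              apply hS
              · simp only [List.length_cons]
                omega
              · intro x hx
                rcases List.mem_cons.1 hx with rfl | hx
                · rw [e1]
                  omega
                rcases List.mem_cons.1 hx with rfl | hx
                · rw [e1]
                  omega
                rcases List.mem_cons.1 hx with rfl | hx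
                · omega
                · have := hex x (hL''L x hx)
                  omega
            have s5 : (mk ((false, u, j) :: L'') Z).sz ≤ M := by
              apply hS
              · simp only [List.length_cons]
                omega
              · intro x hx
                rcases List.mem_cons.1 hx with rfl | hx
                · rw [e1]
                  omega
                · have := hex x (hL''L x hx)
                  omega
            have hlt : en (true, u, j) < en p := htop _ hmL'
            have r3 : R (mk (p :: (true, u, j) :: L'') Z)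
                (mk ((false, u, j + 1) :: (true, u, j) :: L'') Z) := by
              rw [mk_cons p, hp1] at s2 ⊢
              rw [mk_cons (false, u, j + 1)] at s3 ⊢
              refine hR.congP _ _ _ _ s2 s3 ?_ (hR.refl _ ?_)
              · refine hP p.2.1 u op.1 om.1 op.2.1 om.2.1 op.2.2 om.2.2 p.2.2 (j + 1) (by omega)
                  (by omega) ?_
                simp only [en] at hlt
                omega
              · rw [sz] at s3
                omega
            have r4 : R (mk ((false, u, j + 1) :: (true, u, j) :: L'') Z)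
                (mk ((false, u, j) :: (false, u, j) :: (true, u, j) :: L'') Z) := by
              rw [mk_cons, e2]
              rw [mk_cons, mk_cons] at s4 ⊢
              exact hR.dbl _ _ s4
            have r5 : R (mk ((false, u, j) :: (false, u, j) :: (true, u, j) :: L'') Z)
                (mk ((false, u, j) :: L'') Z) := by
              have s6 : (mk ((false, u, j) :: (true, u, j) :: L'') Z).sz ≤ M := by
                rw [mk_cons, sz] at s4
                omega
              rw [mk_cons (false, u, j)] at s4
              rw [mk_cons (false, u, j) ((false, u, j) :: (true, u, j) :: L''),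
                mk_cons (false, u, j) L'']
              refine R_A hR s4 (by rw [mk_cons] at s5; exact s5) ?_
              exact canc hR hP s6 rfl rfl om om (by show j ≤ J + 1; omega)
                (by show j ≤ J + 1; omega) rfl
            have w3 : wt ((false, u, j) :: L'') ≤ 2 ^ J := by
              have : wt L = 2 ^ p.2.2 + (2 ^ j + wt L'') := by
                rw [wt_perm q1, wt_cons, wt_cons]
              rw [wt_cons]
              exact le_trans (by rw [this]; exact Nat.le_add_left _ _) hW
            have i3 : 0 ≤ isum ((false, u, j) :: L'') := by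
              have hnd'' : (((true, u, j) :: L'').map en).Nodup :=
                (hm.map en).nodup_iff.1 hnd'.2
              rw [List.map_cons, List.nodup_cons] at hnd''
              have := abs_isum_lt hnd''.2 (m := en (true, u, j)) hmtop
              have h3 := (abs_lt.1 this).1
              rw [isum_cons, sg_false]
              have : en (false, u, j) = en (true, u, j) := rfl
              rw [this]
              linarith
            have r6 := ih ((false, u, j) :: L'') (by simp only [List.length_cons]; omega)
              (by simp only [List.length_cons]; omega) (by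
                intro x hx
                rcases List.mem_cons.1 hx with rfl | hx
                · exact om
                · exact hA x (hL''L x hx)) w3 i3
            have s0 : (Z : Dt).sz ≤ M := hS [] (by simp) (by simp)
            exact hR.trans _ _ _ hSL s2 s0 r2 (hR.trans _ _ _ s2 s3 s0 r3
              (hR.trans _ _ _ s3 s4 s0 r4 (hR.trans _ _ _ s4 s5 s0 r5 r6)))
    · -- two items with equal exponents
      obtain ⟨p, p', L', hp, he⟩ := exists_dup hnd
      have key : ∀ p p' : It, L.Perm (p :: p' :: L') → en p = en p' →
          (p.1 = false ∧ p'.1 = true) ∨ (p.1 = p'.1 ∧ p.2.2 ≤ p'.2.2) → R (mk L Z) Z := by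
        intro p p' hp he hcase
        have hpL : p ∈ L := hp.mem_iff.2 (by simp)
        have hp'L : p' ∈ L := hp.mem_iff.2 (by simp)
        have hL'L : ∀ x ∈ L', x ∈ L := fun x hx => hp.mem_iff.2 (by simp [hx])
        have hlen := hp.length_eq
        simp only [List.length_cons] at hlen
        have r1 := R_perm hR hp hSL
        have s1 : (mk (p :: p' :: L') Z).sz ≤ M := by
          rw [sz_mk] at hSL ⊢
          rwa [← (hp.map ps).sum_eq]
        have s0 : (Z : Dt).sz ≤ M := hS [] (by simp) (by simp)
        have jp := hj _ hpL
        have jp' := hj _ hp'L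
        have hWp : wt L = 2 ^ p.2.2 + (2 ^ p'.2.2 + wt L') := by
          rw [wt_perm hp, wt_cons, wt_cons]
        rw [isum_perm hp, isum_cons, isum_cons] at hs
        rcases hcase with ⟨c1, c2⟩ | ⟨c1, c2⟩
        · have r2 := canc hR hP s1 c1 c2 (hA _ hpL) (hA _ hp'L) (by omega) (by omega) he
          have s2 : (mk L' Z).sz ≤ M := by
            rw [mk_cons, mk_cons, sz, sz] at s1
            omega
          have r3 := ih L' (by omega) (by omega) (fun x hx => hA x (hL'L x hx))
            (le_trans (by rw [hWp]; exact (Nat.le_add_left _ _).trans (Nat.le_add_left _ _)) hW) (by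
            rw [c1, c2, he, sg_false, sg_true] at hs
            linarith)
          exact hR.trans _ _ _ hSL s1 s0 r1 (hR.trans _ _ _ s1 s2 s0 r2 r3)
        · have s2 : (mk (p :: p :: L') Z).sz ≤ M := by
            apply hS
            · simp only [List.length_cons]
              omega
            · intro x hx
              rcases List.mem_cons.1 hx with rfl | hx
              · have := hex x hpL
                omega
              rcases List.mem_cons.1 hx with rfl | hx
              · have := hex x hpL
                omega
              · have := hex x (hL'L x hx)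
                omega
          have r2 := merge hR hP s1 s2 c1 (hA _ hpL) (hA _ hp'L) (by omega) (by omega) he
          have w3 : wt ((p.1, p.2.1, p.2.2 + 1) :: L') ≤ 2 ^ J := by
            rw [wt_cons]
            simp only [pow_succ]
            have : 2 ^ p.2.2 ≤ 2 ^ p'.2.2 := Nat.pow_le_pow_right (by norm_num) c2
            omega
          have s3 : (mk ((p.1, p.2.1, p.2.2 + 1) :: L') Z).sz ≤ M := by
            apply hS
            · simp only [List.length_cons]
              omega
            · intro x hx
              rcases List.mem_cons.1 hx with rfl | hx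
              · have h1 : ex (p.1, p.2.1, p.2.2 + 1) = inc (ex p) := rfl
                have := hex p hpL
                rw [h1, sz_inc]
                omega
              · have := hex x (hL'L x hx)
                omega
          have i3 : 0 ≤ isum ((p.1, p.2.1, p.2.2 + 1) :: L') := by
            have h1 : en (p.1, p.2.1, p.2.2 + 1) = en p + 1 := rfl
            rw [isum_cons, h1, pow_succ]
            simp only
            rw [← c1, ← he] at hs
            linarith
          have r3 := ih ((p.1, p.2.1, p.2.2 + 1) :: L') (by simp only [List.length_cons]; omega)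
            (by simp only [List.length_cons]; omega) (by
              intro x hx
              rcases List.mem_cons.1 hx with rfl | hx
              · exact hA p hpL
              · exact hA x (hL'L x hx)) w3 i3
          exact hR.trans _ _ _ hSL s1 s0 r1 (hR.trans _ _ _ s1 s3 s0 r2 r3)
      have hp2 : L.Perm (p' :: p :: L') := hp.trans (List.Perm.swap p' p L')
      rcases hb : p.1 with _ | _ <;> rcases hb' : p'.1 with _ | _
      · rcases le_total p.2.2 p'.2.2 with h | h
        · exact key p p' hp he (Or.inr ⟨by rw [hb, hb'], h⟩)
        · exact key p' p hp2 he.symm (Or.inr ⟨by rw [hb, hb'], h⟩)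
      · exact key p p' hp he (Or.inl ⟨hb, hb'⟩)
      · exact key p' p hp2 he.symm (Or.inl ⟨hb', hb⟩)
      · rcases le_total p.2.2 p'.2.2 with h | h
        · exact key p p' hp he (Or.inr ⟨by rw [hb, hb'], h⟩)
        · exact key p' p hp2 he.symm (Or.inr ⟨by rw [hb, hb'], h⟩)

/-- Opposite items. -/
def ngI (L : List It) : List It := L.map fun p => (!p.1, p.2)

omit hR in
theorem isum_ngI (L : List It) : isum (ngI L) = - isum L := by
  induction L with
  | nil => simp [ngI, isum]
  | cons p L ih =>
    have h1 : ngI (p :: L) = (!p.1, p.2) :: ngI L := rfl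
    have h2 : en (!p.1, p.2) = en p := rfl
    rw [h1, isum_cons, isum_cons, ih, sg_not, h2]
    ring

omit hR in
theorem ex_ngI {m : ℕ} {L : List It} (h : ∀ p ∈ L, (ex p).sz ≤ m) :
    ∀ p ∈ ngI L, (ex p).sz ≤ m := by
  intro p hp
  obtain ⟨q, hq, rfl⟩ := List.mem_map.1 hp
  exact h q hq

theorem R_insert {m : ℕ} (L : List It) (hL : ∀ p ∈ L, (ex p).sz ≤ m) (t : Dt)
    (hs : 2 * L.length * (m + 1) + t.sz ≤ M) : R t (mk L (mk (ngI L) t)) := by
  induction L with
  | nil =>
    refine hR.refl _ ?_
    omega
  | cons p L ih =>
    have h0 : 2 * (p :: L).length * (m + 1) = 2 * (m + 1) + 2 * L.length * (m + 1) := by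
      rw [List.length_cons]
      ring
    rw [h0] at hs
    have hL' : ∀ q ∈ L, (ex q).sz ≤ m := fun q hq => hL q (by simp [hq])
    have hp := hL p (by simp)
    have r1 := ih hL' (by omega)
    have e1 : mk L (mk (ngI L) t) = mk (L ++ ngI L) t := (mk_append _ _ _).symm
    have e2 : ngI (p :: L) = (!p.1, p.2) :: ngI L := rfl
    have e3 : mk (p :: L) (mk (ngI (p :: L)) t) = mk ((p :: L) ++ ((!p.1, p.2) :: ngI L)) t := by
      rw [mk_append, e2]
    rw [e1] at r1
    rw [e3]
    have z1 : (mk (L ++ ngI L) t).sz ≤ 2 * L.length * (m + 1) + t.sz := by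
      have h1 := sz_mk_le (m := m) (L := L ++ ngI L) (by
        intro q hq
        rcases List.mem_append.1 hq with hq | hq
        · exact hL' q hq
        · exact ex_ngI hL' q hq) t
      have h2 : (L ++ ngI L).length = 2 * L.length := by
        rw [List.length_append, ngI, List.length_map]
        ring
      rwa [h2] at h1
    have z2 : (mk ((false, p.2) :: (true, p.2) :: (L ++ ngI L)) t).sz ≤ M := by
      have h1 : ex (false, p.2) = ex p := rfl
      have h2 : ex (true, p.2) = ex p := rfl
      rw [mk_cons, mk_cons, sz, sz, h1, h2]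
      omega
    have r2 : R (mk (L ++ ngI L) t) (mk ((false, p.2) :: (true, p.2) :: (L ++ ngI L)) t) := by
      have h2 : ex (true, p.2) = ex (false, p.2) := rfl
      rw [mk_cons, mk_cons, h2] at z2 ⊢
      exact hR.insert _ _ z2
    have q1 : ((false, p.2) :: (true, p.2) :: (L ++ ngI L)).Perm
        ((p :: L) ++ ((!p.1, p.2) :: ngI L)) := by
      have h1 : ((p :: L) ++ ((!p.1, p.2) :: ngI L)).Perm
          ((!p.1, p.2) :: (p :: (L ++ ngI L))) := by
        have := List.perm_middle (a := (!p.1, p.2)) (l₁ := p :: L) (l₂ := ngI L)
        simpa using this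
      refine List.Perm.trans ?_ h1.symm
      obtain ⟨b, u⟩ := p
      cases b
      · exact List.Perm.swap _ _ _
      · exact List.Perm.refl _
    have r3 := R_perm hR q1 z2
    have z3 : (mk ((p :: L) ++ ((!p.1, p.2) :: ngI L)) t).sz ≤ M := by
      rw [sz_mk] at z2 ⊢
      rwa [← (q1.map ps).sum_eq]
    exact hR.trans _ _ _ (by omega) (by omega) z3 r1 (hR.trans _ _ _ (by omega) z2 z3 r2 r3)

/-- From one to two sides. -/
theorem claim2 (hP : Cmp R n J) (hM : (Q + 2) * (n + 2 * J + 3) + 1 ≤ M) {k : ℕ}
    (hk : 3 * k ≤ Q) (hkJ : 2 * k ≤ 2 ^ J) {L L' : List It} (hL : L.length ≤ k)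
    (hL' : L'.length ≤ k) (hA : Adm n L) (hA' : Adm n L') (hz : ∀ p ∈ L, p.2.2 = 0)
    (hz' : ∀ p ∈ L', p.2.2 = 0) (h : isum L' ≤ isum L) : R (mk L Z) (mk L' Z) := by
  have hex : ∀ K : List It, Adm n K → (∀ p ∈ K, p.2.2 = 0) → ∀ p ∈ K, (ex p).sz ≤ n := by
    intro K hK hK0 p hp
    rw [ex, sz_inct, hK0 p hp]
    have := (hK p hp).2.2
    omega
  have hwt : ∀ K : List It, (∀ p ∈ K, p.2.2 = 0) → wt K = K.length := by
    intro K hK
    induction K with
    | nil => rfl
    | cons p K ih =>
      rw [wt_cons, ih fun q hq => hK q (by simp [hq]), hK p (by simp), List.length_cons]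
      ring
  have hQ : 3 * k * (n + 1) + 1 ≤ M := by
    have h1 : 3 * k * (n + 1) ≤ (Q + 2) * (n + 2 * J + 3) :=
      Nat.mul_le_mul (by omega) (by omega)
    omega
  have hAn : Adm n (ngI L') := by
    intro p hp
    obtain ⟨q, hq, rfl⟩ := List.mem_map.1 hp
    exact hA' q hq
  have hzn : ∀ p ∈ ngI L', p.2.2 = 0 := by
    intro p hp
    obtain ⟨q, hq, rfl⟩ := List.mem_map.1 hp
    exact hz' q hq
  have hln : (ngI L').length = L'.length := by rw [ngI, List.length_map]
  have zL : (mk L Z).sz ≤ k * (n + 1) + 1 := by
    have h1 := sz_mk_le (hex L hA hz) Z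
    have h2 : L.length * (n + 1) ≤ k * (n + 1) := Nat.mul_le_mul_right _ hL
    simp only [sz] at h1
    omega
  have h3k : 3 * k * (n + 1) = k * (n + 1) + 2 * (k * (n + 1)) := by ring
  have h2L : 2 * L'.length * (n + 1) ≤ 2 * (k * (n + 1)) := by
    have := Nat.mul_le_mul_right (n + 1) hL'
    have e : 2 * L'.length * (n + 1) = 2 * (L'.length * (n + 1)) := by ring
    omega
  have r1 := R_insert hR L' (hex L' hA' hz') (mk L Z) (by omega)
  have r2 : R (mk (ngI L' ++ L) Z) Z := by
    refine claim hR hP hM (2 * k) _ ?_ ?_ ?_ ?_ ?_
    · rw [List.length_append]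
      omega
    · rw [List.length_append]
      omega
    · intro p hp
      rcases List.mem_append.1 hp with hp | hp
      · exact hAn p hp
      · exact hA p hp
    · rw [hwt, List.length_append]
      · omega
      · intro p hp
        rcases List.mem_append.1 hp with hp | hp
        · exact hzn p hp
        · exact hz p hp
    · rw [isum_append, isum_ngI]
      linarith
  rw [mk_append] at r2
  have z2 : (mk L' (mk (ngI L') (mk L Z))).sz ≤ M := by
    have h1 := sz_mk_le (hex L' hA' hz') (mk (ngI L') (mk L Z))
    have h2 := sz_mk_le (hex _ hAn hzn) (mk L Z)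
    rw [hln] at h2
    have h3 : 2 * L'.length * (n + 1) = 2 * (L'.length * (n + 1)) := by ring
    omega
  have z3 : (mk L' Z).sz ≤ M := by
    have h1 := sz_mk_le (hex L' hA' hz') Z
    have h3 : 2 * L'.length * (n + 1) = 2 * (L'.length * (n + 1)) := by ring
    simp only [sz] at h1
    omega
  exact hR.trans _ _ _ (by omega) z2 z3 r1 (R_mk hR z2 z3 r2)

end claim

/-- The items of a term. -/
def its : Dt → List It
  | Z => []
  | A b u t => (b, u, 0) :: its t

theorem mk_its (t : Dt) : mk (its t) Z = t := by
  induction t with
  | Z => rfl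
  | A b u t _ ih => rw [its, mk_cons, ih]; rfl

theorem its_len (t : Dt) : (its t).length < t.sz := by
  induction t with
  | Z => simp [its, sz]
  | A b u t _ ih =>
    rw [its, List.length_cons, sz]
    have := one_le_sz u
    omega

theorem its_adm {t : Dt} (h : t.Ok) {n : ℕ} (hn : t.sz ≤ n + 1) : Adm n (its t) := by
  induction t with
  | Z => intro p hp; simp [its] at hp
  | A b u t _ ih =>
    obtain ⟨h1, h2, h3⟩ := h
    have ht := one_le_sz t
    simp only [sz] at hn
    intro p hp
    rw [its] at hp
    rcases List.mem_cons.1 hp with rfl | hp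
    · exact ⟨h1, h2, by show u.sz ≤ n; omega⟩
    · exact ih h3 (by omega) p hp

theorem its_zero (t : Dt) : ∀ p ∈ its t, p.2.2 = 0 := by
  induction t with
  | Z => intro p hp; simp [its] at hp
  | A b u t _ ih =>
    intro p hp
    rw [its] at hp
    rcases List.mem_cons.1 hp with rfl | hp
    · rfl
    · exact ih p hp

theorem inct_eq (j : ℕ) (t : Dt) : inct j t = mk (List.replicate j (false, Z, 0)) t := by
  induction j with
  | zero => rfl
  | succ j ih =>
    rw [List.replicate_succ, mk_cons, ← ih]
    rfl

section final

variable {M : ℕ} {R : Dt → Dt → Prop} (hR : Closed M R)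
include hR

theorem inct_mono {t : Dt} {j' : ℕ} : ∀ {j : ℕ}, j' ≤ j → (inct j t).sz ≤ M →
    R (inct j t) (inct j' t) := by
  intro j
  induction j with
  | zero =>
    intro h hs
    have : j' = 0 := by omega
    subst this
    exact hR.refl _ hs
  | succ j ih =>
    intro h hs
    rcases Nat.lt_or_ge j j' with h1 | h1
    · have : j' = j + 1 := by omega
      subst this
      exact hR.refl _ hs
    · have z1 : (inct j t).sz ≤ M := by
        rw [sz_inct] at hs ⊢
        omega
      have z2 : (inct j' t).sz ≤ M := by
        rw [sz_inct] at z1 ⊢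
        omega
      exact hR.trans _ _ _ hs z1 z2 (hR.drop _ _ hs) (ih h1 z1)

/-- Comparison at all levels. -/
theorem cmp {s : ℕ} (hs : 1 ≤ s) (hM : 300 * (s * s) ≤ M) : ∀ n ≤ s, Cmp R n (s + 3) := by
  intro n
  induction n with
  | zero =>
    intro _ u _ _ _ _ _ h
    have := one_le_sz u
    omega
  | succ n ih =>
    intro hn u u' hu hu' h0 h0' hsz hsz' j j' hj hj' hle
    have hss : s ≤ s * s := Nat.le_mul_self s
    by_cases hn0 : n = 0
    · subst hn0
      have e : ∀ v : Dt, v.sz ≤ 1 → v = Z := by
        intro v hv
        cases v with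
        | Z => rfl
        | A b a c =>
          have := one_le_sz a
          have := one_le_sz c
          simp only [sz] at hv
          omega
      have e1 := e u (by omega)
      have e2 := e u' (by omega)
      subst e1
      subst e2
      refine inct_mono hR ?_ ?_
      · omega
      · rw [sz_inct, sz]
        omega
    · have ihn := ih (by omega)
      -- the items
      have hA : ∀ (v : Dt) (i : ℕ), v.Ok → v.sz ≤ n + 1 →
          Adm n (List.replicate i (false, Z, 0) ++ its v) := by
        intro v i hv hvs p hp
        rcases List.mem_append.1 hp with hp | hp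
        · rw [List.eq_of_mem_replicate hp]
          exact ⟨trivial, le_refl (0 : ℝ), by show (Z : Dt).sz ≤ n; simp only [sz]; omega⟩
        · exact its_adm hv hvs p hp
      have hz : ∀ (v : Dt) (i : ℕ), ∀ p ∈ List.replicate i ((false, Z, 0) : It) ++ its v,
          p.2.2 = 0 := by
        intro v i p hp
        rcases List.mem_append.1 hp with hp | hp
        · rw [List.eq_of_mem_replicate hp]
        · exact its_zero v p hp
      have he : ∀ (v : Dt) (i : ℕ),
          inct i v = mk (List.replicate i (false, Z, 0) ++ its v) Z := by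
        intro v i
        rw [mk_append, mk_its, inct_eq]
      have hv : ∀ (v : Dt) (i : ℕ), v.Ok → v.sz ≤ n + 1 → 0 ≤ rv v →
          isum (List.replicate i (false, Z, 0) ++ its v) = ((nv v + i : ℕ) : ℤ) := by
        intro v i hv hvs hv0
        have h1 := rv_mk (L := List.replicate i (false, Z, 0) ++ its v)
          (fun p hp => ⟨(hA v i hv hvs p hp).1, (hA v i hv hvs p hp).2.1⟩) Z
        rw [← he, rv_inct, nv_eq hv hv0, rv, add_zero] at h1
        exact_mod_cast h1.symm
      have hlen : ∀ (v : Dt) (i : ℕ), v.sz ≤ s → i ≤ s + 4 →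
          (List.replicate i ((false, Z, 0) : It) ++ its v).length ≤ 2 * s + 4 := by
        intro v i h1 h2
        have := its_len v
        rw [List.length_append, List.length_replicate]
        omega
      rw [he u j, he u' j']
      refine claim2 hR (n := n) (J := s + 3) (Q := 3 * (2 * s + 4)) (k := 2 * s + 4) ihn ?_ le_rfl
        ?_ (hlen u j (by omega) (by omega)) (hlen u' j' (by omega) (by omega))
        (hA u j hu hsz) (hA u' j' hu' hsz') (hz u j) (hz u' j') ?_
      · have h1 : (3 * (2 * s + 4) + 2) * (n + 2 * (s + 3) + 3) ≤ (20 * s) * (12 * s) :=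
          Nat.mul_le_mul (by omega) (by omega)
        have h2 : (20 * s) * (12 * s) = 240 * (s * s) := by ring
        omega
      · have h1 : s < 2 ^ s := Nat.lt_two_pow_self
        have h2 : 2 ^ (s + 3) = 8 * 2 ^ s := by
          rw [pow_add]
          ring
        omega
      · rw [hv u j hu hsz h0, hv u' j' hu' hsz' h0']
        exact_mod_cast hle

end final

/-- Completeness. -/
theorem complete {M s : ℕ} {R : Dt → Dt → Prop} (hR : Closed M R) (hs : 1 ≤ s)
    (hM : 300 * (s * s) ≤ M) {t t' : Dt} (ht : t.Ok) (ht' : t'.Ok) (hz : t.sz ≤ s)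
    (hz' : t'.sz ≤ s) (h : rv t' ≤ rv t) : R t t' := by
  have hss : s ≤ s * s := Nat.le_mul_self s
  have hc := cmp hR hs hM s le_rfl
  have h1 := rv_mk (L := its t) (fun p hp => by
    have := its_adm ht (n := s) (by omega) p hp
    exact ⟨this.1, this.2.1⟩) Z
  have h1' := rv_mk (L := its t') (fun p hp => by
    have := its_adm ht' (n := s) (by omega) p hp
    exact ⟨this.1, this.2.1⟩) Z
  rw [mk_its, rv, add_zero] at h1 h1'
  rw [h1, h1'] at h
  have l1 := its_len t
  have l1' := its_len t'
  rw [← mk_its t, ← mk_its t']
  refine claim2 hR (n := s) (J := s + 3) (Q := 3 * (2 * s + 4)) (k := 2 * s + 4) hc ?_ le_rfl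
    ?_ (by omega) (by omega) (its_adm ht (by omega)) (its_adm ht' (by omega)) (its_zero t)
    (its_zero t') (by exact_mod_cast h)
  · have h1 : (3 * (2 * s + 4) + 2) * (s + 2 * (s + 3) + 3) ≤ (20 * s) * (12 * s) :=
      Nat.mul_le_mul (by omega) (by omega)
    have h2 : (20 * s) * (12 * s) = 240 * (s * s) := by ring
    omega
  · have h1 : s < 2 ^ s := Nat.lt_two_pow_self
    have h2 : 2 ^ (s + 3) = 8 * 2 ^ s := by
      rw [pow_add]
      ring
    omega

end OM80
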