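import Pool.Agent.OM80.Functions

/-!
# The functions and relations of arithmetic in the model
-/

set_option autoImplicit false

namespace OM80

open Dt Pool.Agent.PTL PT21
open AM21 (cif cif_pos cif_neg isP_cif length_one unary_one ptc_tup)

theorem pFun_succ : PFun nu (r := 1) (fun x => x 0 + 1) := by
  refine pFun1 (f := fun n => n + 1) (Tg := fun N w c d => AA N w 3 d 1 c) ?_ inc ?_ ?_ ?_
  · intro k N c d hN hc hd
    exact isT_AA hN (IsE.const 3) hd (IsE.const 1) hc
  · intro t
    have := one_le_sz t
    rw [sz_inc]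
    omega
  · intro t n ho hn
    refine ⟨ho.inc, ?_⟩
    rw [rv_inc, hn]
    push_cast
    rfl
  · intro s N w v t hw hg ht _ d _
    have hb := s_le_bd (s := s)
    obtain ⟨-, -, b3, -⟩ := bd_big hg.hs
    exact hg.AA hw (b := false) (u := Z) (t := t) b3 (by omega)

theorem pFun_exp2 : PFun nu (r := 1) (fun x => 2 ^ x 0) := by
  refine pFun1 (f := fun n => 2 ^ n) (Tg := fun N w c d => AA N w 3 d c 1) ?_
    (fun t => A false t Z) ?_ ?_ ?_
  · intro k N c d hN hc hd
    exact isT_AA hN (IsE.const 3) hd hc (IsE.const 1)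
  · intro t
    have := one_le_sz t
    simp only [sz]
    omega
  · intro t n ho hn
    refine ⟨⟨ho, by rw [hn]; positivity, trivial⟩, ?_⟩
    rw [rv_A, hn, rv, sg_false, Real.rpow_natCast]
    push_cast
    ring
  · intro s N w v t hw hg ht _ d _
    have hb := s_le_bd (s := s)
    obtain ⟨-, -, b3, -⟩ := bd_big hg.hs
    exact hg.AA hw (b := false) (u := t) (t := Z) (by omega) b3

theorem pFun_add : PFun nu (r := 2) (fun x => x 0 + x 1) := by
  refine pFun2 (f := fun n m => n + m) (Tg := fun N w c d e => lk N w 6 c d e) ?_ cat ?_ ?_ ?_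
  · intro k N c d e hN hc hd he
    exact isT_lk hN (IsE.const 6) hc hd he
  · intro t u
    have := sz_cat t u
    omega
  · intro t u n m ho hn ho' hm
    refine ⟨ho.cat ho', ?_⟩
    rw [rv_cat, hn, hm]
    push_cast
    rfl
  · intro s N w v t u hw hg ht hu _ _ d hd
    obtain ⟨b1, -⟩ := bd_big hg.hs
    exact hg.h6 t u (by omega) d hd

open Classical in
/-- Truncated difference of terms. -/
noncomputable def dif (t u : Dt) : Dt := if rv u ≤ rv t then cat t (neg u) else Z

theorem pFun_sub : PFun nu (r := 2) (fun x => x 0 - x 1) := by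
  refine pFun2 (f := fun n m => n - m) (Tg := fun N w c d e =>
    (lk N w 7 c d 0 ∧ ∃ g < N, lk N w 10 d g 0 ∧ lk N w 6 c g e) ∨
      (¬ lk N w 7 c d 0 ∧ e = 1)) ?_ dif ?_ ?_ ?_
  · intro k N c d e hN hc hd he
    repeat' first
      | exact IsE.const _
      | (refine IsE.mono ?_ (by assumption); omega)
      | apply isT_lk
      | (refine IsT.ex ?_ (fun _ _ _ _ => ?_))
      | apply IsT.and
      | apply IsT.or
      | apply IsT.not
      | apply IsT.eq
  · intro t u
    unfold dif
    have h1 := sz_cat t (neg u)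
    have h2 := sz_neg u
    have h3 := one_le_sz t
    split_ifs
    · omega
    · simp only [sz]
      omega
  · intro t u n m ho hn ho' hm
    unfold dif
    split_ifs with h
    · refine ⟨ho.cat ho'.neg, ?_⟩
      rw [hn, hm] at h
      have h' : m ≤ n := by exact_mod_cast h
      rw [rv_cat, rv_neg, hn, hm, Nat.cast_sub h']
      ring
    · refine ⟨trivial, ?_⟩
      rw [hn, hm] at h
      have h' : ¬ m ≤ n := by exact_mod_cast h
      have h'' : n - m = 0 := by omega
      rw [h'', rv]
      simp
  · intro s N w v t u hw hg ht hu ho ho' d hd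
    obtain ⟨b1, -⟩ := bd_big hg.hs
    have hb := s_le_bd (s := s)
    have e7 := hg.h7 t u ho ho' (by omega) (by omega)
    have hn := sz_neg u
    have ln := hg.lt (t := neg u) (by omega)
    unfold dif
    by_cases h : rv u ≤ rv t
    · rw [if_pos h]
      constructor
      · rintro (⟨-, g, hgN, h1, h2⟩ | ⟨h1, -⟩)
        · rw [hg.h10 u (by omega) g hgN] at h1
          subst h1
          exact (hg.h6 t (neg u) (by omega) d hd).1 h2
        · exact absurd (e7.2 h) h1
      · intro h1
        exact Or.inl ⟨e7.2 h, (neg u).code, ln, (hg.h10 u (by omega) _ ln).2 rfl,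
          (hg.h6 t (neg u) (by omega) d hd).2 h1⟩
    · rw [if_neg h]
      constructor
      · rintro (⟨h1, -⟩ | ⟨-, h1⟩)
        · exact absurd (e7.1 h1) h
        · exact h1
      · intro h1
        exact Or.inr ⟨fun h2 => h (e7.1 h2), h1⟩

theorem pRel_le : PRel nu (r := 2) (fun x => x 0 ≤ x 1) := by
  refine pRel2 (R := fun n m => n ≤ m) (Φ := fun N w c d => lk N w 7 d c 0) ?_ ?_
  · intro k N c d hN hc hd
    exact isT_lk hN (IsE.const 7) hd hc (IsE.const 0)
  · intro s N w v t u hw hg ht hu ho ho' n m hn hm
    have hb := s_le_bd (s := s)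
    rw [hg.h7 u t ho' ho (by omega) (by omega), hn, hm]
    exact_mod_cast Iff.rfl

theorem mul_bd {s : ℕ} (hs : 1 ≤ s) {t u : Dt} (ht : t.sz ≤ s) (hu : u.sz ≤ s) :
    t.sz * u.sz ≤ bd s := by
  obtain ⟨-, b2, -⟩ := bd_big hs
  have h1 : t.sz * u.sz ≤ s * s := Nat.mul_le_mul ht hu
  omega

theorem pRel_mul_le : PRel nu (r := 3) (fun x => x 0 * x 1 ≤ x 2) := by
  refine pRel3 (R := fun n m l => n * m ≤ l) (Φ := fun N w c d e =>
    ∃ g < N, lk N w 13 c d g ∧ lk N w 7 e g 0) ?_ ?_
  · intro k N c d e hN hc hd he
    repeat' first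
      | exact IsE.const _
      | (refine IsE.mono ?_ (by assumption); omega)
      | apply isT_lk
      | (refine IsT.ex ?_ (fun _ _ _ _ => ?_))
      | apply IsT.and
  · intro s N w v t u g hw hg ht hu hgs ho ho' hog n m l hn hm hl
    have hb := s_le_bd (s := s)
    have hmb := mul_bd hg.hs ht hu
    have hms := sz_mul t u
    have lm := hg.lt (t := mul t u) (by omega)
    have e7 := hg.h7 g (mul t u) hog (ho.mul ho') (by omega) (by omega)
    rw [rv_mul, hn, hm, hl] at e7
    constructor
    · rintro ⟨p, hp, h1, h2⟩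
      rw [hg.h13 t u hmb p hp] at h1
      subst h1
      exact_mod_cast e7.1 h2
    · intro h
      exact ⟨(mul t u).code, lm, (hg.h13 t u hmb _ lm).2 rfl, e7.2 (by exact_mod_cast h)⟩

theorem pRel_mul : PRel nu (r := 3) (fun x => x 0 * x 1 = x 2) := by
  refine pRel3 (R := fun n m l => n * m = l) (Φ := fun N w c d e =>
    ∃ g < N, lk N w 13 c d g ∧ lk N w 7 e g 0 ∧ lk N w 7 g e 0) ?_ ?_
  · intro k N c d e hN hc hd he
    repeat' first
      | exact IsE.const _
      | (refine IsE.mono ?_ (by assumption); omega)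
      | apply isT_lk
      | (refine IsT.ex ?_ (fun _ _ _ _ => ?_))
      | apply IsT.and
  · intro s N w v t u g hw hg ht hu hgs ho ho' hog n m l hn hm hl
    have hb := s_le_bd (s := s)
    have hmb := mul_bd hg.hs ht hu
    have hms := sz_mul t u
    have lm := hg.lt (t := mul t u) (by omega)
    have e7 := hg.h7 g (mul t u) hog (ho.mul ho') (by omega) (by omega)
    have e7' := hg.h7 (mul t u) g (ho.mul ho') hog (by omega) (by omega)
    rw [rv_mul, hn, hm, hl] at e7 e7'
    constructor
    · rintro ⟨p, hp, h1, h2, h3⟩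
      rw [hg.h13 t u hmb p hp] at h1
      subst h1
      have g1 := e7.1 h2
      have g2 := e7'.1 h3
      exact_mod_cast le_antisymm g1 g2
    · intro h
      have h' : (n : ℝ) * m = l := by exact_mod_cast h
      exact ⟨(mul t u).code, lm, (hg.h13 t u hmb _ lm).2 rfl, e7.2 h'.le, e7'.2 h'.ge⟩

theorem pRel_exp3 : PRel nu (r := 2) (fun x => 3 ^ x 0 = x 1) := by
  refine pRel2 (R := fun n m => 3 ^ n = m) (Φ := fun N w c d => Q3 N w c d) ?_ ?_
  · intro k N c d hN hc hd
    exact isT_Q3 hN hc hd
  · intro s N w v t u hw hg ht hu ho ho' n m hn hm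
    rw [hg.hq t u ho ho' ht hu n m hn hm]
    exact eq_comm

/-- The set of strings of ones, seen in the code. -/
theorem ones_of_un {N : ℕ} {w x : List Bool} (hw : Snd N w (tup [x]))
    (hN : (tup [x]).length < N) {n : ℕ} (h : Un N w 0 n) : x = List.replicate n true := by
  have hz : tup [x] = (x.flatMap fun b => [true, b]) ++ [false, false] := by
    simp [tup]
  have hl : ∀ x : List Bool, (x.flatMap fun b => [true, b]).length = 2 * x.length := by
    intro x
    induction x with
    | nil => rfl
    | cons b x ih =>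
      rw [List.flatMap_cons, List.length_append, ih]
      simp
      ring
  have hev : ∀ (x : List Bool) (i : ℕ), i < x.length →
      (x.flatMap fun b => [true, b]).getD (2 * i) false = true := by
    intro x
    induction x with
    | nil => intro i hi; simp at hi
    | cons b x ih =>
      intro i hi
      cases i with
      | zero => rfl
      | succ i =>
        rw [List.flatMap_cons, show 2 * (i + 1) = 2 * i + 1 + 1 by ring]
        simp only [List.cons_append, List.nil_append, List.getD_cons_succ]
        exact ih i (by simpa using hi)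
  have hod : ∀ (x : List Bool) (i : ℕ), i < x.length →
      (x.flatMap fun b => [true, b]).getD (2 * i + 1) false = x.getD i false := by
    intro x
    induction x with
    | nil => intro i hi; simp at hi
    | cons b x ih =>
      intro i hi
      cases i with
      | zero => rfl
      | succ i =>
        rw [List.flatMap_cons, show 2 * (i + 1) + 1 = 2 * i + 1 + 1 + 1 by ring]
        simp only [List.cons_append, List.nil_append, List.getD_cons_succ]
        exact ih i (by simpa using hi)
  have hlen : (tup [x]).length = 2 * x.length + 2 := by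
    rw [hz, List.length_append, hl]
    rfl
  obtain ⟨h1, h2⟩ := h
  rw [zero_add] at h2
  have hend : (tup [x]).getD (2 * x.length) false = false := by
    rw [hz, List.getD_append_right _ _ _ _ (by rw [hl]), hl]
    simp
  have hn : n = x.length := by
    rcases lt_trichotomy n x.length with h | h | h
    · exfalso
      apply h2
      rw [hw.h8 _ (by omega), hz, List.getD_append _ _ _ _ (by rw [hl]; omega)]
      exact hev x n h
    · exact h
    · have h3 := h1 (2 * x.length) (by omega)
      rw [zero_add, hw.h8 _ (by omega), hend] at h3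
      exact absurd h3 (by simp)
  rw [hn]
  apply List.eq_replicate_of_mem
  intro b hb
  obtain ⟨i, hi, rfl⟩ := List.getElem_of_mem hb
  have h3 := h1 (2 * i + 1) (by omega)
  rw [zero_add, hw.h8 _ (by omega), hz, List.getD_append _ _ _ _ (by rw [hl]; omega), hod x i hi,
    List.getD_eq_getElem _ _ hi] at h3
  exact h3

/-- The set of names is decidable in polynomial time. -/
theorem pSet_range : PSet (Set.range nu) := by
  obtain ⟨K, hK⟩ : ∃ K, K = 10 ^ 23 := ⟨_, rfl⟩
  obtain ⟨f, hf, hf'⟩ := frame (K := K) (le_trans (by norm_num) hK.ge)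
    (F := fun w N => cif (∃ n < N, ∃ c < N, ∃ s < N, Un N w 0 n ∧ Nm N w n c s ∧ Mn N w c c ∧
      lk N w 7 c 1 0) [true] [false]) (by
      intro k N hN
      refine isP_cif ?_ (IsP.emit true) (IsP.emit false)
      repeat' first
        | exact IsE.const _
        | (refine IsE.mono ?_ (by assumption); omega)
        | apply isT_Un
        | apply isT_Nm
        | apply isT_Mn
        | apply isT_lk
        | (refine IsT.ex ?_ (fun _ _ _ _ => ?_))
        | apply IsT.and)
  refine ⟨fun x => f (tup [x]), (hf.comp ptc_tup).polyTime, fun x => ?_⟩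
  obtain ⟨w, h1, h2, h3⟩ := hf' (tup [x])
  beta_reduce
  rw [h3]
  set z := tup [x] with hz
  obtain ⟨N, hN⟩ : ∃ N, N = (z.length + 3) ^ K := ⟨_, rfl⟩
  have hLN : z.length + 3 ≤ N := by
    rw [hN]
    exact AM21.le_pow_self' (by omega) (le_trans (by norm_num) hK.ge)
  have h81 : 81 ≤ N := by
    rw [hN]
    calc 81 = 3 ^ 4 := by norm_num
      _ ≤ (z.length + 3) ^ 4 := Nat.pow_le_pow_left (by omega) 4
      _ ≤ (z.length + 3) ^ K := Nat.pow_le_pow_right (by omega) (le_trans (by norm_num) hK.ge)
  -- the tables are good for every size that can occur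
  have good : ∀ t : Dt, tl t ≤ z.length → Good t.sz N w z := by
    intro t ht
    have h8 : 8 ^ (t.sz ^ 8) ≤ z.length + 3 := by
      unfold tl at ht
      omega
    rw [hN]
    exact (setup hK.ge (one_le_sz t) h8 h1 h2).1
  rw [← hN] at h1 h2 ⊢
  have hmain : (∃ n < N, ∃ c < N, ∃ s < N, Un N w 0 n ∧ Nm N w n c s ∧ Mn N w c c ∧
      lk N w 7 c 1 0) ↔ x ∈ Set.range nu := by
    constructor
    · rintro ⟨n, hn, c, hc, s, hs, a1, a2, a3, a4⟩
      have hx := ones_of_un h1 (by rw [← hz]; omega) a1
      have hlen : z.length = 2 * n + 2 := by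
        rw [hz, hx]
        exact length_one n
      -- a first use of the tables to find the term
      obtain ⟨m, hm, q, hq, hmq, b1, b2, b3⟩ := a2
      obtain ⟨t, t1, t2⟩ := h1.h3 _ hc _ hs _ (by omega) b2
      have b4 := h1.h0 _ (by omega) _ hm _ hq b1
      have hnt : n = tl t := by rw [tl, t1, t2, b3, b4, hmq]
      have hg := good t (by omega)
      have ho : t.Ok := (hg.h9 t s_le_bd).1 (by rw [t1]; exact a3.1)
      rw [← t1] at a3 a4
      have hnn : 0 ≤ rv t := by
        have h5 := (hg.h7 t Z ho trivial s_le_bd (bd_big hg.hs).2.2.1).1 a4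
        rwa [rv] at h5
      rw [mn_iff h1 hg s_le_bd ho (nv_eq ho hnn) (by omega)] at a3
      exact ⟨nv t, by rw [nu, ← a3, ← hnt, hx]⟩
    · rintro ⟨k, hk⟩
      have hx : x = List.replicate (tl (can k)) true := hk.symm
      have hlen : z.length = 2 * tl (can k) + 2 := by
        rw [hz, hx]
        exact length_one _
      have hg := good (can k) (by omega)
      have hv : Unary z 0 (2 * tl (can k)) := by
        rw [hz, hx]
        exact unary_one _ _
      have hc := hg.lt (t := can k) s_le_bd
      have hs := sz_le_code (can k)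
      refine ⟨tl (can k), by omega, (can k).code, hc, (can k).sz, by omega,
        (un_det h1 (by omega) hv).2 rfl, (nm_det hg hc (by omega) (by omega)).2 ⟨rfl, rfl⟩, ?_,
        (hg.h7 _ Z (ok_can k) trivial s_le_bd (bd_big hg.hs).2.2.1).2
          (by rw [rv]; exact rv_can_nonneg k)⟩
      rw [mn_iff h1 hg s_le_bd (ok_can k) (rv_can k) hc]
  constructor
  · intro h
    rw [cif_pos (hmain.2 h)]
  · intro h
    rw [cif_neg (fun h' => h (hmain.1 h'))]

end OM80
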