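import Pool.Agent.OM80.Sound

/-!
# The tables at a fixed point are complete
-/

set_option autoImplicit false

namespace OM80

open Dt

/-- Exponents at the top level are valid, with values below `2 ^ lam`. -/
def SmO (lam : ℕ) : Dt → Prop
  | Z => True
  | A _ u t => (u.Ok ∧ ∃ a : ℕ, a < 2 ^ lam ∧ rv u = a) ∧ SmO lam t

theorem SmO.ok {lam : ℕ} {t : Dt} (h : SmO lam t) : t.Ok := by
  induction t with
  | Z => trivial
  | A b u t _ ih =>
    obtain ⟨⟨h1, a, -, h2⟩, h3⟩ := h
    exact ⟨h1, by rw [h2]; positivity, ih h3⟩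

section fixed

variable {N : ℕ} {w : List Bool} (hN : 64 ≤ N)
  (hf : ∀ r < 14, ∀ x < N, ∀ y < N, ∀ z < N, step N w r x y z → lk N w r x y z)
include hN hf

theorem c0 {p : ℕ} (hp : 2 ≤ p) (hpN : p < N) : ∀ a, p ^ a < N → lk N w 0 p a (p ^ a) := by
  intro a
  induction a with
  | zero =>
    intro ha
    exact hf 0 (by norm_num) _ hpN _ (by omega) _ ha (step0.2 (Or.inr (Or.inl ⟨rfl, rfl⟩)))
  | succ a ih =>
    intro ha
    have h1 : a + 1 < p ^ (a + 1) := Nat.lt_pow_self hp
    have h2 : p ^ a ≤ p ^ (a + 1) := Nat.pow_le_pow_right (by omega) (by omega)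
    refine hf 0 (by norm_num) _ hpN _ (by omega) _ ha (step0.2 (Or.inr (Or.inr
      ⟨a, by omega, p ^ a, by omega, rfl, ?_, ih (by omega)⟩)))
    rw [pow_succ]
    ring

omit hf in
theorem rmod_of {r b m : ℕ} (hb : b ≤ 3) (hm : 0 < m) (hmN : m < N) (a : ℕ) (ha : a < N)
    (ih : ∀ a', a = a' + 1 → lk N w r m a' (b ^ a' % m)) : rMod N w r b m a (b ^ a % m) := by
  have h1 : b ^ a % m < m := Nat.mod_lt _ hm
  refine ⟨⟨hm, h1⟩, ?_⟩
  cases a with
  | zero =>
    refine Or.inl ⟨rfl, 1 / m, ?_, ?_⟩
    · have := Nat.div_le_self 1 m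
      omega
    · rw [pow_zero]
      exact Nat.div_add_mod' 1 m
  | succ a =>
    have h0 : b ^ a % m < m := Nat.mod_lt _ hm
    have e : b ^ (a + 1) % m = b * (b ^ a % m) % m := by
      rw [pow_succ, mul_comm, Nat.mul_mod_mod]
    refine Or.inr ⟨a, by omega, b ^ a % m, by omega, b * (b ^ a % m) / m, ?_, rfl, ?_,
      ih a rfl⟩
    · have : b * (b ^ a % m) / m < 4 := by
        rw [Nat.div_lt_iff_lt_mul hm]
        have : b * (b ^ a % m) ≤ 3 * (b ^ a % m) := Nat.mul_le_mul_right _ hb
        omega
      omega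
    · rw [e]
      exact Nat.div_add_mod' _ m

theorem c1 {m : ℕ} (hm : 0 < m) (hmN : m < N) : ∀ a < N, lk N w 1 m a (2 ^ a % m) := by
  intro a
  induction a with
  | zero =>
    intro ha
    have h1 : 2 ^ 0 % m < m := Nat.mod_lt _ hm
    exact hf 1 (by norm_num) _ hmN _ ha _ (by omega) (step1.2 (Or.inr
      (rmod_of hN (by norm_num) hm hmN 0 ha (fun a' h => by omega))))
  | succ a ih =>
    intro ha
    have h1 : 2 ^ (a + 1) % m < m := Nat.mod_lt _ hm
    exact hf 1 (by norm_num) _ hmN _ ha _ (by omega) (step1.2 (Or.inr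
      (rmod_of hN (by norm_num) hm hmN _ ha (fun a' h => by
        obtain rfl : a = a' := by omega
        exact ih (by omega)))))

theorem c2 {m : ℕ} (hm : 0 < m) (hmN : m < N) : ∀ a < N, lk N w 2 m a (3 ^ a % m) := by
  intro a
  induction a with
  | zero =>
    intro ha
    have h1 : 3 ^ 0 % m < m := Nat.mod_lt _ hm
    exact hf 2 (by norm_num) _ hmN _ ha _ (by omega) (step2.2 (Or.inr
      (rmod_of hN (by norm_num) hm hmN 0 ha (fun a' h => by omega))))
  | succ a ih =>
    intro ha
    have h1 : 3 ^ (a + 1) % m < m := Nat.mod_lt _ hm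
    exact hf 2 (by norm_num) _ hmN _ ha _ (by omega) (step2.2 (Or.inr
      (rmod_of hN (by norm_num) hm hmN _ ha (fun a' h => by
        obtain rfl : a = a' := by omega
        exact ih (by omega)))))

omit hN hf in
theorem pow_sz_lt {b : Bool} {u t : Dt} (h : (A b u t).code < N) : 8 ^ u.sz < N := by
  have h1 := code_pos t
  have h2 : 8 ^ u.sz ≤ 8 ^ u.sz * t.code := Nat.le_mul_of_pos_right _ h1
  simp only [code] at h
  omega

theorem c3 (t : Dt) : t.code < N → lk N w 3 t.code t.sz 0 := by
  induction t with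
  | Z =>
    intro _
    exact hf 3 (by norm_num) _ (by simp only [code]; omega) _ (by simp only [sz]; omega) _
      (by omega) (step3.2 (Or.inr (Or.inl ⟨rfl, rfl⟩)))
  | A b u t ihu iht =>
    intro h
    have h1 := code_A_left b u t
    have h2 := code_A_right b u t
    have h3 := sz_le_code (A b u t)
    have h4 := sz_le_code u
    have h5 := sz_le_code t
    have h6 := pow_sz_lt h
    refine hf 3 (by norm_num) _ h _ (by omega) _ (by omega) (step3.2 (Or.inr (Or.inr
      ⟨u.code, by omega, t.code, by omega, u.sz, by omega, t.sz,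
        by omega, 8 ^ u.sz, h6, ihu (by omega), iht (by omega),
        c0 hN hf (by norm_num) (by omega) _ h6, ?_, rfl⟩)))
    cases b
    · exact Or.inl rfl
    · exact Or.inr rfl

theorem cAA {b : Bool} {u t : Dt} (h : (A b u t).code < N) :
    AA N w (dg b) (A b u t).code u.code t.code := by
  have h1 := code_A_left b u t
  have h2 := code_A_right b u t
  have h4 := sz_le_code u
  have h5 := sz_le_code t
  have h6 := pow_sz_lt h
  exact ⟨u.sz, by omega, t.sz, by omega, 8 ^ u.sz, h6, c3 hN hf u (by omega),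
    c3 hN hf t (by omega), c0 hN hf (by norm_num) (by omega) _ h6, rfl⟩

theorem c6 (t t' : Dt) : (cat t t').code < N → lk N w 6 t.code t'.code (cat t t').code := by
  induction t with
  | Z =>
    intro h
    have h' : t'.code < N := h
    have h1 := sz_le_code t'
    exact hf 6 (by norm_num) _ (by simp only [code]; omega) _ h' _ h (step6.2 (Or.inr
      (Or.inl ⟨rfl, rfl, t'.sz, by omega, c3 hN hf t' h'⟩)))
  | A b u t _ ih =>
    intro h
    have h1 := code_le_cat (A b u t) t'
    have h2 := code_le_cat' (A b u t) t'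
    have h3 := code_A_left b u t
    have h4 := code_A_right b u t
    have h5 : (A b u (cat t t')).code < N := h
    have h6 := code_A_right b u (cat t t')
    refine hf 6 (by norm_num) _ (by omega) _ (by omega) _ h (step6.2 (Or.inr (Or.inr
      ⟨u.code, by omega, t.code, by omega, (cat t t').code, by omega, ?_, ih (by omega)⟩)))
    have a1 := cAA hN hf (b := b) (u := u) (t := t) (by omega)
    have a2 := cAA hN hf (b := b) (u := u) (t := cat t t') h5
    cases b
    · exact Or.inl ⟨a1, a2⟩
    · exact Or.inr ⟨a1, a2⟩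

omit hN hf in
theorem lt_pow {t : Dt} {M : ℕ} (hM : 8 ^ M ≤ N) (h : t.sz ≤ M) : t.code < N := by
  have h1 := (code_bounds t).2
  have h2 : 8 ^ t.sz ≤ 8 ^ M := Nat.pow_le_pow_right (by norm_num) h
  omega

theorem c10 {M : ℕ} (hM : 8 ^ M ≤ N) (t : Dt) : t.sz ≤ M →
    lk N w 10 t.code (neg t).code 0 := by
  induction t with
  | Z =>
    intro h
    have h1 : Z.code < N := lt_pow hM h
    exact hf 10 (by norm_num) _ h1 _ h1 _ (by omega) (step10.2 (Or.inr (Or.inl ⟨rfl, rfl⟩)))
  | A b u t _ ih =>
    intro h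
    have h1 : (A b u t).code < N := lt_pow hM h
    have h2 : (A (!b) u (neg t)).code < N := by
      have := sz_neg (A b u t)
      exact lt_pow (t := neg (A b u t)) hM (by rw [this]; exact h)
    have h3 := code_A_left b u t
    have h4 := code_A_right b u t
    have h5 := code_A_right (!b) u (neg t)
    refine hf 10 (by norm_num) _ h1 _ h2 _ (by omega) (step10.2 (Or.inr (Or.inr
      ⟨u.code, by omega, t.code, by omega, (neg t).code, by omega,
        ih (by simp only [sz] at h; omega), ?_⟩)))
    have a1 := cAA hN hf h1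
    have a2 := cAA hN hf h2
    cases b
    · exact Or.inl ⟨a1, a2⟩
    · exact Or.inr ⟨a1, a2⟩

theorem csc {r : ℕ} {b : Bool} (hr14 : r < 14)
    (hr : ∀ {x y z : ℕ}, rSc N w r (dg b) (dg (!b)) x y z → step N w r x y z)
    {M : ℕ} (hM : 8 ^ M ≤ N) (u t : Dt) : u.sz * t.sz ≤ M →
    lk N w r u.code t.code (sc b u t).code := by
  have hu := one_le_sz u
  induction t with
  | Z =>
    intro h
    simp only [sz, mul_one] at h
    have h1 : u.code < N := lt_pow hM h
    have h2 : Z.code < N := lt_pow hM (by simp only [sz]; omega)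
    have h3 := sz_le_code u
    exact hf r hr14 _ h1 _ h2 _ h2 (hr (Or.inl ⟨rfl, rfl, u.sz, by omega, c3 hN hf u h1⟩))
  | A b' u' t _ ih =>
    intro h
    have hsz := sz_sc b u (A b' u' t)
    have h1 : (sc b u (A b' u' t)).code < N := lt_pow hM (by omega)
    have h2 : (A (xor b b') (cat u u') (sc b u t)).code < N := h1
    have hut : u.sz ≤ M ∧ (A b' u' t).sz ≤ M := by
      have := one_le_sz (A b' u' t)
      constructor
      · exact (Nat.le_mul_of_pos_right _ this).trans h
      · exact (Nat.le_mul_of_pos_left _ hu).trans h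
    have h3 : u.code < N := lt_pow hM hut.1
    have h4 : (A b' u' t).code < N := lt_pow hM hut.2
    have h5 := code_A_left b' u' t
    have h6 := code_A_right b' u' t
    have h7 := code_A_left (xor b b') (cat u u') (sc b u t)
    have h8 := code_A_right (xor b b') (cat u u') (sc b u t)
    have h9 : u.sz * t.sz ≤ M := by
      have : u.sz * t.sz ≤ u.sz * (A b' u' t).sz := Nat.mul_le_mul_left _ (by
        simp only [sz]
        omega)
      omega
    refine hf r hr14 _ h3 _ h4 _ h1 (hr (Or.inr
      ⟨u'.code, by omega, t.code, by omega, (cat u u').code, by omega, (sc b u t).code,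
        by omega, c6 hN hf u u' (by omega), ih h9, ?_⟩))
    have a1 := cAA hN hf h4
    have a2 := cAA hN hf h2
    cases b <;> cases b'
    · exact Or.inl ⟨a1, a2⟩
    · exact Or.inr ⟨a1, a2⟩
    · exact Or.inl ⟨a1, a2⟩
    · exact Or.inr ⟨a1, a2⟩

theorem c13 {M : ℕ} (hM : 8 ^ M ≤ N) (t t' : Dt) : t.sz * t'.sz ≤ M →
    lk N w 13 t.code t'.code (mul t t').code := by
  have ht' := one_le_sz t'
  induction t with
  | Z =>
    intro h
    simp only [sz, one_mul] at h
    have h1 : t'.code < N := lt_pow hM h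
    have h2 : Z.code < N := lt_pow hM (by simp only [sz]; omega)
    have h3 := sz_le_code t'
    exact hf 13 (by norm_num) _ h2 _ h1 _ h2 (step13.2 (Or.inr (Or.inl
      ⟨rfl, rfl, t'.sz, by omega, c3 hN hf t' h1⟩)))
  | A b u t _ ih =>
    intro h
    have hsz := sz_mul (A b u t) t'
    have h1 : (mul (A b u t) t').code < N := lt_pow hM (by omega)
    have h2 : (cat (sc b u t') (mul t t')).code < N := h1
    have hut : (A b u t).sz ≤ M ∧ t'.sz ≤ M := by
      have := one_le_sz (A b u t)
      constructor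
      · exact (Nat.le_mul_of_pos_right _ ht').trans h
      · exact (Nat.le_mul_of_pos_left _ this).trans h
    have h3 : (A b u t).code < N := lt_pow hM hut.1
    have h4 : t'.code < N := lt_pow hM hut.2
    have h5 := code_A_left b u t
    have h6 := code_A_right b u t
    have h7 := code_le_cat (sc b u t') (mul t t')
    have h8 := code_le_cat' (sc b u t') (mul t t')
    have h9 : t.sz * t'.sz ≤ M ∧ u.sz * t'.sz ≤ M := by
      have e : (A b u t).sz * t'.sz = u.sz * t'.sz + t.sz * t'.sz + t'.sz := by
        simp only [sz]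
        ring
      omega
    refine hf 13 (by norm_num) _ h3 _ h4 _ h1 (step13.2 (Or.inr (Or.inr
      ⟨u.code, by omega, t.code, by omega, (sc b u t').code, by omega, (mul t t').code,
        by omega, ?_, ih h9.1, c6 hN hf _ _ h2⟩)))
    have a1 := cAA hN hf h3
    cases b
    · exact Or.inl ⟨a1, csc hN hf (r := 11) (b := false) (by norm_num)
        (fun h => step11.2 (Or.inr h)) hM u t' h9.2⟩
    · exact Or.inr ⟨a1, csc hN hf (r := 12) (b := true) (by norm_num)
        (fun h => step12.2 (Or.inr h)) hM u t' h9.2⟩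

omit hN in
theorem h7in {x y : ℕ} (hx : x < N) (hy : y < N) (hz : 0 < N) (h : rGe N w x y) :
    lk N w 7 x y 0 :=
  hf 7 (by norm_num) _ hx _ hy _ hz (step7.2 (Or.inr h))

omit hN hf in
theorem isD_dg (b : Bool) : isD (dg b) := by
  cases b
  · exact Or.inl rfl
  · exact Or.inr rfl

omit hf in
theorem dg_lt (b : Bool) : dg b < N := by
  cases b <;> simp only [dg] <;> omega

theorem closed {M : ℕ} (hM : 8 ^ M ≤ N) :
    Closed M (fun t t' => lk N w 7 t.code t'.code 0) := by
  have lt : ∀ t : Dt, t.sz ≤ M → t.code < N := fun t ht => lt_pow hM ht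
  have N0 : 0 < N := by omega
  refine ⟨?_, ?_, ?_, ?_, ?_, ?_, ?_, ?_, ?_, ?_⟩
  · intro t ht
    have h1 := lt t ht
    have h2 := sz_le_code t
    exact h7in hf h1 h1 N0 (Or.inl (Or.inl ⟨rfl, t.sz, by omega, c3 hN hf t h1⟩))
  · intro t t' t'' ht ht' ht'' h h'
    exact h7in hf (lt _ ht) (lt _ ht'') N0 (Or.inl (Or.inr ⟨t'.code, lt _ ht', h, h'⟩))
  · intro b b' u u' t ht
    have a3 := lt _ ht
    have e : (A b' u' (A b u t)).sz = (A b u (A b' u' t)).sz := by
      simp only [sz]
      ring
    have a4 : (A b' u' (A b u t)).code < N := lt _ (by rw [e]; exact ht)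
    have b1 := code_A_left b u (A b' u' t)
    have b2 := code_A_right b u (A b' u' t)
    have b3 := code_A_left b' u' t
    have b4 := code_A_right b' u' t
    have b5 := code_A_right b' u' (A b u t)
    exact h7in hf a3 a4 N0 (Or.inr (Or.inr (Or.inl ⟨dg b, dg_lt hN b, dg b', dg_lt hN b',
      u.code, by omega, u'.code, by omega, t.code, by omega,
      (A b' u' t).code, by omega, (A b u t).code, by omega, isD_dg b, isD_dg b',
      cAA hN hf a3, cAA hN hf (by omega), cAA hN hf a4, cAA hN hf (by omega)⟩)))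
  · intro u u' t t' ht ht' h h'
    have a3 := lt _ ht
    have a4 := lt _ ht'
    have b1 := code_A_left false u t
    have b2 := code_A_right false u t
    have b3 := code_A_left false u' t'
    have b4 := code_A_right false u' t'
    exact h7in hf a3 a4 N0 (Or.inr (Or.inl ⟨u.code, by omega, u'.code, by omega, t.code,
      by omega, t'.code, by omega, h', Or.inl ⟨cAA hN hf a3, cAA hN hf a4, h⟩⟩))
  · intro u u' t t' ht ht' h h'
    have a3 := lt _ ht
    have a4 := lt _ ht'
    have b1 := code_A_left true u t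
    have b2 := code_A_right true u t
    have b3 := code_A_left true u' t'
    have b4 := code_A_right true u' t'
    exact h7in hf a3 a4 N0 (Or.inr (Or.inl ⟨u.code, by omega, u'.code, by omega, t.code,
      by omega, t'.code, by omega, h', Or.inr ⟨cAA hN hf a3, cAA hN hf a4, h⟩⟩))
  · intro u t ht
    have a3 := lt _ ht
    have b1 := code_A_left false u t
    have b2 := code_A_right false u t
    exact h7in hf a3 (by omega) N0 (Or.inr (Or.inr (Or.inr (Or.inl (Or.inl
      ⟨u.code, by omega, cAA hN hf a3⟩)))))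
  · intro u u' t ht h
    have a3 := lt _ ht
    have b1 := code_A_left false u (A true u' t)
    have b2 := code_A_right false u (A true u' t)
    have b3 := code_A_left true u' t
    have b4 := code_A_right true u' t
    exact h7in hf a3 (by omega) N0 (Or.inr (Or.inr (Or.inr (Or.inl (Or.inr (Or.inl
      ⟨u.code, by omega, u'.code, by omega, (A true u' t).code, by omega, cAA hN hf a3,
        cAA hN hf (b := true) (by omega), h⟩))))))
  · intro u t ht
    have a3 := lt _ ht
    have b1 := code_A_left false u (A true u t)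
    have b2 := code_A_right false u (A true u t)
    have b3 := code_A_left true u t
    have b4 := code_A_right true u t
    exact h7in hf (by omega) a3 N0 (Or.inr (Or.inr (Or.inr (Or.inl (Or.inr (Or.inr
      ⟨u.code, by omega, (A true u t).code, by omega, cAA hN hf a3,
        cAA hN hf (b := true) (by omega)⟩))))))
  · intro u t ht
    have a3 := lt _ ht
    have e : (A false (inc u) t).sz ≤ M := by
      have := one_le_sz u
      simp only [sz, sz_inc] at ht ⊢
      omega
    have a4 := lt _ e
    have b1 := code_A_left false u (A false u t)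
    have b2 := code_A_right false u (A false u t)
    have b3 := code_A_left false u t
    have b4 := code_A_right false u t
    have b5 := code_A_left false (inc u) t
    exact h7in hf a4 a3 N0 (Or.inr (Or.inr (Or.inr (Or.inr ⟨u.code, by omega, (inc u).code,
      by omega, (A false u t).code, by omega, t.code, by omega,
      cAA hN hf (b := false) (u := Z) (t := u) (show (inc u).code < N by omega),
      Or.inl ⟨cAA hN hf a4, cAA hN hf a3, cAA hN hf (by omega)⟩⟩))))
  · intro b u t ht
    have a3 := lt _ ht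
    have e : (A b (inc u) t).sz ≤ M := by
      have := one_le_sz u
      simp only [sz, sz_inc] at ht ⊢
      omega
    have a4 := lt _ e
    have b1 := code_A_left b u (A b u t)
    have b2 := code_A_right b u (A b u t)
    have b3 := code_A_left b u t
    have b4 := code_A_right b u t
    have b5 := code_A_left b (inc u) t
    exact h7in hf a3 a4 N0 (Or.inr (Or.inr (Or.inr (Or.inr ⟨u.code, by omega, (inc u).code,
      by omega, (A b u t).code, by omega, t.code, by omega,
      cAA hN hf (b := false) (u := Z) (t := u) (show (inc u).code < N by omega),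
      Or.inr ⟨dg b, dg_lt hN b, isD_dg b, cAA hN hf a3, cAA hN hf (by omega),
        cAA hN hf a4⟩⟩))))

/-- Completeness for the order. -/
theorem c7 {P : ℕ} (hP1 : 1 ≤ P) (hP : 8 ^ (300 * (P * P)) ≤ N) {t t' : Dt} (ht : t.Ok)
    (ht' : t'.Ok) (hz : t.sz ≤ P) (hz' : t'.sz ≤ P) (h : rv t' ≤ rv t) :
    lk N w 7 t.code t'.code 0 :=
  complete (closed hN hf hP) hP1 le_rfl ht ht' hz hz' h

omit hN hf in
theorem P_le {P : ℕ} : P ≤ 300 * (P * P) := by
  have := Nat.le_mul_self P
  omega

/-- Completeness for validity. -/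
theorem c9 {P : ℕ} (hP1 : 1 ≤ P) (hP : 8 ^ (300 * (P * P)) ≤ N) (t : Dt) : t.Ok → t.sz ≤ P →
    lk N w 9 t.code 0 0 := by
  induction t with
  | Z =>
    intro _ _
    exact hf 9 (by norm_num) _ (by simp only [code]; omega) _ (by omega) _ (by omega)
      (step9.2 (Or.inr (Or.inl rfl)))
  | A b u t ihu iht =>
    intro h hs
    obtain ⟨h1, h2, h3⟩ := h
    have h4 : (A b u t).code < N := lt_pow hP (hs.trans P_le)
    have h5 := code_A_left b u t
    have h6 := code_A_right b u t
    simp only [sz] at hs
    have h7 := c7 hN hf hP1 hP h1 (t' := Z) trivial (by omega) hP1 (by rw [rv]; exact h2)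
    refine hf 9 (by norm_num) _ h4 _ (by omega) _ (by omega) (step9.2 (Or.inr (Or.inr
      ⟨u.code, by omega, t.code, by omega, ?_, ihu h1 (by omega), h7, iht h3 (by omega)⟩)))
    have a1 := cAA hN hf h4
    cases b
    · exact Or.inl a1
    · exact Or.inr a1

/-- Completeness for values. -/
theorem c4 {P lam : ℕ} (hP1 : 1 ≤ P) (hP : 8 ^ (300 * (P * P)) ≤ N)
    (hlam : lam * (2 * lam + 2) + 3 ≤ P) (hlamN : 2 ^ lam ≤ N) : ∀ (a : ℕ) (t : Dt),
    a < 2 ^ lam → t.Ok → t.sz ≤ P → rv t = a → lk N w 4 t.code a 0 := by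
  intro a
  induction a with
  | zero =>
    intro t _ ht hs hv
    have h4 : t.code < N := lt_pow hP (hs.trans P_le)
    have hv' : rv t = rv Z := by rw [hv, rv]; simp
    refine hf 4 (by norm_num) _ h4 _ (by omega) _ (by omega) (step4.2 (Or.inr (Or.inl
      ⟨rfl, ?_, ?_⟩)))
    · exact c7 hN hf hP1 hP ht (t' := Z) trivial hs hP1 hv'.ge
    · exact c7 hN hf hP1 hP (t := Z) trivial ht hP1 hs hv'.le
  | succ a ih =>
    intro t ha ht hs hv
    obtain ⟨u, hu1, hu2, hu3⟩ := exists_short lam a (by omega)
    have h4 : t.code < N := lt_pow hP (hs.trans P_le)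
    have hi := sz_inc u
    have h5 : (inc u).code < N := lt_pow hP ((by omega : (inc u).sz ≤ P).trans P_le)
    have h6 : u.code < (inc u).code := code_A_right false Z u
    have hv' : rv t = rv (inc u) := by rw [hv, rv_inc, hu2]; push_cast; ring
    refine hf 4 (by norm_num) _ h4 _ (by omega) _ (by omega) (step4.2 (Or.inr (Or.inr
      ⟨u.code, by omega, (inc u).code, h5, a, by omega, ih u (by omega) hu1 (by omega) hu2, rfl,
        cAA hN hf (b := false) (u := Z) (t := u) h5, ?_, ?_⟩)))
    · exact c7 hN hf hP1 hP ht hu1.inc hs (by omega) hv'.ge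
    · exact c7 hN hf hP1 hP hu1.inc ht (by omega) hs hv'.le

/-- Completeness for residues. -/
theorem c5 {P lam : ℕ} (hP1 : 1 ≤ P) (hP : 8 ^ (300 * (P * P)) ≤ N)
    (hlam : lam * (2 * lam + 2) + 3 ≤ P) (hlamN : 8 * 2 ^ lam ≤ N) (t : Dt) :
    SmO lam t → t.sz ≤ P → ∀ m : ℕ, 0 < m → m < N →
      ∃ k : ℤ, rv t = k ∧ ∃ z : ℕ, (z : ℤ) = k % m ∧ lk N w 5 t.code m z := by
  induction t with
  | Z =>
    intro _ _ m hm hmN
    refine ⟨0, by simp [rv], 0, by simp, ?_⟩
    exact hf 5 (by norm_num) _ (by simp only [code]; omega) _ hmN _ (by omega) (step5.2 (Or.inr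
      ⟨⟨hm, hm⟩, Or.inl ⟨rfl, rfl⟩⟩))
  | A b u t _ iht =>
    intro h hs m hm hmN
    have h4 : (A b u t).code < N := lt_pow hP (hs.trans P_le)
    have h5 := code_A_left b u t
    have h6 := code_A_right b u t
    simp only [sz] at hs
    obtain ⟨⟨hu, a, ha, hv⟩, ht⟩ := h
    obtain ⟨k, hk, z', hz', hl⟩ := iht ht (by omega) m hm hmN
    have hm' : (0 : ℤ) < m := by exact_mod_cast hm
    have e4 := c4 hN hf hP1 hP hlam (by omega) a u ha hu (by omega) hv
    have e1 := c1 hN hf hm hmN a (by omega)
    obtain ⟨p, hp⟩ : ∃ p, p = 2 ^ a % m := ⟨_, rfl⟩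
    rw [← hp] at e1
    have hpm : p < m := by rw [hp]; exact Nat.mod_lt _ hm
    have hpz : (p : ℤ) = 2 ^ a % (m : ℤ) := by rw [hp]; push_cast; rfl
    have hz'm : z' < m := by
      have := Int.emod_lt_of_pos k hm'
      rw [← hz'] at this
      exact_mod_cast this
    have h8 : (2 : ℝ) ^ rv u = ((2 ^ a : ℤ) : ℝ) := by
      rw [hv, Real.rpow_natCast]
      push_cast
      rfl
    obtain ⟨z, hz⟩ : ∃ z : ℕ, (z : ℤ) = (sg b * 2 ^ a + k) % m :=
      ⟨((sg b * 2 ^ a + k) % m).toNat, Int.toNat_of_nonneg (Int.emod_nonneg _ hm'.ne')⟩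
    have hzm : z < m := by
      have := Int.emod_lt_of_pos (sg b * 2 ^ a + k) hm'
      rw [← hz] at this
      exact_mod_cast this
    refine ⟨sg b * 2 ^ a + k, ?_, z, hz, ?_⟩
    · rw [rv_A, h8, hk]
      push_cast
      ring
    · have a1 := cAA hN hf h4
      cases b
      · refine hf 5 (by norm_num) _ h4 _ hmN _ (by omega) (step5.2 (Or.inr ⟨⟨hm, hzm⟩, Or.inr
          ⟨u.code, by omega, t.code, by omega, a, by omega, p, by omega, z', by omega,
            (p + z') / m, ?_, e1, by omega, e4, hl, Or.inl ⟨a1, ?_⟩⟩⟩))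
        · have : (p + z') / m < 2 := by
            rw [Nat.div_lt_iff_lt_mul hm]
            omega
          omega
        · have h9 : z = (p + z') % m := by
            have : (z : ℤ) = ((p + z' : ℕ) : ℤ) % m := by
              rw [hz]
              push_cast
              rw [hpz, hz', sg_false, one_mul, ← Int.add_emod]
            exact_mod_cast this
          rw [h9]
          exact Nat.div_add_mod' _ m
      · refine hf 5 (by norm_num) _ h4 _ hmN _ (by omega) (step5.2 (Or.inr ⟨⟨hm, hzm⟩, Or.inr
          ⟨u.code, by omega, t.code, by omega, a, by omega, p, by omega, z', by omega,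
            (p + z) / m, ?_, e1, by omega, e4, hl, Or.inr ⟨a1, ?_⟩⟩⟩))
        · have : (p + z) / m < 2 := by
            rw [Nat.div_lt_iff_lt_mul hm]
            omega
          omega
        · have h9 : z' = (p + z) % m := by
            have : (z' : ℤ) = ((p + z : ℕ) : ℤ) % m := by
              push_cast
              rw [hpz, hz, hz', sg_true, ← Int.add_emod]
              congr 1
              ring
            exact_mod_cast this
          rw [h9]
          exact Nat.div_add_mod' _ m

end fixed

end OM80
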