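import Pool.Agent.OM80.Three
import Pool.Agent.AM21.Functions

/-!
# The model
-/

set_option autoImplicit false

namespace OM80

open Dt Pool.Agent.PTL PT21
open AM21 (cif cif_pos cif_neg isP_cif range_flatMap eq_of_mod)

/-- Size of the terms which can be compared. -/
def bd (s : ℕ) : ℕ := 10 ^ 10 * s ^ 4

/-- Number of digits of the exact values. -/
def lam (s : ℕ) : ℕ := 40000 * s ^ 2

section formulas

variable (N : ℕ) (w : List Bool)

/-- The input has `2 n` ones from position `p` on. -/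
def Un (p n : ℕ) : Prop := (∀ i < 2 * n, lk N w 8 (p + i) 0 0) ∧ ¬ lk N w 8 (p + 2 * n) 0 0

/-- `n` is the length of the name attached to the code `c` of size `s`. -/
def Nm (n c s : ℕ) : Prop :=
  ∃ m < N, ∃ q < N, m = s ^ 8 ∧ lk N w 0 8 m q ∧ lk N w 3 c s 0 ∧ n = q + c

/-- `c` is the least valid code with the value of `d`. -/
def Mn (c d : ℕ) : Prop :=
  lk N w 9 c 0 0 ∧ lk N w 7 c d 0 ∧ lk N w 7 d c 0 ∧
    ∀ c' < c, lk N w 9 c' 0 0 → ¬ (lk N w 7 c' d 0 ∧ lk N w 7 d c' 0)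

/-- Output condition. -/
def Oc (Tg : ℕ → Prop) (i : ℕ) : Prop :=
  ∃ d < N, Tg d ∧ ∃ c < N, ∃ s < N, ∃ n < N + N, Nm N w n c s ∧ Mn N w c d ∧ i < n

/-- Output. -/
noncomputable def out (Tg : ℕ → Prop) : List Bool :=
  (List.range N).flatMap fun i => cif (Oc N w Tg i) [true] []

/-- The value of `y` is `3` to the power of the value of `x`. -/
def Q3 (x y : ℕ) : Prop :=
  ∃ a < N, ∃ c < N, lk N w 4 x a 0 ∧ 8 * a < N ∧ lk N w 7 c y 0 ∧ lk N w 7 y c 0 ∧
    ∀ m < N, 0 < m → ∃ r < N, lk N w 5 c m r ∧ lk N w 2 m a r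

end formulas

section tests

variable {k : ℕ} {N p n c s d i x y : (ℕ → ℕ) → ℕ}

theorem isT_Un (hN : IsE k N) (hp : IsE k p) (hn : IsE k n) :
    IsT k (fun w env => Un (N env) w (p env) (n env)) := by
  unfold Un
  repeat' first
    | exact IsE.const _
    | (refine IsE.mono ?_ (by assumption); omega)
    | apply isT_lk
    | (refine IsT.ex ?_ (fun _ _ _ _ => ?_))
    | (refine IsT.all ?_ (fun _ _ _ _ => ?_))
    | apply IsT.and
    | apply IsT.not
    | apply IsT.imp
    | apply IsT.eq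
    | apply IsT.lt
    | apply IsE.add
    | apply IsE.mul
    | apply IsE.pow

theorem isT_Nm (hN : IsE k N) (hn : IsE k n) (hc : IsE k c) (hs : IsE k s) :
    IsT k (fun w env => Nm (N env) w (n env) (c env) (s env)) := by
  unfold Nm
  repeat' first
    | exact IsE.const _
    | (refine IsE.mono ?_ (by assumption); omega)
    | apply isT_lk
    | (refine IsT.ex ?_ (fun _ _ _ _ => ?_))
    | (refine IsT.all ?_ (fun _ _ _ _ => ?_))
    | apply IsT.and
    | apply IsT.not
    | apply IsT.imp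
    | apply IsT.eq
    | apply IsT.lt
    | apply IsE.add
    | apply IsE.mul
    | apply IsE.pow

theorem isT_Mn (hN : IsE k N) (hc : IsE k c) (hd : IsE k d) :
    IsT k (fun w env => Mn (N env) w (c env) (d env)) := by
  unfold Mn
  repeat' first
    | exact IsE.const _
    | (refine IsE.mono ?_ (by assumption); omega)
    | apply isT_lk
    | (refine IsT.ex ?_ (fun _ _ _ _ => ?_))
    | (refine IsT.all ?_ (fun _ _ _ _ => ?_))
    | apply IsT.and
    | apply IsT.not
    | apply IsT.imp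
    | apply IsT.eq
    | apply IsT.lt
    | apply IsE.add
    | apply IsE.mul
    | apply IsE.pow

theorem isT_Q3 (hN : IsE k N) (hx : IsE k x) (hy : IsE k y) :
    IsT k (fun w env => Q3 (N env) w (x env) (y env)) := by
  unfold Q3
  repeat' first
    | exact IsE.const _
    | (refine IsE.mono ?_ (by assumption); omega)
    | apply isT_lk
    | (refine IsT.ex ?_ (fun _ _ _ _ => ?_))
    | (refine IsT.all ?_ (fun _ _ _ _ => ?_))
    | apply IsT.and
    | apply IsT.not
    | apply IsT.imp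
    | apply IsT.eq
    | apply IsT.lt
    | apply IsE.add
    | apply IsE.mul
    | apply IsE.pow

theorem isT_Oc (hN : IsE k N) {Tg : ℕ → List Bool → ℕ → Prop}
    (hTg : ∀ k (N d : (ℕ → ℕ) → ℕ), IsE k N → IsE k d → IsT k (fun w env => Tg (N env) w (d env)))
    (hi : IsE k i) : IsT k (fun w env => Oc (N env) w (Tg (N env) w) (i env)) := by
  refine IsT.ex hN fun k₁ h₁ d hd => ?_
  refine (hTg k₁ N d (hN.mono h₁) hd).and ?_
  refine IsT.ex (hN.mono h₁) fun k₂ h₂ c hc => ?_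
  refine IsT.ex (hN.mono (h₁.trans h₂)) fun k₃ h₃ s hs => ?_
  have hN₃ := hN.mono ((h₁.trans h₂).trans h₃)
  refine IsT.ex (hN₃.add hN₃) fun k₄ h₄ n hn => ?_
  exact (isT_Nm (hN₃.mono h₄) hn (hc.mono (h₃.trans h₄)) (hs.mono h₄)).and
    ((isT_Mn (hN₃.mono h₄) (hc.mono (h₃.trans h₄)) (hd.mono ((h₂.trans h₃).trans h₄))).and
      (IsT.lt (hi.mono (((h₁.trans h₂).trans h₃).trans h₄)) hn))

theorem isP_out (hN : IsE k N) {Tg : ℕ → List Bool → ℕ → Prop}
    (hTg : ∀ k (N d : (ℕ → ℕ) → ℕ), IsE k N → IsE k d →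
      IsT k (fun w env => Tg (N env) w (d env))) :
    IsP k (fun w env => out (N env) w (Tg (N env) w)) := by
  refine IsP.loop (G := fun w env i => cif (Oc (N env) w (Tg (N env) w) i) [true] []) hN
    fun k' hk i hi => ?_
  exact isP_cif (isT_Oc (hN.mono hk) hTg hi) (IsP.emit true) IsP.nil

end tests

/-- Programs may use the tables. -/
theorem frame {K : ℕ} (hK : 4 ≤ K) {F : List Bool → ℕ → List Bool}
    (hF : ∀ k N, IsE k N → IsP k (fun w env => F w (N env))) :
    ∃ f, PTC f ∧ ∀ z : List Bool, ∃ w, Snd ((z.length + 3) ^ K) w z ∧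
      mkt ((z.length + 3) ^ K) (step ((z.length + 3) ^ K) w) = w ∧
      f z = F w ((z.length + 3) ^ K) := by
  classical
  have h₀ : PTC (fun z => mkt ((z.length + 3) ^ K) (init z)) := by
    refine PTC.of (F := fun z L => mkt ((L + 3) ^ K) (init z)) fun k L hL => ?_
    refine (IsP.tbl [fun _ => 14, fun env => (L env + 3) ^ K, fun env => (L env + 3) ^ K,
      fun env => (L env + 3) ^ K] k
      (by simp [IsE.const, (hL.add (IsE.const 3)).pow K])
      (φ := fun w _ l => app4 (init w) l) fun k' hk ys hys hy => ?_)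
    match ys, hys with
    | [y1, y2, y3, y4], _ =>
      exact isT_init (hy _ (by simp)) (hy _ (by simp)) (hy _ (by simp)) (hy _ (by simp))
  obtain ⟨H, h₁, h₁'⟩ := exists_fix (ψ := step)
    (fun k N r x y z hN hr hx hy hz => isT_step hN hr hx hy hz) (fun _ _ _ _ _ _ h => Or.inl h)
  obtain ⟨f₂, h₂, h₂', -⟩ := PTC.ofLen isE_len len_mono hF
  refine ⟨_, h₂.comp (h₁.comp h₀), fun z => ?_⟩
  have hN : 64 ≤ (z.length + 3) ^ K := by
    calc 64 ≤ 3 ^ 4 := by norm_num
      _ ≤ (z.length + 3) ^ 4 := Nat.pow_le_pow_left (by omega) 4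
      _ ≤ (z.length + 3) ^ K := Nat.pow_le_pow_right (by omega) hK
  obtain ⟨n, x, hx0, hx1, hx2, hx3⟩ := h₁' ((z.length + 3) ^ K) (init z)
  have hsound : ∀ i, Snd ((z.length + 3) ^ K) (x i) z := by
    intro i
    induction i with
    | zero =>
      rw [hx0]
      exact snd_init hN z
    | succ i ih =>
      rw [hx1]
      exact ih.step hN
  have hlen : (x n).length = len ((z.length + 3) ^ K) := by
    cases n with
    | zero => rw [hx0, mkt_length]
    | succ i => rw [hx1, mkt_length]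
  refine ⟨x n, hsound n, by rw [← hx1, hx3], ?_⟩
  rw [hx2, h₂' (x n) _ hlen]

/-- The string `w` contains correct tables, for the input `v`. -/
structure Good (s N : ℕ) (w v : List Bool) : Prop where
  hN : 64 ≤ N
  hs : 1 ≤ s
  hbig : 8 ^ (300 * (bd s * bd s)) ≤ N
  h0 : ∀ a < N, ∀ q < N, (lk N w 0 8 a q ↔ q = 8 ^ a)
  h3 : ∀ c < N, ∀ s < N, (lk N w 3 c s 0 ↔ ∃ t : Dt, t.code = c ∧ t.sz = s)
  h7 : ∀ t t' : Dt, t.Ok → t'.Ok → t.sz ≤ bd s → t'.sz ≤ bd s →
    (lk N w 7 t.code t'.code 0 ↔ rv t' ≤ rv t)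
  h9 : ∀ t : Dt, t.sz ≤ bd s → (lk N w 9 t.code 0 0 ↔ t.Ok)
  h6 : ∀ t t' : Dt, t.sz + t'.sz ≤ bd s → ∀ z < N,
    (lk N w 6 t.code t'.code z ↔ z = (cat t t').code)
  h10 : ∀ t : Dt, t.sz ≤ bd s → ∀ z < N, (lk N w 10 t.code z 0 ↔ z = (neg t).code)
  h13 : ∀ t t' : Dt, t.sz * t'.sz ≤ bd s → ∀ z < N,
    (lk N w 13 t.code t'.code z ↔ z = (mul t t').code)
  hq : ∀ t t' : Dt, t.Ok → t'.Ok → t.sz ≤ s → t'.sz ≤ s → ∀ x y : ℕ, rv t = x → rv t' = y →
    (Q3 N w t.code t'.code ↔ y = 3 ^ x)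
  h8 : ∀ x < N, (lk N w 8 x 0 0 ↔ v.getD x false = true)

theorem s_le_bd {s : ℕ} : s ≤ bd s := by
  unfold bd
  rcases Nat.eq_zero_or_pos s with rfl | h
  · simp
  · have h1 : s ≤ s ^ 4 := Nat.le_self_pow (by norm_num) s
    calc s ≤ s ^ 4 := h1
      _ ≤ 10 ^ 10 * s ^ 4 := Nat.le_mul_of_pos_left _ (by norm_num)

theorem bd_big {s : ℕ} (hs : 1 ≤ s) : 10 ^ 10 * s ≤ bd s ∧ 10 ^ 10 * (s * s) ≤ bd s ∧
    1 ≤ bd s ∧ lam s * (2 * lam s + 2) + 3 ≤ bd s ∧ lam s ≤ bd s := by
  obtain ⟨q, hq⟩ : ∃ q, q = s * s := ⟨_, rfl⟩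
  have h1 : s ≤ q := by rw [hq]; exact Nat.le_mul_self s
  have h2 : q ≤ q * q := Nat.le_mul_self q
  have h3 : s ^ 4 = q * q := by rw [hq]; ring
  have h4 : s ^ 2 = q := by rw [hq]; ring
  unfold bd lam
  rw [h3, h4, ← hq]
  have h5 : 40000 * q * (2 * (40000 * q) + 2) = 3200000000 * (q * q) + 80000 * q := by ring
  rw [h5]
  refine ⟨?_, ?_, ?_, ?_, ?_⟩ <;> norm_num <;> omega

theorem key_lt {N v : ℕ} (hN : 64 ≤ N) (h : v ≤ N * 4 ^ (N / 8)) :
    2 * ((N - 1) / 2) * v < 4 ^ ((N - 1) / 2) := by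
  obtain ⟨n, hn⟩ : ∃ n, n = (N - 1) / 2 := ⟨_, rfl⟩
  rw [← hn]
  obtain ⟨m, hm⟩ : ∃ m, m = N / 4 := ⟨_, rfl⟩
  have h3 : N < 2 ^ m := by
    obtain ⟨j, hj⟩ : ∃ j, m = j + 5 := ⟨m - 5, by omega⟩
    have h4 : j < 2 ^ j := Nat.lt_two_pow_self
    rw [hj, pow_add]
    omega
  have h5 : N / 8 + m ≤ n := by omega
  have h6 : (2 * n) * N < 2 ^ m * 2 ^ m := Nat.mul_lt_mul'' (by omega) h3
  have h7 : 2 ^ m * 2 ^ m = 4 ^ m := by
    rw [← mul_pow]
    norm_num
  calc 2 * n * v ≤ 2 * n * (N * 4 ^ (N / 8)) := Nat.mul_le_mul_left _ h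
    _ = ((2 * n) * N) * 4 ^ (N / 8) := by ring
    _ < 4 ^ m * 4 ^ (N / 8) := by
        rw [← h7]
        exact Nat.mul_lt_mul_of_pos_right h6 (by positivity)
    _ = 4 ^ (N / 8 + m) := by
        rw [pow_add]
        ring
    _ ≤ 4 ^ n := Nat.pow_le_pow_right (by norm_num) h5

theorem sm_bound {N : ℕ} {t : Dt} (h : Sm N t) : rv t ≤ t.sz * 2 ^ (N / 8) := by
  induction t with
  | Z =>
    rw [rv]
    positivity
  | A b u t _ ih =>
    obtain ⟨⟨a, ha, haN⟩, h2⟩ := h
    have h3 := ih h2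
    rw [rv_A, ha, Real.rpow_natCast]
    have h4 : (2 : ℝ) ^ a ≤ 2 ^ (N / 8) :=
      pow_le_pow_right₀ (by norm_num) (by omega)
    have h5 : (0 : ℝ) < 2 ^ a := by positivity
    have h6 : (sg b : ℝ) * 2 ^ a ≤ 2 ^ a := by
      cases b
      · simp
      · simp only [sg_true]
        push_cast
        linarith
    have h7 : (((A b u t).sz : ℕ) : ℝ) = u.sz + t.sz + 1 := by
      simp only [sz]
      push_cast
      ring
    rw [h7]
    have h8 : (0 : ℝ) ≤ (u.sz : ℝ) * 2 ^ (N / 8) := by positivity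
    linarith

theorem good_of_fix {s N : ℕ} {w v : List Bool} (hN : 64 ≤ N) (hs : 1 ≤ s)
    (hbig : 8 ^ (300 * (bd s * bd s)) ≤ N) (hw : Snd N w v) (hfix : mkt N (step N w) = w) :
    Good s N w v := by
  have hf : ∀ r < 14, ∀ x < N, ∀ y < N, ∀ z < N, step N w r x y z → lk N w r x y z := by
    intro r hr x hx y hy z hz h
    rw [← hfix]
    exact (lk_mkt hr hx hy hz).2 h
  obtain ⟨b1, b2, b3, b4, b5⟩ := bd_big hs
  have lt : ∀ t : Dt, t.sz ≤ bd s → t.code < N := fun t ht => lt_pow hbig (ht.trans P_le)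
  have hlam : 8 * 2 ^ lam s ≤ N := by
    refine le_trans ?_ hbig
    have h1 : 2 ^ lam s ≤ 8 ^ lam s := Nat.pow_le_pow_left (by norm_num) _
    have h2 : 8 ^ (lam s + 1) ≤ 8 ^ (300 * (bd s * bd s)) := by
      apply Nat.pow_le_pow_right (by norm_num)
      have := Nat.le_mul_self (bd s)
      omega
    rw [pow_succ] at h2
    omega
  refine ⟨hN, hs, hbig, ?_, ?_, ?_, ?_, ?_, ?_, ?_, ?_, hw.h8⟩
  · intro a ha q hq
    constructor
    · exact hw.h0 _ (by omega) _ ha _ hq
    · rintro rfl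
      exact c0 hN hf (by norm_num) (by omega) _ hq
  · intro c hc s hs
    constructor
    · exact hw.h3 _ hc _ hs _ (by omega)
    · rintro ⟨t, rfl, rfl⟩
      exact c3 hN hf t hc
  · intro t t' ho ho' ht ht'
    constructor
    · intro h
      obtain ⟨a, c, h1, h2, h3⟩ := hw.h7 _ (lt t ht) _ (lt t' ht') _ (by omega) h
      rw [← code_inj h1, ← code_inj h2]
      exact h3
    · intro h
      exact c7 hN hf b3 hbig ho ho' ht ht' h
  · intro t ht
    constructor
    · intro h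
      obtain ⟨a, h1, h2⟩ := hw.h9 _ (lt t ht) _ (by omega) _ (by omega) h
      rwa [← code_inj h1]
    · intro h
      exact c9 hN hf b3 hbig t h ht
  · intro t t' ht z hz
    have e := sz_cat t t'
    have l1 := lt t (by omega)
    have l2 := lt t' (by omega)
    have l3 := lt (cat t t') (by omega)
    constructor
    · intro h
      obtain ⟨a, c, h1, h2, h3⟩ := hw.h6 _ l1 _ l2 _ hz h
      rw [← code_inj h1, ← code_inj h2, h3]
    · rintro rfl
      exact c6 hN hf t t' hz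
  · intro t ht z hz
    constructor
    · intro h
      obtain ⟨a, h1, h2⟩ := hw.h10 _ (lt t ht) _ hz _ (by omega) h
      rw [← code_inj h1, h2]
    · rintro rfl
      exact c10 hN hf hbig t (ht.trans P_le)
  · intro t t' ht z hz
    have o1 := one_le_sz t
    have o2 := one_le_sz t'
    have m1 : t.sz ≤ t.sz * t'.sz := Nat.le_mul_of_pos_right _ o2
    have m2 : t'.sz ≤ t.sz * t'.sz := Nat.le_mul_of_pos_left _ o1
    constructor
    · intro h
      obtain ⟨a, c, h1, h2, h3⟩ := hw.h13 _ (lt t (by omega)) _ (lt t' (by omega)) _ hz h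
      rw [← code_inj h1, ← code_inj h2, h3]
    · rintro rfl
      exact c13 hN hf hbig t t' (ht.trans P_le)
  · intro t t' ho ho' ht ht' x y hx hy
    have hsb := s_le_bd (s := s)
    have l1 := lt t (by omega)
    have l2 := lt t' (by omega)
    constructor
    · rintro ⟨a, ha, c, hc, h1, h2, h3, h4, h5⟩
      obtain ⟨p, p1, p2⟩ := hw.h4 _ l1 _ ha _ (by omega) h1
      obtain rfl : p = t := code_inj p1
      have hax : a = x := by
        rw [hx] at p2
        exact_mod_cast p2.symm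
      subst hax
      obtain ⟨q, q', q1, q2, q3⟩ := hw.h7 _ hc _ l2 _ (by omega) h3
      obtain ⟨q4, q5, q6, q7, q8⟩ := hw.h7 _ l2 _ hc _ (by omega) h4
      obtain rfl : q' = t' := code_inj q2
      obtain rfl : q4 = q' := code_inj q6
      obtain rfl : q5 = q := code_inj (q7.trans q1.symm)
      have hcy : rv q5 = y := by
        rw [← hy]
        exact le_antisymm q8 q3
      have hSm : Sm N q5 := by
        obtain ⟨r, hr, h6, -⟩ := h5 1 (by omega) (by norm_num)
        obtain ⟨e, e1, e2, -⟩ := hw.h5 _ hc _ (by omega) _ hr h6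
        obtain rfl : e = q5 := code_inj (e1.trans q1.symm)
        exact e2
      have hmod : ∀ m, 0 < m → m < N → y % m = 3 ^ a % m := by
        intro m hm hmN
        obtain ⟨r, hr, h6, h7⟩ := h5 m hmN hm
        obtain ⟨e, e1, -, -, k, e3, e4⟩ := hw.h5 _ hc _ hmN _ hr h6
        obtain rfl : e = q5 := code_inj (e1.trans q1.symm)
        have hk : k = y := by
          rw [hcy] at e3
          exact_mod_cast e3.symm
        rw [hk] at e4
        have e5 := (hw.h2 _ hmN _ ha _ hr h7).2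
        rw [← e5]
        exact_mod_cast e4.symm
      have hyb : y ≤ N * 4 ^ (N / 8) := by
        have g1 := sm_bound hSm
        rw [hcy] at g1
        have g2 : y ≤ q5.sz * 2 ^ (N / 8) := by exact_mod_cast g1
        have g3 := sz_le_code q5
        calc y ≤ q5.sz * 2 ^ (N / 8) := g2
          _ ≤ N * 4 ^ (N / 8) :=
            Nat.mul_le_mul (by omega) (Nat.pow_le_pow_left (by norm_num) _)
      have h3b : 3 ^ a ≤ N * 4 ^ (N / 8) := by
        calc 3 ^ a ≤ 4 ^ a := Nat.pow_le_pow_left (by norm_num) _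
          _ ≤ 4 ^ (N / 8) := Nat.pow_le_pow_right (by norm_num) (by omega)
          _ ≤ N * 4 ^ (N / 8) := Nat.le_mul_of_pos_left _ (by omega)
      exact eq_of_mod (n := (N - 1) / 2) (by omega) (fun m hm hmn => hmod m hm (by omega))
        (key_lt hN hyb) (key_lt hN h3b)
    · intro h
      have h3 : rv t' = (3 : ℝ) ^ x := by rw [hy, h]; push_cast; rfl
      obtain ⟨r1, t'', r2, r3, r4⟩ := red3 ho' hs ht' h3
      have r4o := r4.ok
      have l3 := lt t'' (by omega)
      have hlx : x < 2 ^ lam s := r1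
      refine ⟨x, by omega, t''.code, l3,
        c4 hN hf b3 hbig b4 (by omega) x t r1 ho (by omega) hx, by omega,
        c7 hN hf b3 hbig r4o ho' (by omega) (by omega) r3.ge,
        c7 hN hf b3 hbig ho' r4o (by omega) (by omega) r3.le, ?_⟩
      intro m hmN hm
      obtain ⟨k, k1, z, k2, k3⟩ := c5 hN hf b3 hbig b4 hlam t'' r4 (by omega) m hm hmN
      have hk : k = 3 ^ x := by
        rw [r3, h3] at k1
        exact_mod_cast k1.symm
      have hz : z = 3 ^ x % m := by
        rw [hk] at k2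
        exact_mod_cast k2
      have hzm : z < m := by rw [hz]; exact Nat.mod_lt _ hm
      refine ⟨z, by omega, k3, ?_⟩
      rw [hz]
      exact c2 hN hf hm hmN x (by omega)

end OM80
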