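import Pool.Agent.OM80.Table

/-!
# Meaning of the tables
-/

set_option autoImplicit false

namespace OM80

open Dt

/-- All exponents at the top level are natural numbers `a` with `8 a < N`. -/
def Sm (N : ℕ) : Dt → Prop
  | Z => True
  | A _ u t => (∃ a : ℕ, rv u = a ∧ 8 * a < N) ∧ Sm N t

/-- The table is sound. -/
structure Snd (N : ℕ) (w v : List Bool) : Prop where
  h0 : ∀ x < N, ∀ y < N, ∀ z < N, lk N w 0 x y z → z = x ^ y
  h1 : ∀ x < N, ∀ y < N, ∀ z < N, lk N w 1 x y z → 0 < x ∧ z = 2 ^ y % x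
  h2 : ∀ x < N, ∀ y < N, ∀ z < N, lk N w 2 x y z → 0 < x ∧ z = 3 ^ y % x
  h3 : ∀ x < N, ∀ y < N, ∀ z < N, lk N w 3 x y z → ∃ t : Dt, t.code = x ∧ t.sz = y
  h4 : ∀ x < N, ∀ y < N, ∀ z < N, lk N w 4 x y z → ∃ t : Dt, t.code = x ∧ rv t = y
  h5 : ∀ x < N, ∀ y < N, ∀ z < N, lk N w 5 x y z →
    ∃ t : Dt, t.code = x ∧ Sm N t ∧ 0 < y ∧ ∃ k : ℤ, rv t = k ∧ (z : ℤ) = k % y
  h6 : ∀ x < N, ∀ y < N, ∀ z < N, lk N w 6 x y z →
    ∃ t t' : Dt, t.code = x ∧ t'.code = y ∧ (cat t t').code = z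
  h7 : ∀ x < N, ∀ y < N, ∀ z < N, lk N w 7 x y z →
    ∃ t t' : Dt, t.code = x ∧ t'.code = y ∧ rv t' ≤ rv t
  h8 : ∀ x < N, (lk N w 8 x 0 0 ↔ v.getD x false = true)
  h9 : ∀ x < N, ∀ y < N, ∀ z < N, lk N w 9 x y z → ∃ t : Dt, t.code = x ∧ t.Ok
  h10 : ∀ x < N, ∀ y < N, ∀ z < N, lk N w 10 x y z →
    ∃ t : Dt, t.code = x ∧ (neg t).code = y
  h11 : ∀ x < N, ∀ y < N, ∀ z < N, lk N w 11 x y z →
    ∃ u t : Dt, u.code = x ∧ t.code = y ∧ (sc false u t).code = z
  h12 : ∀ x < N, ∀ y < N, ∀ z < N, lk N w 12 x y z →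
    ∃ u t : Dt, u.code = x ∧ t.code = y ∧ (sc true u t).code = z
  h13 : ∀ x < N, ∀ y < N, ∀ z < N, lk N w 13 x y z →
    ∃ t t' : Dt, t.code = x ∧ t'.code = y ∧ (mul t t').code = z

theorem mod_eq {q m z a : ℕ} (hz : z < m) (h : q * m + z = a) : z = a % m := by
  rw [← h, Nat.mul_add_mod', Nat.mod_eq_of_lt hz]

section sound

variable {N : ℕ} {w v : List Bool} (hN : 64 ≤ N) (hw : Snd N w v)
include hN hw

theorem AA_sound {d x u t : ℕ} (hu : u < N) (ht : t < N) (h : AA N w d x u t) :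
    ∃ tu tt : Dt, tu.code = u ∧ tt.code = t ∧ x = d + 8 * (tu.code + 8 ^ tu.sz * tt.code) := by
  obtain ⟨s, hs, s', hs', q, hq, h1, h2, h3, h4⟩ := h
  obtain ⟨tu, hu1, hu2⟩ := hw.h3 _ hu _ hs _ (by omega) h1
  obtain ⟨tt, ht1, ht2⟩ := hw.h3 _ ht _ hs' _ (by omega) h2
  have h5 := hw.h0 _ (by omega) _ hs _ hq h3
  refine ⟨tu, tt, hu1, ht1, ?_⟩
  rw [h4, h5, hu1, ht1, hu2]

theorem AA_sound' {b : Bool} {x u t : ℕ} (hu : u < N) (ht : t < N) (h : AA N w (dg b) x u t) :
    ∃ tu tt : Dt, tu.code = u ∧ tt.code = t ∧ (A b tu tt).code = x := by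
  obtain ⟨tu, tt, h1, h2, h3⟩ := AA_sound hN hw hu ht h
  exact ⟨tu, tt, h1, h2, by rw [h3, code]⟩

theorem AA3 {x u t : ℕ} (hu : u < N) (ht : t < N) (h : AA N w 3 x u t) :
    ∃ tu tt : Dt, tu.code = u ∧ tt.code = t ∧ (A false tu tt).code = x :=
  AA_sound' hN hw (b := false) hu ht h

theorem AA4 {x u t : ℕ} (hu : u < N) (ht : t < N) (h : AA N w 4 x u t) :
    ∃ tu tt : Dt, tu.code = u ∧ tt.code = t ∧ (A true tu tt).code = x :=
  AA_sound' hN hw (b := true) hu ht h

omit hN hw in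
theorem isD_iff {d : ℕ} (h : isD d) : ∃ b, d = dg b := by
  rcases h with rfl | rfl
  · exact ⟨false, rfl⟩
  · exact ⟨true, rfl⟩

omit hN hw in
theorem two_le {a b : ℝ} (h : a ≤ b) : (2 : ℝ) ^ a ≤ (2 : ℝ) ^ b :=
  Real.rpow_le_rpow_of_exponent_le (by norm_num) h

omit hN hw in
theorem two_succ (a : ℝ) : (2 : ℝ) ^ (a + 1) = 2 * (2 : ℝ) ^ a := by
  rw [Real.rpow_add (by norm_num), Real.rpow_one]
  ring

omit hN hw in
theorem two_pos (a : ℝ) : 0 < (2 : ℝ) ^ a := Real.rpow_pos_of_pos (by norm_num) a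

theorem ge_sound {x y : ℕ} (hx : x < N) (hy : y < N) (h : rGe N w x y) :
    ∃ t t' : Dt, t.code = x ∧ t'.code = y ∧ rv t' ≤ rv t := by
  rcases h with h | h | h | h | h
  · rcases h with ⟨rfl, s, hs, h⟩ | ⟨z, hz, h1, h2⟩
    · obtain ⟨t, h1, -⟩ := hw.h3 _ hx _ hs _ (by omega) h
      exact ⟨t, t, h1, h1, le_rfl⟩
    · obtain ⟨t, t', h3, h4, h5⟩ := hw.h7 _ hx _ hz _ (by omega) h1
      obtain ⟨t2, t3, h6, h7, h8⟩ := hw.h7 _ hz _ hy _ (by omega) h2
      obtain rfl : t' = t2 := code_inj (h4.trans h6.symm)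
      exact ⟨t, t3, h3, h7, h8.trans h5⟩
  · obtain ⟨u, hu, u', hu', t, ht, t', ht', h1, h2⟩ := h
    obtain ⟨a, a', a1, a2, a3⟩ := hw.h7 _ ht _ ht' _ (by omega) h1
    rcases h2 with ⟨h2, h3, h4⟩ | ⟨h2, h3, h4⟩
    · obtain ⟨b, b', b1, b2, b3⟩ := hw.h7 _ hu _ hu' _ (by omega) h4
      obtain ⟨p, q, p1, p2, p3⟩ := AA3 hN hw hu ht h2
      obtain ⟨p', q', p1', p2', p3'⟩ := AA3 hN hw hu' ht' h3
      obtain rfl : a = q := code_inj (a1.trans p2.symm)
      obtain rfl : a' = q' := code_inj (a2.trans p2'.symm)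
      obtain rfl : b = p := code_inj (b1.trans p1.symm)
      obtain rfl : b' = p' := code_inj (b2.trans p1'.symm)
      refine ⟨_, _, p3, p3', ?_⟩
      have := two_le b3
      rw [rv_A, rv_A, sg_false]
      push_cast
      linarith
    · obtain ⟨b, b', b1, b2, b3⟩ := hw.h7 _ hu' _ hu _ (by omega) h4
      obtain ⟨p, q, p1, p2, p3⟩ := AA4 hN hw hu ht h2
      obtain ⟨p', q', p1', p2', p3'⟩ := AA4 hN hw hu' ht' h3
      obtain rfl : a = q := code_inj (a1.trans p2.symm)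
      obtain rfl : a' = q' := code_inj (a2.trans p2'.symm)
      obtain rfl : b = p' := code_inj (b1.trans p1'.symm)
      obtain rfl : b' = p := code_inj (b2.trans p1.symm)
      refine ⟨_, _, p3, p3', ?_⟩
      have := two_le b3
      rw [rv_A, rv_A, sg_true]
      push_cast
      linarith
  · obtain ⟨d, hd, d', hd', u, hu, u', hu', t, ht, v, hv, v', hv', hdd, hdd', h1, h2, h3, h4⟩ := h
    obtain ⟨b, rfl⟩ := isD_iff hdd
    obtain ⟨b', rfl⟩ := isD_iff hdd'
    obtain ⟨a, c, a1, c1, e1⟩ := AA_sound' hN hw hu hv h1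
    obtain ⟨a2, c2, a3, c3, e2⟩ := AA_sound' hN hw hu' ht h2
    obtain ⟨a4, c4, a5, c5, e3⟩ := AA_sound' hN hw hu' hv' h3
    obtain ⟨a6, c6, a7, c7, e4⟩ := AA_sound' hN hw hu ht h4
    obtain rfl : c = A b' a2 c2 := code_inj (c1.trans e2.symm)
    obtain rfl : c4 = A b a6 c6 := code_inj (c5.trans e4.symm)
    obtain rfl : a4 = a2 := code_inj (a5.trans a3.symm)
    obtain rfl : a6 = a := code_inj (a7.trans a1.symm)
    obtain rfl : c6 = c2 := code_inj (c7.trans c3.symm)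
    refine ⟨_, _, e1, e3, ?_⟩
    simp only [rv_A]
    linarith
  · rcases h with ⟨u, hu, h1⟩ | ⟨u, hu, u', hu', v, hv, h1, h2, h3⟩ | ⟨u, hu, v, hv, h1, h2⟩
    · obtain ⟨a, c, a1, c1, e1⟩ := AA3 hN hw hu hy h1
      refine ⟨_, _, e1, c1, ?_⟩
      have := two_pos (rv a)
      rw [rv_A, sg_false]
      push_cast
      linarith
    · obtain ⟨a, c, a1, c1, e1⟩ := AA3 hN hw hu hv h1
      obtain ⟨a2, c2, a3, c3, e2⟩ := AA4 hN hw hu' hy h2
      obtain ⟨b, b', b1, b2, b3⟩ := hw.h7 _ hu _ hu' _ (by omega) h3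
      obtain rfl : c = A true a2 c2 := code_inj (c1.trans e2.symm)
      obtain rfl : b = a := code_inj (b1.trans a1.symm)
      obtain rfl : b' = a2 := code_inj (b2.trans a3.symm)
      refine ⟨_, _, e1, c3, ?_⟩
      have := two_le b3
      rw [rv_A, rv_A, sg_false, sg_true]
      push_cast
      linarith
    · obtain ⟨a, c, a1, c1, e1⟩ := AA3 hN hw hu hv h1
      obtain ⟨a2, c2, a3, c3, e2⟩ := AA4 hN hw hu hx h2
      obtain rfl : c = A true a2 c2 := code_inj (c1.trans e2.symm)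
      obtain rfl : a = a2 := code_inj (a1.trans a3.symm)
      refine ⟨_, _, c3, e1, ?_⟩
      rw [rv_A, rv_A, sg_false, sg_true]
      push_cast
      linarith
  · obtain ⟨u, hu, v, hv, p, hp, t, ht, h1, h2⟩ := h
    obtain ⟨a, c, a1, c1, e1⟩ := AA3 hN hw (by omega) hu h1
    obtain rfl : a = Z := code_inj (a1.trans rfl)
    have hr : rv (A false Z c) = rv c + 1 := rv_inc c
    rcases h2 with ⟨h2, h3, h4⟩ | ⟨d, hd, hdd, h2, h3, h4⟩
    · obtain ⟨a2, c2, a3, c3, e2⟩ := AA3 hN hw hv ht h2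
      obtain ⟨a4, c4, a5, c5, e3⟩ := AA3 hN hw hu hp h3
      obtain ⟨a6, c6, a7, c7, e4⟩ := AA3 hN hw hu ht h4
      obtain rfl : a2 = A false Z c := code_inj (a3.trans e1.symm)
      obtain rfl : c4 = A false a6 c6 := code_inj (c5.trans e4.symm)
      obtain rfl : a4 = c := code_inj (a5.trans c1.symm)
      obtain rfl : a6 = a4 := code_inj (a7.trans c1.symm)
      obtain rfl : c6 = c2 := code_inj (c7.trans c3.symm)
      refine ⟨_, _, e2, e3, ?_⟩
      have g1 := rv_A false (A false Z a6) c6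
      have g2 := rv_A false a6 (A false a6 c6)
      have g3 := rv_A false a6 c6
      rw [hr, two_succ] at g1
      rw [g3] at g2
      rw [g1, g2, sg_false]
      push_cast
      linarith
    · obtain ⟨b, rfl⟩ := isD_iff hdd
      obtain ⟨a4, c4, a5, c5, e3⟩ := AA_sound' hN hw hu hp h2
      obtain ⟨a6, c6, a7, c7, e4⟩ := AA_sound' hN hw hu ht h3
      obtain ⟨a2, c2, a3, c3, e2⟩ := AA_sound' hN hw hv ht h4
      obtain rfl : a2 = A false Z c := code_inj (a3.trans e1.symm)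
      obtain rfl : c4 = A b a6 c6 := code_inj (c5.trans e4.symm)
      obtain rfl : a4 = c := code_inj (a5.trans c1.symm)
      obtain rfl : a6 = a4 := code_inj (a7.trans c1.symm)
      obtain rfl : c6 = c2 := code_inj (c7.trans c3.symm)
      refine ⟨_, _, e3, e2, ?_⟩
      have g1 := rv_A b (A false Z a6) c6
      have g2 := rv_A b a6 (A b a6 c6)
      have g3 := rv_A b a6 c6
      rw [hr, two_succ] at g1
      rw [g3] at g2
      rw [g1, g2]
      linarith

omit hN hw in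
theorem mod_sound {r b x y z : ℕ}
    (hr : ∀ y < N, ∀ z < N, lk N w r x y z → 0 < x ∧ z = b ^ y % x)
    (h : rMod N w r b x y z) : 0 < x ∧ z = b ^ y % x := by
  obtain ⟨⟨h1, h2⟩, ⟨rfl, q, -, h3⟩ | ⟨y', hy', z', hz', q, -, rfl, h3, h4⟩⟩ := h
  · refine ⟨h1, ?_⟩
    rw [pow_zero]
    exact mod_eq h2 h3
  · refine ⟨h1, ?_⟩
    have h5 := (hr _ hy' _ hz' h4).2
    rw [mod_eq h2 h3, h5, pow_succ, mul_comm, Nat.mod_mul_mod]

omit hN hw in
theorem sc_code {b b' : Bool} {u t : Dt} {c c' : Dt} (h : (cat u c).code = c'.code)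
    {e : Dt} (he : (sc b u t).code = e.code) :
    (sc b u (A b' c t)).code = (A (xor b b') c' e).code := by
  have h1 := code_inj h
  have h2 := code_inj he
  rw [sc, h1, h2]

theorem sc_sound {r : ℕ} {b : Bool} {x y z : ℕ} (hx : x < N) (hy : y < N)
    (hr : ∀ x < N, ∀ y < N, ∀ z < N, lk N w r x y z →
      ∃ u t : Dt, u.code = x ∧ t.code = y ∧ (sc b u t).code = z)
    (h : rSc N w r (dg b) (dg (!b)) x y z) :
    ∃ u t : Dt, u.code = x ∧ t.code = y ∧ (sc b u t).code = z := by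
  rcases h with ⟨rfl, rfl, s, hs, h⟩ | ⟨u, hu, t, ht, v, hv, z', hz', h1, h2, h3⟩
  · obtain ⟨a, a1, -⟩ := hw.h3 _ hx _ hs _ (by omega) h
    exact ⟨a, Z, a1, rfl, rfl⟩
  · obtain ⟨a, c, a1, c1, e1⟩ := hw.h6 _ hx _ hu _ hv h1
    obtain ⟨a', c', a1', c1', e1'⟩ := hr _ hx _ ht _ hz' h2
    obtain rfl : a' = a := code_inj (a1'.trans a1.symm)
    rcases h3 with ⟨h3, h4⟩ | ⟨h3, h4⟩
    · obtain ⟨p, q, p1, p2, p3⟩ := AA3 hN hw hu ht h3
      obtain ⟨p', q', p1', p2', p3'⟩ := AA_sound' hN hw hv hz' h4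
      obtain rfl : p = c := code_inj (p1.trans c1.symm)
      obtain rfl : q = c' := code_inj (p2.trans c1'.symm)
      refine ⟨a', A false p q, a1, p3, ?_⟩
      rw [sc_code (e1.trans p1'.symm) (e1'.trans p2'.symm), ← p3']
      cases b <;> rfl
    · obtain ⟨p, q, p1, p2, p3⟩ := AA4 hN hw hu ht h3
      obtain ⟨p', q', p1', p2', p3'⟩ := AA_sound' hN hw hv hz' h4
      obtain rfl : p = c := code_inj (p1.trans c1.symm)
      obtain rfl : q = c' := code_inj (p2.trans c1'.symm)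
      refine ⟨a', A true p q, a1, p3, ?_⟩
      rw [sc_code (e1.trans p1'.symm) (e1'.trans p2'.symm), ← p3']
      cases b <;> rfl

theorem Snd.step : Snd N (mkt N (OM80.step N w)) v := by
  have e : ∀ {r x y z : ℕ}, r < 14 → x < N → y < N → z < N →
      (lk N (mkt N (OM80.step N w)) r x y z ↔ OM80.step N w r x y z) :=
    fun hr hx hy hz => lk_mkt hr hx hy hz
  refine ⟨?_, ?_, ?_, ?_, ?_, ?_, ?_, ?_, ?_, ?_, ?_, ?_, ?_, ?_⟩
  · intro x hx y hy z hz hl
    rw [e (by norm_num) hx hy hz, step0] at hl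
    rcases hl with hl | hl
    · exact hw.h0 _ hx _ hy _ hz hl
    · rcases hl with ⟨rfl, rfl⟩ | ⟨y', hy', z', hz', rfl, rfl, h⟩
      · rfl
      · rw [hw.h0 _ hx _ hy' _ hz' h, pow_succ]
        ring
  · intro x hx y hy z hz hl
    rw [e (by norm_num) hx hy hz, step1] at hl
    rcases hl with hl | hl
    · exact hw.h1 _ hx _ hy _ hz hl
    · exact mod_sound (fun y hy z hz h => hw.h1 _ hx _ hy _ hz h) hl
  · intro x hx y hy z hz hl
    rw [e (by norm_num) hx hy hz, step2] at hl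
    rcases hl with hl | hl
    · exact hw.h2 _ hx _ hy _ hz hl
    · exact mod_sound (fun y hy z hz h => hw.h2 _ hx _ hy _ hz h) hl
  · intro x hx y hy z hz hl
    rw [e (by norm_num) hx hy hz, step3] at hl
    rcases hl with hl | hl
    · exact hw.h3 _ hx _ hy _ hz hl
    · rcases hl with ⟨rfl, rfl⟩ | ⟨u, hu, t, ht, s, hs, s', hs', q, hq, h1, h2, h3, h4, rfl⟩
      · exact ⟨Z, rfl, rfl⟩
      · obtain ⟨a, a1, a2⟩ := hw.h3 _ hu _ hs _ (by omega) h1
        obtain ⟨c, c1, c2⟩ := hw.h3 _ ht _ hs' _ (by omega) h2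
        have h5 := hw.h0 _ (by omega) _ hs _ hq h3
        rcases h4 with h4 | h4
        · exact ⟨A false a c, by simp only [code, dg, a1, c1, a2, h4, h5],
            by simp only [sz, a2, c2]⟩
        · exact ⟨A true a c, by simp only [code, dg, a1, c1, a2, h4, h5],
            by simp only [sz, a2, c2]⟩
  · intro x hx y hy z hz hl
    rw [e (by norm_num) hx hy hz, step4] at hl
    rcases hl with hl | hl
    · exact hw.h4 _ hx _ hy _ hz hl
    · rcases hl with ⟨rfl, h1, h2⟩ | ⟨u, hu, v, hv, a, ha, h1, rfl, h2, h3, h4⟩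
      · obtain ⟨p, q, p1, p2, p3⟩ := hw.h7 _ hx _ (by omega) _ (by omega) h1
        obtain ⟨p', q', p1', p2', p3'⟩ := hw.h7 _ (by omega) _ hx _ (by omega) h2
        obtain rfl : q = Z := code_inj (p2.trans rfl)
        obtain rfl : p' = Z := code_inj (p1'.trans rfl)
        obtain rfl : q' = p := code_inj (p2'.trans p1.symm)
        refine ⟨q', p1, ?_⟩
        rw [rv] at p3 p3'
        push_cast
        linarith
      · obtain ⟨b, b1, b2⟩ := hw.h4 _ hu _ ha _ (by omega) h1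
        obtain ⟨p, q, p1, p2, p3⟩ := AA3 hN hw (by omega) hu h2
        obtain rfl : p = Z := code_inj (p1.trans rfl)
        obtain rfl : q = b := code_inj (p2.trans b1.symm)
        obtain ⟨r, s, r1, r2, r3⟩ := hw.h7 _ hx _ hv _ (by omega) h3
        obtain ⟨s', r', s1', r1', r3'⟩ := hw.h7 _ hv _ hx _ (by omega) h4
        obtain rfl : s = A false Z q := code_inj (r2.trans p3.symm)
        obtain rfl : s' = A false Z q := code_inj (s1'.trans p3.symm)
        obtain rfl : r' = r := code_inj (r1'.trans r1.symm)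
        refine ⟨r', r1, ?_⟩
        have hr : rv (A false Z q) = rv q + 1 := rv_inc q
        rw [hr, b2] at r3 r3'
        push_cast
        linarith
  · intro x hx y hy z hz hl
    rw [e (by norm_num) hx hy hz, step5] at hl
    rcases hl with hl | hl
    · exact hw.h5 _ hx _ hy _ hz hl
    · obtain ⟨⟨hy0, hzy⟩, ⟨rfl, rfl⟩ | ⟨u, hu, t, ht, a, ha, p, hp, z', hz', q, hq, h1, h2, h3,
        h4, h5⟩⟩ := hl
      · exact ⟨Z, rfl, trivial, hy0, 0, by simp [rv], by simp⟩
      · obtain ⟨a', a1, a2⟩ := hw.h4 _ hu _ ha _ (by omega) h3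
        obtain ⟨c', c1, c2, c3, k, c4, c5⟩ := hw.h5 _ ht _ hy _ hz' h4
        have h7 := (hw.h1 _ hy _ ha _ hp h1).2
        have h8 : (2 : ℝ) ^ rv a' = ((2 ^ a : ℤ) : ℝ) := by
          rw [a2, Real.rpow_natCast]
          push_cast
          rfl
        have hmod : ∀ i j : ℤ, i % (y : ℤ) = j % y → 0 ≤ i → i < y → i = j % y := by
          intro i j h1 h2 h3
          rw [← h1, Int.emod_eq_of_lt h2 h3]
        have hpz : (p : ℤ) % y = 2 ^ a % (y : ℤ) := by
          rw [h7]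
          push_cast
          rw [Int.emod_emod_of_dvd _ (dvd_refl _)]
        rcases h5 with ⟨h5, h6⟩ | ⟨h5, h6⟩
        · obtain ⟨p1, p2, p3, p4, p5⟩ := AA3 hN hw hu ht h5
          obtain rfl : a' = p1 := code_inj (a1.trans p3.symm)
          obtain rfl : c' = p2 := code_inj (c1.trans p4.symm)
          refine ⟨_, p5, ⟨⟨a, a2, h2⟩, c2⟩, hy0, 2 ^ a + k, ?_, ?_⟩
          · rw [rv_A, sg_false, h8, c4]
            push_cast
            ring
          · apply hmod _ _ _ (by positivity) (by exact_mod_cast hzy)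
            have h9 : (z : ℤ) = p + z' - q * y := by
              have : (q * y + z : ℤ) = p + z' := by exact_mod_cast h6
              linarith
            rw [h9, Int.sub_mul_emod_self_right, Int.add_emod, hpz, c5,
              Int.emod_emod_of_dvd _ (dvd_refl _), ← Int.add_emod]
        · obtain ⟨p1, p2, p3, p4, p5⟩ := AA4 hN hw hu ht h5
          obtain rfl : a' = p1 := code_inj (a1.trans p3.symm)
          obtain rfl : c' = p2 := code_inj (c1.trans p4.symm)
          refine ⟨_, p5, ⟨⟨a, a2, h2⟩, c2⟩, hy0, - 2 ^ a + k, ?_, ?_⟩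
          · rw [rv_A, sg_true, h8, c4]
            push_cast
            ring
          · apply hmod _ _ _ (by positivity) (by exact_mod_cast hzy)
            have h9 : (z : ℤ) = z' - p + q * y := by
              have : (q * y + z' : ℤ) = p + z := by exact_mod_cast h6
              linarith
            have h10 : (- 2 ^ a + k : ℤ) = k - 2 ^ a := by ring
            rw [h9, Int.add_mul_emod_self_right, Int.sub_emod, hpz, c5,
              Int.emod_emod_of_dvd _ (dvd_refl _), ← Int.sub_emod, h10]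
  · intro x hx y hy z hz hl
    rw [e (by norm_num) hx hy hz, step6] at hl
    rcases hl with hl | hl
    · exact hw.h6 _ hx _ hy _ hz hl
    · rcases hl with ⟨rfl, rfl, s, hs, h1⟩ | ⟨u, hu, t, ht, t', ht', h1, h2⟩
      · obtain ⟨t, t1, -⟩ := hw.h3 _ hy _ hs _ (by omega) h1
        exact ⟨Z, t, rfl, t1, t1⟩
      · obtain ⟨a, c, a1, a2, a3⟩ := hw.h6 _ ht _ hy _ ht' h2
        rcases h1 with ⟨h3, h4⟩ | ⟨h3, h4⟩
        · obtain ⟨p, q, p1, p2, p3⟩ := AA3 hN hw hu ht h3
          obtain ⟨p', q', p1', p2', p3'⟩ := AA3 hN hw hu ht' h4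
          obtain rfl : q = a := code_inj (p2.trans a1.symm)
          obtain rfl : q' = cat q c := code_inj (p2'.trans a3.symm)
          obtain rfl : p' = p := code_inj (p1'.trans p1.symm)
          exact ⟨_, c, p3, a2, p3'⟩
        · obtain ⟨p, q, p1, p2, p3⟩ := AA4 hN hw hu ht h3
          obtain ⟨p', q', p1', p2', p3'⟩ := AA4 hN hw hu ht' h4
          obtain rfl : q = a := code_inj (p2.trans a1.symm)
          obtain rfl : q' = cat q c := code_inj (p2'.trans a3.symm)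
          obtain rfl : p' = p := code_inj (p1'.trans p1.symm)
          exact ⟨_, c, p3, a2, p3'⟩
  · intro x hx y hy z hz hl
    rw [e (by norm_num) hx hy hz, step7] at hl
    rcases hl with hl | hl
    · exact hw.h7 _ hx _ hy _ hz hl
    · exact ge_sound hN hw hx hy hl
  · intro x hx
    rw [e (by norm_num) hx (by omega) (by omega), step8]
    exact hw.h8 _ hx
  · intro x hx y hy z hz hl
    rw [e (by norm_num) hx hy hz, step9] at hl
    rcases hl with hl | hl
    · exact hw.h9 _ hx _ hy _ hz hl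
    · rcases hl with rfl | ⟨u, hu, t, ht, h1, h2, h3, h4⟩
      · exact ⟨Z, rfl, trivial⟩
      · obtain ⟨a, a1, a2⟩ := hw.h9 _ hu _ (by omega) _ (by omega) h2
        obtain ⟨c, c1, c2⟩ := hw.h9 _ ht _ (by omega) _ (by omega) h4
        obtain ⟨p, q, p1, p2, p3⟩ := hw.h7 _ hu _ (by omega) _ (by omega) h3
        obtain rfl : p = a := code_inj (p1.trans a1.symm)
        obtain rfl : q = Z := code_inj (p2.trans rfl)
        rw [rv] at p3
        rcases h1 with h1 | h1
        · obtain ⟨r, s, r1, r2, r3⟩ := AA3 hN hw hu ht h1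
          obtain rfl : r = p := code_inj (r1.trans a1.symm)
          obtain rfl : s = c := code_inj (r2.trans c1.symm)
          exact ⟨_, r3, a2, p3, c2⟩
        · obtain ⟨r, s, r1, r2, r3⟩ := AA4 hN hw hu ht h1
          obtain rfl : r = p := code_inj (r1.trans a1.symm)
          obtain rfl : s = c := code_inj (r2.trans c1.symm)
          exact ⟨_, r3, a2, p3, c2⟩
  · intro x hx y hy z hz hl
    rw [e (by norm_num) hx hy hz, step10] at hl
    rcases hl with hl | hl
    · exact hw.h10 _ hx _ hy _ hz hl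
    · rcases hl with ⟨rfl, rfl⟩ | ⟨u, hu, t, ht, t', ht', h1, h2⟩
      · exact ⟨Z, rfl, rfl⟩
      · obtain ⟨a, a1, a2⟩ := hw.h10 _ ht _ ht' _ (by omega) h1
        rcases h2 with ⟨h3, h4⟩ | ⟨h3, h4⟩
        · obtain ⟨p, q, p1, p2, p3⟩ := AA3 hN hw hu ht h3
          obtain ⟨p', q', p1', p2', p3'⟩ := AA4 hN hw hu ht' h4
          obtain rfl : q = a := code_inj (p2.trans a1.symm)
          obtain rfl : q' = neg q := code_inj (p2'.trans a2.symm)
          obtain rfl : p' = p := code_inj (p1'.trans p1.symm)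
          exact ⟨_, p3, p3'⟩
        · obtain ⟨p, q, p1, p2, p3⟩ := AA4 hN hw hu ht h3
          obtain ⟨p', q', p1', p2', p3'⟩ := AA3 hN hw hu ht' h4
          obtain rfl : q = a := code_inj (p2.trans a1.symm)
          obtain rfl : q' = neg q := code_inj (p2'.trans a2.symm)
          obtain rfl : p' = p := code_inj (p1'.trans p1.symm)
          exact ⟨_, p3, p3'⟩
  · intro x hx y hy z hz hl
    rw [e (by norm_num) hx hy hz, step11] at hl
    rcases hl with hl | hl
    · exact hw.h11 _ hx _ hy _ hz hl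
    · exact sc_sound hN hw (b := false) hx hy hw.h11 hl
  · intro x hx y hy z hz hl
    rw [e (by norm_num) hx hy hz, step12] at hl
    rcases hl with hl | hl
    · exact hw.h12 _ hx _ hy _ hz hl
    · exact sc_sound hN hw (b := true) hx hy hw.h12 hl
  · intro x hx y hy z hz hl
    rw [e (by norm_num) hx hy hz, step13] at hl
    rcases hl with hl | hl
    · exact hw.h13 _ hx _ hy _ hz hl
    · rcases hl with ⟨rfl, rfl, s, hs, h⟩ | ⟨u, hu, t, ht, f, hf, g, hg, h1, h2, h3⟩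
      · obtain ⟨a, a1, -⟩ := hw.h3 _ hy _ hs _ (by omega) h
        exact ⟨Z, a, rfl, a1, rfl⟩
      · obtain ⟨a, c, a1, c1, e1⟩ := hw.h13 _ ht _ hy _ hg h2
        obtain ⟨a', c', a1', c1', e1'⟩ := hw.h6 _ hf _ hg _ hz h3
        obtain rfl : c' = mul a c := code_inj (c1'.trans e1.symm)
        rcases h1 with ⟨h4, h5⟩ | ⟨h4, h5⟩
        · obtain ⟨p, q, p1, p2, p3⟩ := AA3 hN hw hu ht h4
          obtain ⟨r, s, r1, r2, r3⟩ := hw.h11 _ hu _ hy _ hf h5
          obtain rfl : q = a := code_inj (p2.trans a1.symm)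
          obtain rfl : r = p := code_inj (r1.trans p1.symm)
          obtain rfl : s = c := code_inj (r2.trans c1.symm)
          obtain rfl : a' = sc false r s := code_inj (a1'.trans r3.symm)
          exact ⟨_, s, p3, c1, e1'⟩
        · obtain ⟨p, q, p1, p2, p3⟩ := AA4 hN hw hu ht h4
          obtain ⟨r, s, r1, r2, r3⟩ := hw.h12 _ hu _ hy _ hf h5
          obtain rfl : q = a := code_inj (p2.trans a1.symm)
          obtain rfl : r = p := code_inj (r1.trans p1.symm)
          obtain rfl : s = c := code_inj (r2.trans c1.symm)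
          obtain rfl : a' = sc true r s := code_inj (a1'.trans r3.symm)
          exact ⟨_, s, p3, c1, e1'⟩

end sound

theorem snd_init {N : ℕ} (hN : 64 ≤ N) (v : List Bool) : Snd N (mkt N (init v)) v := by
  have e : ∀ {r x y z : ℕ}, r < 14 → x < N → y < N → z < N →
      (lk N (mkt N (init v)) r x y z ↔ init v r x y z) :=
    fun hr hx hy hz => lk_mkt hr hx hy hz
  have no : ∀ {r x y z : ℕ}, r < 14 → r ≠ 8 → x < N → y < N → z < N →
      ¬ lk N (mkt N (init v)) r x y z := by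
    intro r x y z hr hr8 hx hy hz h
    rw [e hr hx hy hz] at h
    exact hr8 h.1
  refine ⟨?_, ?_, ?_, ?_, ?_, ?_, ?_, ?_, ?_, ?_, ?_, ?_, ?_, ?_⟩
  case refine_9 =>
    intro x hx
    rw [e (by norm_num) hx (by omega) (by omega)]
    simp [init]
  all_goals
    intro x hx y hy z hz h
    exact absurd h (no (by norm_num) (by norm_num) hx hy hz)

end OM80
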