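import Pool.Agent.OM80.Codes
import Pool.Agent.PT21.Defs
import Pool.Agent.PTL.Fix

/-!
# Tables: rules and their complexity
-/

set_option autoImplicit false

namespace OM80

open Pool.Agent.PTL

/-- The bounds of the table. -/
def bds (N : ℕ) : List ℕ := [14, N, N, N]

/-- An entry of the table. -/
def lk (N : ℕ) (w : List Bool) (r x y z : ℕ) : Prop :=
  w.getD (idx (bds N) [r, x, y, z]) false = true

/-- A relation of four numbers, as a relation of lists. -/
def app4 (ψ : ℕ → ℕ → ℕ → ℕ → Prop) : List ℕ → Prop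
  | [r, x, y, z] => ψ r x y z
  | _ => False

open Classical in
/-- The table of a relation. -/
noncomputable def mkt (N : ℕ) (ψ : ℕ → ℕ → ℕ → ℕ → Prop) : List Bool :=
  tbl (bds N) fun l => decide (app4 ψ l)

/-- Length of the table. -/
def len (N : ℕ) : ℕ := (bds N).prod

theorem len_eq (N : ℕ) : len N = 14 * N ^ 3 := by
  simp only [len, bds, List.prod_cons, List.prod_nil]
  ring

theorem len_mono : StrictMono len := by
  intro a b h
  rw [len_eq, len_eq]
  have := Nat.pow_lt_pow_left h (n := 3) (by norm_num)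
  omega

theorem isE_len (k : ℕ) (N : (ℕ → ℕ) → ℕ) (hN : IsE k N) : IsE k (fun env => len (N env)) := by
  have : (fun env : ℕ → ℕ => len (N env)) = fun env => 14 * N env ^ 3 := by
    funext env
    exact len_eq _
  rw [this]
  exact (IsE.const 14).mul (hN.pow 3)

theorem mkt_length (N : ℕ) (ψ : ℕ → ℕ → ℕ → ℕ → Prop) : (mkt N ψ).length = len N :=
  tbl_length _ _

theorem lk_mkt {N : ℕ} {ψ : ℕ → ℕ → ℕ → ℕ → Prop} {r x y z : ℕ} (hr : r < 14)
    (hx : x < N) (hy : y < N) (hz : z < N) : lk N (mkt N ψ) r x y z ↔ ψ r x y z := by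
  unfold lk mkt
  rw [tbl_getD (bds N) [r, x, y, z] _ ⟨hr, hx, hy, hz, trivial⟩]
  simp [app4]

theorem isP_mkt {k : ℕ} {N : (ℕ → ℕ) → ℕ} (hN : IsE k N)
    {ψ : ℕ → List Bool → ℕ → ℕ → ℕ → ℕ → Prop}
    (hψ : ∀ k (N r x y z : (ℕ → ℕ) → ℕ), IsE k N → IsE k r → IsE k x → IsE k y → IsE k z →
      IsT k (fun w env => ψ (N env) w (r env) (x env) (y env) (z env))) :
    IsP k (fun w env => mkt (N env) (ψ (N env) w)) := by
  refine IsP.tbl [fun _ => 14, N, N, N] k (by simp [hN, IsE.const])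
    (φ := fun w env l => app4 (ψ (N env) w) l) fun k' hk ys hys hy => ?_
  match ys, hys with
  | [y1, y2, y3, y4], _ =>
    exact hψ k' N y1 y2 y3 y4 (hN.mono hk) (hy _ (by simp)) (hy _ (by simp)) (hy _ (by simp))
      (hy _ (by simp))

theorem exists_step {ψ : ℕ → List Bool → ℕ → ℕ → ℕ → ℕ → Prop}
    (hψ : ∀ k (N r x y z : (ℕ → ℕ) → ℕ), IsE k N → IsE k r → IsE k x → IsE k y → IsE k z →
      IsT k (fun w env => ψ (N env) w (r env) (x env) (y env) (z env))) :
    ∃ F, PTC F ∧ (∀ w N, w.length = len N → F w = mkt N (ψ N w)) ∧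
      ∀ w, (∀ N, w.length ≠ len N) → F w = [] :=
  PTC.ofLen isE_len len_mono (F := fun w N => mkt N (ψ N w)) fun _ _ hN => isP_mkt hN hψ

/-- An increasing step with its fixed point. -/
theorem exists_fix {ψ : ℕ → List Bool → ℕ → ℕ → ℕ → ℕ → Prop}
    (hψ : ∀ k (N r x y z : (ℕ → ℕ) → ℕ), IsE k N → IsE k r → IsE k x → IsE k y → IsE k z →
      IsT k (fun w env => ψ (N env) w (r env) (x env) (y env) (z env)))
    (hinc : ∀ N w r x y z, lk N w r x y z → ψ N w r x y z) :
    ∃ H, PTC H ∧ ∀ N ψ₀, ∃ (n : ℕ) (x : ℕ → List Bool), x 0 = mkt N ψ₀ ∧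
      (∀ i, x (i + 1) = mkt N (ψ N (x i))) ∧ H (mkt N ψ₀) = x n ∧ x (n + 1) = x n := by
  classical
  obtain ⟨F, hF, hF1, hF2⟩ := exists_step hψ
  have hlen : ∀ w, (F w).length ≤ w.length := by
    intro w
    by_cases h : ∃ N, w.length = len N
    · obtain ⟨N, hN⟩ := h
      rw [hF1 w N hN, mkt_length, hN]
    · push Not at h
      rw [hF2 w h]
      simp
  refine ⟨_, PTC.iter hF hlen hF, fun N ψ₀ => ?_⟩
  set x : ℕ → List Bool := fun i => F^[i] (mkt N ψ₀) with hxdef
  have hx0 : x 0 = mkt N ψ₀ := rfl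
  have hxs : ∀ i, x (i + 1) = F (x i) := fun i => Function.iterate_succ_apply' F i _
  have hxl : ∀ i, (x i).length = len N := by
    intro i
    induction i with
    | zero => exact mkt_length _ _
    | succ i ih => rw [hxs, hF1 _ N ih, mkt_length]
  have hx1 : ∀ i, x (i + 1) = mkt N (ψ N (x i)) := fun i => by rw [hxs, hF1 _ N (hxl i)]
  have hform : ∀ i, ∃ f : List ℕ → Bool, x i = tbl (bds N) f := by
    intro i
    cases i with
    | zero => exact ⟨_, hx0⟩
    | succ i => exact ⟨_, hx1 i⟩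
  have hup : ∀ i, Up (x i) (x (i + 1)) := by
    intro i
    obtain ⟨f, hf⟩ := hform i
    rw [hx1 i]
    have : x i = tbl (bds N) f := hf
    rw [this]
    apply up_tbl
    intro l hl hfl
    match l, hl with
    | [r, a, b, c], hl =>
      simp only [app4, decide_eq_true_eq]
      apply hinc
      unfold lk
      rw [tbl_getD _ _ _ hl]
      exact hfl
  have hfix := fixed_of_up hxs hup hxl
  have hF0 : (F (mkt N ψ₀)).length = len N := by
    have := hxl 1
    rwa [hxs, hx0] at this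
  refine ⟨len N, x, hx0, hx1, ?_, ?_⟩
  · show F^[(F (mkt N ψ₀)).length] (mkt N ψ₀) = x (len N)
    rw [hF0]
  · rw [hxs, hfix]

section rules

variable (N : ℕ) (w : List Bool)

/-- `x` is the code of an exponential with digit `d`, exponent `u` and rest `t`. -/
def AA (d x u t : ℕ) : Prop :=
  ∃ s < N, ∃ s' < N, ∃ q < N, lk N w 3 u s 0 ∧ lk N w 3 t s' 0 ∧ lk N w 0 8 s q ∧
    x = d + 8 * (u + q * t)

/-- Powers. -/
def rPow (x y z : ℕ) : Prop :=
  (y = 0 ∧ z = 1) ∨ ∃ y' < N, ∃ z' < N, y = y' + 1 ∧ z = x * z' ∧ lk N w 0 x y' z'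

/-- Powers modulo a number. -/
def rMod (r b x y z : ℕ) : Prop :=
  (0 < x ∧ z < x) ∧ ((y = 0 ∧ ∃ q < N, q * x + z = 1) ∨
    ∃ y' < N, ∃ z' < N, ∃ q < N, y = y' + 1 ∧ q * x + z = b * z' ∧ lk N w r x y' z')

/-- Codes and sizes. -/
def rTm (x y : ℕ) : Prop :=
  (x = 1 ∧ y = 1) ∨
  (∃ u < N, ∃ t < N, ∃ s < N, ∃ s' < N, ∃ q < N, lk N w 3 u s 0 ∧ lk N w 3 t s' 0 ∧
    lk N w 0 8 s q ∧ (x = 3 + 8 * (u + q * t) ∨ x = 4 + 8 * (u + q * t)) ∧ y = s + s' + 1)

/-- Codes and exact values. -/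
def rVl (x y : ℕ) : Prop :=
  (y = 0 ∧ lk N w 7 x 1 0 ∧ lk N w 7 1 x 0) ∨
  (∃ u < N, ∃ v < N, ∃ a < N, lk N w 4 u a 0 ∧ y = a + 1 ∧ AA N w 3 v 1 u ∧ lk N w 7 x v 0 ∧
    lk N w 7 v x 0)

/-- Residues of small terms. -/
def rRs (x y z : ℕ) : Prop :=
  (0 < y ∧ z < y) ∧ ((x = 1 ∧ z = 0) ∨
  (∃ u < N, ∃ t < N, ∃ a < N, ∃ p < N, ∃ z' < N, ∃ q < N,
    lk N w 1 y a p ∧ 8 * a < N ∧ lk N w 4 u a 0 ∧ lk N w 5 t y z' ∧
    ((AA N w 3 x u t ∧ q * y + z = p + z') ∨ (AA N w 4 x u t ∧ q * y + z' = p + z))))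

/-- Concatenation. -/
def rCt (x y z : ℕ) : Prop :=
  (x = 1 ∧ y = z ∧ ∃ s < N, lk N w 3 y s 0) ∨
  (∃ u < N, ∃ t < N, ∃ v < N, ((AA N w 3 x u t ∧ AA N w 3 z u v) ∨
    (AA N w 4 x u t ∧ AA N w 4 z u v)) ∧ lk N w 6 t y v)

/-- The two digits. -/
def isD (d : ℕ) : Prop := d = 3 ∨ d = 4

/-- Order, basic rules. -/
def rGe1 (x y : ℕ) : Prop :=
  (x = y ∧ ∃ s < N, lk N w 3 x s 0) ∨ (∃ z < N, lk N w 7 x z 0 ∧ lk N w 7 z y 0)

/-- Order, congruence. -/
def rGe2 (x y : ℕ) : Prop :=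
  ∃ u < N, ∃ u' < N, ∃ t < N, ∃ t' < N, lk N w 7 t t' 0 ∧
    ((AA N w 3 x u t ∧ AA N w 3 y u' t' ∧ lk N w 7 u u' 0) ∨
      (AA N w 4 x u t ∧ AA N w 4 y u' t' ∧ lk N w 7 u' u 0))

/-- Order, exchange of exponentials. -/
def rGe3 (x y : ℕ) : Prop :=
  ∃ d < N, ∃ d' < N, ∃ u < N, ∃ u' < N, ∃ t < N, ∃ v < N, ∃ v' < N, isD d ∧ isD d' ∧
    AA N w d x u v ∧ AA N w d' v u' t ∧ AA N w d' y u' v' ∧ AA N w d v' u t

/-- Order, dropping, cancellation, insertion. -/
def rGe4 (x y : ℕ) : Prop :=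
  (∃ u < N, AA N w 3 x u y) ∨
  (∃ u < N, ∃ u' < N, ∃ v < N, AA N w 3 x u v ∧ AA N w 4 v u' y ∧ lk N w 7 u u' 0) ∨
  (∃ u < N, ∃ v < N, AA N w 3 y u v ∧ AA N w 4 v u x)

/-- Order, doubling and halving. -/
def rGe5 (x y : ℕ) : Prop :=
  ∃ u < N, ∃ v < N, ∃ p < N, ∃ t < N, AA N w 3 v 1 u ∧
    ((AA N w 3 x v t ∧ AA N w 3 y u p ∧ AA N w 3 p u t) ∨
      (∃ d < N, isD d ∧ AA N w d x u p ∧ AA N w d p u t ∧ AA N w d y v t))

/-- Codes of valid terms. -/
def rOk (x : ℕ) : Prop :=
  x = 1 ∨ (∃ u < N, ∃ t < N, (AA N w 3 x u t ∨ AA N w 4 x u t) ∧ lk N w 9 u 0 0 ∧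
    lk N w 7 u 1 0 ∧ lk N w 9 t 0 0)

/-- Opposite. -/
def rNg (x y : ℕ) : Prop :=
  (x = 1 ∧ y = 1) ∨ (∃ u < N, ∃ t < N, ∃ t' < N, lk N w 10 t t' 0 ∧
    ((AA N w 3 x u t ∧ AA N w 4 y u t') ∨ (AA N w 4 x u t ∧ AA N w 3 y u t')))

/-- Product with a signed power. -/
def rSc (r d e x y z : ℕ) : Prop :=
  (y = 1 ∧ z = 1 ∧ ∃ s < N, lk N w 3 x s 0) ∨
  (∃ u < N, ∃ t < N, ∃ v < N, ∃ z' < N, lk N w 6 x u v ∧ lk N w r x t z' ∧
    ((AA N w 3 y u t ∧ AA N w d z v z') ∨ (AA N w 4 y u t ∧ AA N w e z v z')))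

/-- Product. -/
def rMl (x y z : ℕ) : Prop :=
  (x = 1 ∧ z = 1 ∧ ∃ s < N, lk N w 3 y s 0) ∨
  (∃ u < N, ∃ t < N, ∃ e < N, ∃ f < N, ((AA N w 3 x u t ∧ lk N w 11 u y e) ∨
    (AA N w 4 x u t ∧ lk N w 12 u y e)) ∧ lk N w 13 t y f ∧ lk N w 6 e f z)

/-- The order. -/
def rGe (x y : ℕ) : Prop :=
  rGe1 N w x y ∨ rGe2 N w x y ∨ rGe3 N w x y ∨ rGe4 N w x y ∨ rGe5 N w x y

/-- The step. -/
def step (r x y z : ℕ) : Prop :=
  lk N w r x y z ∨ (r = 0 ∧ rPow N w x y z) ∨ (r = 1 ∧ rMod N w 1 2 x y z) ∨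
  (r = 2 ∧ rMod N w 2 3 x y z) ∨ (r = 3 ∧ rTm N w x y) ∨ (r = 4 ∧ rVl N w x y) ∨
  (r = 5 ∧ rRs N w x y z) ∨ (r = 6 ∧ rCt N w x y z) ∨ (r = 7 ∧ rGe N w x y) ∨
  (r = 9 ∧ rOk N w x) ∨ (r = 10 ∧ rNg N w x y) ∨ (r = 11 ∧ rSc N w 11 3 4 x y z) ∨
  (r = 12 ∧ rSc N w 12 4 3 x y z) ∨ (r = 13 ∧ rMl N w x y z)

end rules

section steps

variable {N : ℕ} {w : List Bool} {x y z : ℕ}

theorem step0 : step N w 0 x y z ↔ lk N w 0 x y z ∨ rPow N w x y z := by simp [step]
theorem step1 : step N w 1 x y z ↔ lk N w 1 x y z ∨ rMod N w 1 2 x y z := by simp [step]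
theorem step2 : step N w 2 x y z ↔ lk N w 2 x y z ∨ rMod N w 2 3 x y z := by simp [step]
theorem step3 : step N w 3 x y z ↔ lk N w 3 x y z ∨ rTm N w x y := by simp [step]
theorem step4 : step N w 4 x y z ↔ lk N w 4 x y z ∨ rVl N w x y := by simp [step]
theorem step5 : step N w 5 x y z ↔ lk N w 5 x y z ∨ rRs N w x y z := by simp [step]
theorem step6 : step N w 6 x y z ↔ lk N w 6 x y z ∨ rCt N w x y z := by simp [step]
theorem step7 : step N w 7 x y z ↔ lk N w 7 x y z ∨ rGe N w x y := by simp [step]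
theorem step8 : step N w 8 x y z ↔ lk N w 8 x y z := by simp [step]
theorem step9 : step N w 9 x y z ↔ lk N w 9 x y z ∨ rOk N w x := by simp [step]
theorem step10 : step N w 10 x y z ↔ lk N w 10 x y z ∨ rNg N w x y := by simp [step]
theorem step11 : step N w 11 x y z ↔ lk N w 11 x y z ∨ rSc N w 11 3 4 x y z := by simp [step]
theorem step12 : step N w 12 x y z ↔ lk N w 12 x y z ∨ rSc N w 12 4 3 x y z := by simp [step]
theorem step13 : step N w 13 x y z ↔ lk N w 13 x y z ∨ rMl N w x y z := by simp [step]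

end steps

/-- The initial table. -/
def init (v : List Bool) (r x y z : ℕ) : Prop := r = 8 ∧ y = 0 ∧ z = 0 ∧ v.getD x false = true

section tests

theorem isT_lk {k : ℕ} {N r x y z : (ℕ → ℕ) → ℕ} (hN : IsE k N) (hr : IsE k r) (hx : IsE k x)
    (hy : IsE k y) (hz : IsE k z) :
    IsT k (fun w env => lk (N env) w (r env) (x env) (y env) (z env)) := by
  refine (IsT.bit (f := fun env => r env * (N env * (N env * (N env * 1))) +
    (x env * (N env * (N env * 1)) + (y env * (N env * 1) + (z env * 1 + 0)))) ?_).congr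
    fun w env => by simp [lk, idx, bds]
  repeat' first
    | exact IsE.const _
    | (refine IsE.mono ?_ (by assumption); omega)
    | apply IsE.add
    | apply IsE.mul

variable {k : ℕ} {N r b d e x y z u t : (ℕ → ℕ) → ℕ}

theorem isT_AA (hN : IsE k N) (hd : IsE k d) (hx : IsE k x) (hu : IsE k u) (ht : IsE k t) :
    IsT k (fun w env => AA (N env) w (d env) (x env) (u env) (t env)) := by
  unfold AA
  repeat' first
    | exact IsE.const _
    | (refine IsE.mono ?_ (by assumption); omega)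
    | apply isT_lk
    | (refine IsT.ex ?_ (fun _ _ _ _ => ?_))
    | (refine IsT.all ?_ (fun _ _ _ _ => ?_))
    | apply IsT.and
    | apply IsT.or
    | apply IsT.imp
    | apply IsT.eq
    | apply IsT.lt
    | apply IsE.add
    | apply IsE.mul

theorem isT_isD (hd : IsE k d) : IsT k (fun _ env => isD (d env)) := by
  unfold isD
  repeat' first
    | exact IsE.const _
    | (refine IsE.mono ?_ (by assumption); omega)
    | apply isT_lk
    | (refine IsT.ex ?_ (fun _ _ _ _ => ?_))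
    | (refine IsT.all ?_ (fun _ _ _ _ => ?_))
    | apply IsT.and
    | apply IsT.or
    | apply IsT.imp
    | apply IsT.eq
    | apply IsT.lt
    | apply IsE.add
    | apply IsE.mul

theorem isT_rPow (hN : IsE k N) (hx : IsE k x) (hy : IsE k y) (hz : IsE k z) :
    IsT k (fun w env => rPow (N env) w (x env) (y env) (z env)) := by
  unfold rPow
  repeat' first
    | exact IsE.const _
    | (refine IsE.mono ?_ (by assumption); omega)
    | apply isT_lk
    | (refine IsT.ex ?_ (fun _ _ _ _ => ?_))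
    | (refine IsT.all ?_ (fun _ _ _ _ => ?_))
    | apply IsT.and
    | apply IsT.or
    | apply IsT.imp
    | apply IsT.eq
    | apply IsT.lt
    | apply IsE.add
    | apply IsE.mul

theorem isT_rMod (hN : IsE k N) (hr : IsE k r) (hb : IsE k b) (hx : IsE k x) (hy : IsE k y) (hz : IsE k z) :
    IsT k (fun w env => rMod (N env) w (r env) (b env) (x env) (y env) (z env)) := by
  unfold rMod
  repeat' first
    | exact IsE.const _
    | (refine IsE.mono ?_ (by assumption); omega)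
    | apply isT_lk
    | (refine IsT.ex ?_ (fun _ _ _ _ => ?_))
    | (refine IsT.all ?_ (fun _ _ _ _ => ?_))
    | apply IsT.and
    | apply IsT.or
    | apply IsT.imp
    | apply IsT.eq
    | apply IsT.lt
    | apply IsE.add
    | apply IsE.mul

theorem isT_rTm (hN : IsE k N) (hx : IsE k x) (hy : IsE k y) :
    IsT k (fun w env => rTm (N env) w (x env) (y env)) := by
  unfold rTm
  repeat' first
    | exact IsE.const _
    | (refine IsE.mono ?_ (by assumption); omega)
    | apply isT_lk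
    | apply isT_AA
    | apply isT_isD
    | (refine IsT.ex ?_ (fun _ _ _ _ => ?_))
    | (refine IsT.all ?_ (fun _ _ _ _ => ?_))
    | apply IsT.and
    | apply IsT.or
    | apply IsT.imp
    | apply IsT.eq
    | apply IsT.lt
    | apply IsE.add
    | apply IsE.mul

theorem isT_rVl (hN : IsE k N) (hx : IsE k x) (hy : IsE k y) :
    IsT k (fun w env => rVl (N env) w (x env) (y env)) := by
  unfold rVl
  repeat' first
    | exact IsE.const _
    | (refine IsE.mono ?_ (by assumption); omega)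
    | apply isT_lk
    | apply isT_AA
    | apply isT_isD
    | (refine IsT.ex ?_ (fun _ _ _ _ => ?_))
    | (refine IsT.all ?_ (fun _ _ _ _ => ?_))
    | apply IsT.and
    | apply IsT.or
    | apply IsT.imp
    | apply IsT.eq
    | apply IsT.lt
    | apply IsE.add
    | apply IsE.mul

theorem isT_rRs (hN : IsE k N) (hx : IsE k x) (hy : IsE k y) (hz : IsE k z) :
    IsT k (fun w env => rRs (N env) w (x env) (y env) (z env)) := by
  unfold rRs
  repeat' first
    | exact IsE.const _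
    | (refine IsE.mono ?_ (by assumption); omega)
    | apply isT_lk
    | apply isT_AA
    | apply isT_isD
    | (refine IsT.ex ?_ (fun _ _ _ _ => ?_))
    | (refine IsT.all ?_ (fun _ _ _ _ => ?_))
    | apply IsT.and
    | apply IsT.or
    | apply IsT.imp
    | apply IsT.eq
    | apply IsT.lt
    | apply IsE.add
    | apply IsE.mul

theorem isT_rCt (hN : IsE k N) (hx : IsE k x) (hy : IsE k y) (hz : IsE k z) :
    IsT k (fun w env => rCt (N env) w (x env) (y env) (z env)) := by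
  unfold rCt
  repeat' first
    | exact IsE.const _
    | (refine IsE.mono ?_ (by assumption); omega)
    | apply isT_lk
    | apply isT_AA
    | apply isT_isD
    | (refine IsT.ex ?_ (fun _ _ _ _ => ?_))
    | (refine IsT.all ?_ (fun _ _ _ _ => ?_))
    | apply IsT.and
    | apply IsT.or
    | apply IsT.imp
    | apply IsT.eq
    | apply IsT.lt
    | apply IsE.add
    | apply IsE.mul

theorem isT_rGe1 (hN : IsE k N) (hx : IsE k x) (hy : IsE k y) :
    IsT k (fun w env => rGe1 (N env) w (x env) (y env)) := by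
  unfold rGe1
  repeat' first
    | exact IsE.const _
    | (refine IsE.mono ?_ (by assumption); omega)
    | apply isT_lk
    | apply isT_AA
    | apply isT_isD
    | (refine IsT.ex ?_ (fun _ _ _ _ => ?_))
    | (refine IsT.all ?_ (fun _ _ _ _ => ?_))
    | apply IsT.and
    | apply IsT.or
    | apply IsT.imp
    | apply IsT.eq
    | apply IsT.lt
    | apply IsE.add
    | apply IsE.mul

theorem isT_rGe2 (hN : IsE k N) (hx : IsE k x) (hy : IsE k y) :
    IsT k (fun w env => rGe2 (N env) w (x env) (y env)) := by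
  unfold rGe2
  repeat' first
    | exact IsE.const _
    | (refine IsE.mono ?_ (by assumption); omega)
    | apply isT_lk
    | apply isT_AA
    | apply isT_isD
    | (refine IsT.ex ?_ (fun _ _ _ _ => ?_))
    | (refine IsT.all ?_ (fun _ _ _ _ => ?_))
    | apply IsT.and
    | apply IsT.or
    | apply IsT.imp
    | apply IsT.eq
    | apply IsT.lt
    | apply IsE.add
    | apply IsE.mul

theorem isT_rGe3 (hN : IsE k N) (hx : IsE k x) (hy : IsE k y) :
    IsT k (fun w env => rGe3 (N env) w (x env) (y env)) := by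
  unfold rGe3
  repeat' first
    | exact IsE.const _
    | (refine IsE.mono ?_ (by assumption); omega)
    | apply isT_lk
    | apply isT_AA
    | apply isT_isD
    | (refine IsT.ex ?_ (fun _ _ _ _ => ?_))
    | (refine IsT.all ?_ (fun _ _ _ _ => ?_))
    | apply IsT.and
    | apply IsT.or
    | apply IsT.imp
    | apply IsT.eq
    | apply IsT.lt
    | apply IsE.add
    | apply IsE.mul

theorem isT_rGe4 (hN : IsE k N) (hx : IsE k x) (hy : IsE k y) :
    IsT k (fun w env => rGe4 (N env) w (x env) (y env)) := by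
  unfold rGe4
  repeat' first
    | exact IsE.const _
    | (refine IsE.mono ?_ (by assumption); omega)
    | apply isT_lk
    | apply isT_AA
    | apply isT_isD
    | (refine IsT.ex ?_ (fun _ _ _ _ => ?_))
    | (refine IsT.all ?_ (fun _ _ _ _ => ?_))
    | apply IsT.and
    | apply IsT.or
    | apply IsT.imp
    | apply IsT.eq
    | apply IsT.lt
    | apply IsE.add
    | apply IsE.mul

theorem isT_rGe5 (hN : IsE k N) (hx : IsE k x) (hy : IsE k y) :
    IsT k (fun w env => rGe5 (N env) w (x env) (y env)) := by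
  unfold rGe5
  repeat' first
    | exact IsE.const _
    | (refine IsE.mono ?_ (by assumption); omega)
    | apply isT_lk
    | apply isT_AA
    | apply isT_isD
    | (refine IsT.ex ?_ (fun _ _ _ _ => ?_))
    | (refine IsT.all ?_ (fun _ _ _ _ => ?_))
    | apply IsT.and
    | apply IsT.or
    | apply IsT.imp
    | apply IsT.eq
    | apply IsT.lt
    | apply IsE.add
    | apply IsE.mul

theorem isT_rOk (hN : IsE k N) (hx : IsE k x) :
    IsT k (fun w env => rOk (N env) w (x env)) := by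
  unfold rOk
  repeat' first
    | exact IsE.const _
    | (refine IsE.mono ?_ (by assumption); omega)
    | apply isT_lk
    | apply isT_AA
    | apply isT_isD
    | (refine IsT.ex ?_ (fun _ _ _ _ => ?_))
    | (refine IsT.all ?_ (fun _ _ _ _ => ?_))
    | apply IsT.and
    | apply IsT.or
    | apply IsT.imp
    | apply IsT.eq
    | apply IsT.lt
    | apply IsE.add
    | apply IsE.mul

theorem isT_rNg (hN : IsE k N) (hx : IsE k x) (hy : IsE k y) :
    IsT k (fun w env => rNg (N env) w (x env) (y env)) := by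
  unfold rNg
  repeat' first
    | exact IsE.const _
    | (refine IsE.mono ?_ (by assumption); omega)
    | apply isT_lk
    | apply isT_AA
    | apply isT_isD
    | (refine IsT.ex ?_ (fun _ _ _ _ => ?_))
    | (refine IsT.all ?_ (fun _ _ _ _ => ?_))
    | apply IsT.and
    | apply IsT.or
    | apply IsT.imp
    | apply IsT.eq
    | apply IsT.lt
    | apply IsE.add
    | apply IsE.mul

theorem isT_rSc (hN : IsE k N) (hr : IsE k r) (hd : IsE k d) (he : IsE k e) (hx : IsE k x) (hy : IsE k y) (hz : IsE k z) :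
    IsT k (fun w env => rSc (N env) w (r env) (d env) (e env) (x env) (y env) (z env)) := by
  unfold rSc
  repeat' first
    | exact IsE.const _
    | (refine IsE.mono ?_ (by assumption); omega)
    | apply isT_lk
    | apply isT_AA
    | apply isT_isD
    | (refine IsT.ex ?_ (fun _ _ _ _ => ?_))
    | (refine IsT.all ?_ (fun _ _ _ _ => ?_))
    | apply IsT.and
    | apply IsT.or
    | apply IsT.imp
    | apply IsT.eq
    | apply IsT.lt
    | apply IsE.add
    | apply IsE.mul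

theorem isT_rMl (hN : IsE k N) (hx : IsE k x) (hy : IsE k y) (hz : IsE k z) :
    IsT k (fun w env => rMl (N env) w (x env) (y env) (z env)) := by
  unfold rMl
  repeat' first
    | exact IsE.const _
    | (refine IsE.mono ?_ (by assumption); omega)
    | apply isT_lk
    | apply isT_AA
    | apply isT_isD
    | (refine IsT.ex ?_ (fun _ _ _ _ => ?_))
    | (refine IsT.all ?_ (fun _ _ _ _ => ?_))
    | apply IsT.and
    | apply IsT.or
    | apply IsT.imp
    | apply IsT.eq
    | apply IsT.lt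
    | apply IsE.add
    | apply IsE.mul

theorem isT_rGe (hN : IsE k N) (hx : IsE k x) (hy : IsE k y) :
    IsT k (fun w env => rGe (N env) w (x env) (y env)) :=
  (isT_rGe1 hN hx hy).or ((isT_rGe2 hN hx hy).or ((isT_rGe3 hN hx hy).or
    ((isT_rGe4 hN hx hy).or (isT_rGe5 hN hx hy))))

theorem isT_step (hN : IsE k N) (hr : IsE k r) (hx : IsE k x) (hy : IsE k y) (hz : IsE k z) :
    IsT k (fun w env => step (N env) w (r env) (x env) (y env) (z env)) := by
  have hc : ∀ c : ℕ, IsT k (fun _ env => r env = c) := fun c => IsT.eq hr (IsE.const c)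
  exact (isT_lk hN hr hx hy hz).or (((hc 0).and (isT_rPow hN hx hy hz)).or
    (((hc 1).and (isT_rMod hN (IsE.const 1) (IsE.const 2) hx hy hz)).or
    (((hc 2).and (isT_rMod hN (IsE.const 2) (IsE.const 3) hx hy hz)).or
    (((hc 3).and (isT_rTm hN hx hy)).or (((hc 4).and (isT_rVl hN hx hy)).or
    (((hc 5).and (isT_rRs hN hx hy hz)).or (((hc 6).and (isT_rCt hN hx hy hz)).or
    (((hc 7).and (isT_rGe hN hx hy)).or (((hc 9).and (isT_rOk hN hx)).or
    (((hc 10).and (isT_rNg hN hx hy)).or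
    (((hc 11).and (isT_rSc hN (IsE.const 11) (IsE.const 3) (IsE.const 4) hx hy hz)).or
    (((hc 12).and (isT_rSc hN (IsE.const 12) (IsE.const 4) (IsE.const 3) hx hy hz)).or
    ((hc 13).and (isT_rMl hN hx hy hz))))))))))))))

theorem isT_init (hr : IsE k r) (hx : IsE k x) (hy : IsE k y) (hz : IsE k z) :
    IsT k (fun v env => init v (r env) (x env) (y env) (z env)) :=
  (IsT.eq hr (IsE.const 8)).and ((IsT.eq hy (IsE.const 0)).and
    ((IsT.eq hz (IsE.const 0)).and (IsT.bit hx)))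

end tests

end OM80
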