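import Mathlib

/-!
# Closed terms with signs and a calculus of bounded size for their order
-/

set_option autoImplicit false

namespace OM80

/-- Closed terms: `Z = 0`, `A false u t = 2 ^ u + t`, `A true u t = - 2 ^ u + t`. -/
inductive Dt : Type
  | Z : Dt
  | A (b : Bool) (u t : Dt) : Dt

/-- Sign. -/
def sg (b : Bool) : ℤ := if b then -1 else 1

@[simp] theorem sg_false : sg false = 1 := rfl
@[simp] theorem sg_true : sg true = -1 := rfl

theorem sg_not (b : Bool) : sg (!b) = - sg b := by cases b <;> simp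

theorem sg_xor (b b' : Bool) : sg (xor b b') = sg b * sg b' := by
  cases b <;> cases b' <;> simp

namespace Dt

/-- Real value. -/
noncomputable def rv : Dt → ℝ
  | Z => 0
  | A b u t => (sg b : ℝ) * (2 : ℝ) ^ (rv u) + rv t

/-- Number of nodes. -/
def sz : Dt → ℕ
  | Z => 1
  | A _ u t => u.sz + t.sz + 1

/-- All exponents are nonnegative. -/
def Ok : Dt → Prop
  | Z => True
  | A _ u t => u.Ok ∧ 0 ≤ rv u ∧ t.Ok

/-- Natural value. -/
noncomputable def nv (t : Dt) : ℕ := ⌊rv t⌋₊

theorem one_le_sz (t : Dt) : 1 ≤ t.sz := by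
  cases t <;> simp [sz]

theorem rv_A (b : Bool) (u t : Dt) : rv (A b u t) = (sg b : ℝ) * (2 : ℝ) ^ (rv u) + rv t := rfl

theorem Ok.int {t : Dt} (h : t.Ok) : ∃ z : ℤ, rv t = z := by
  induction t with
  | Z => exact ⟨0, by simp [rv]⟩
  | A b u t ihu iht =>
    obtain ⟨h1, h2, h3⟩ := h
    obtain ⟨z, hz⟩ := ihu h1
    obtain ⟨z', hz'⟩ := iht h3
    have hz0 : 0 ≤ z := by
      rw [hz] at h2
      exact_mod_cast h2
    lift z to ℕ using hz0
    refine ⟨sg b * 2 ^ z + z', ?_⟩
    rw [rv_A, hz, hz']
    push_cast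
    rw [Real.rpow_natCast]

theorem nv_eq {t : Dt} (h : t.Ok) (h0 : 0 ≤ rv t) : rv t = nv t := by
  obtain ⟨z, hz⟩ := h.int
  have hz0 : 0 ≤ z := by
    rw [hz] at h0
    exact_mod_cast h0
  lift z to ℕ using hz0
  rw [nv, hz]
  simp

end Dt

open Dt

/-- Successor. -/
def inc (t : Dt) : Dt := A false Z t

/-- Iterated successor. -/
def inct : ℕ → Dt → Dt
  | 0, t => t
  | j + 1, t => inc (inct j t)

theorem rv_inc (t : Dt) : rv (inc t) = rv t + 1 := by
  rw [inc, rv_A, rv]
  simp
  ring

theorem rv_inct (j : ℕ) (t : Dt) : rv (inct j t) = rv t + j := by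
  induction j with
  | zero => simp [inct]
  | succ j ih =>
    rw [inct, rv_inc, ih]
    push_cast
    ring

theorem sz_inc (t : Dt) : (inc t).sz = t.sz + 2 := by
  simp only [inc, sz]
  ring

theorem sz_inct (j : ℕ) (t : Dt) : (inct j t).sz = t.sz + 2 * j := by
  induction j with
  | zero => simp [inct]
  | succ j ih =>
    rw [inct, sz_inc, ih]
    ring

theorem Dt.Ok.inc {t : Dt} (h : t.Ok) : (OM80.inc t).Ok := ⟨trivial, le_refl (0 : ℝ), h⟩

theorem Dt.Ok.inct {t : Dt} (h : t.Ok) (j : ℕ) : (OM80.inct j t).Ok := by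
  induction j with
  | zero => exact h
  | succ j ih => exact ih.inc

/-- A relation closed under the rules of the calculus. -/
structure Closed (M : ℕ) (R : Dt → Dt → Prop) : Prop where
  refl : ∀ t, t.sz ≤ M → R t t
  trans : ∀ t t' t'', t.sz ≤ M → t'.sz ≤ M → t''.sz ≤ M → R t t' → R t' t'' → R t t''
  swap : ∀ b b' u u' t, (A b u (A b' u' t)).sz ≤ M →
    R (A b u (A b' u' t)) (A b' u' (A b u t))
  congP : ∀ u u' t t', (A false u t).sz ≤ M → (A false u' t').sz ≤ M → R u u' → R t t' →
    R (A false u t) (A false u' t')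
  congN : ∀ u u' t t', (A true u t).sz ≤ M → (A true u' t').sz ≤ M → R u' u → R t t' →
    R (A true u t) (A true u' t')
  drop : ∀ u t, (A false u t).sz ≤ M → R (A false u t) t
  cancel : ∀ u u' t, (A false u (A true u' t)).sz ≤ M → R u u' →
    R (A false u (A true u' t)) t
  insert : ∀ u t, (A false u (A true u t)).sz ≤ M → R t (A false u (A true u t))
  dbl : ∀ u t, (A false u (A false u t)).sz ≤ M →
    R (A false (inc u) t) (A false u (A false u t))
  half : ∀ b u t, (A b u (A b u t)).sz ≤ M → R (A b u (A b u t)) (A b (inc u) t)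

/-- Items: sign, base of the exponent, number of successors. -/
abbrev It := Bool × Dt × ℕ

/-- The exponent of an item. -/
def ex (p : It) : Dt := inct p.2.2 p.2.1

/-- Add items in front of a term. -/
def mk (L : List It) (t : Dt) : Dt := L.foldr (fun p t => A p.1 (ex p) t) t

@[simp] theorem mk_nil (t : Dt) : mk [] t = t := rfl
@[simp] theorem mk_cons (p : It) (L : List It) (t : Dt) :
    mk (p :: L) t = A p.1 (ex p) (mk L t) := rfl

theorem mk_append (L L' : List It) (t : Dt) : mk (L ++ L') t = mk L (mk L' t) := by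
  simp [mk]

/-- Size of an item. -/
def ps (p : It) : ℕ := (ex p).sz + 1

theorem sz_mk (L : List It) (t : Dt) : (mk L t).sz = (L.map ps).sum + t.sz := by
  induction L with
  | nil => simp
  | cons p L ih =>
    rw [mk_cons, sz, ih, List.map_cons, List.sum_cons, ps]
    ring

theorem sz_mk_le {m : ℕ} {L : List It} (h : ∀ p ∈ L, (ex p).sz ≤ m) (t : Dt) :
    (mk L t).sz ≤ L.length * (m + 1) + t.sz := by
  induction L with
  | nil => simp
  | cons p L ih =>
    have h1 := h p (by simp)
    have h2 := ih fun q hq => h q (by simp [hq])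
    rw [mk_cons, sz, List.length_cons, Nat.add_mul]
    omega

theorem R_A {M : ℕ} {R : Dt → Dt → Prop} (hR : Closed M R) {b : Bool} {u t t' : Dt}
    (h : (A b u t).sz ≤ M) (h' : (A b u t').sz ≤ M) (ht : R t t') : R (A b u t) (A b u t') := by
  have hu : R u u := hR.refl u (by simp only [sz] at h; omega)
  cases b
  · exact hR.congP _ _ _ _ h h' hu ht
  · exact hR.congN _ _ _ _ h h' hu ht

section calculus

variable {M : ℕ} {R : Dt → Dt → Prop} (hR : Closed M R)
include hR

theorem R_mk {L : List It} : ∀ {t t' : Dt}, (mk L t).sz ≤ M → (mk L t').sz ≤ M →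
    R t t' → R (mk L t) (mk L t') := by
  induction L with
  | nil => intro t t' _ _ h; exact h
  | cons p L ih =>
    intro t t' h1 h2 h
    rw [mk_cons] at h1 h2 ⊢
    refine R_A hR h1 h2 (ih ?_ ?_ h)
    · simp only [sz] at h1; omega
    · simp only [sz] at h2; omega

theorem R_perm {L L' : List It} (h : L.Perm L') : ∀ {t : Dt}, (mk L t).sz ≤ M →
    R (mk L t) (mk L' t) := by
  induction h with
  | nil => intro t h; exact hR.refl _ h
  | @cons p L L' h ih =>
    intro t hs
    have e : (mk (p :: L') t).sz ≤ M := by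
      rw [sz_mk] at hs ⊢
      rwa [← ((h.cons p).map ps).sum_eq]
    rw [mk_cons] at hs e ⊢
    refine R_A hR hs e (ih ?_)
    simp only [sz] at hs
    omega
  | swap p q L =>
    intro t hs
    exact hR.swap _ _ _ _ _ hs
  | @trans L L' L'' h h' ih ih' =>
    intro t hs
    have e : (mk L' t).sz ≤ M := by
      rw [sz_mk] at hs ⊢
      rwa [← (h.map ps).sum_eq]
    have e' : (mk L'' t).sz ≤ M := by
      rw [sz_mk] at e ⊢
      rwa [← (h'.map ps).sum_eq]
    exact hR.trans _ _ _ hs e e' (ih hs) (ih' e)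

end calculus

/-- Exponent of an item, as a number. -/
noncomputable def en (p : It) : ℕ := nv p.2.1 + p.2.2

/-- Value of a list of items. -/
noncomputable def isum (L : List It) : ℤ := (L.map fun p => sg p.1 * 2 ^ en p).sum

theorem isum_nil : isum [] = 0 := rfl

theorem isum_cons (p : It) (L : List It) : isum (p :: L) = sg p.1 * 2 ^ en p + isum L := by
  simp [isum]

theorem isum_append (L L' : List It) : isum (L ++ L') = isum L + isum L' := by
  simp [isum]

theorem isum_perm {L L' : List It} (h : L.Perm L') : isum L = isum L' := (h.map _).sum_eq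

theorem rv_mk {L : List It} (h : ∀ p ∈ L, p.2.1.Ok ∧ 0 ≤ rv p.2.1) (t : Dt) :
    rv (mk L t) = isum L + rv t := by
  induction L with
  | nil => simp [isum]
  | cons p L ih =>
    obtain ⟨h1, h2⟩ := h p (by simp)
    have h3 := ih fun q hq => h q (by simp [hq])
    rw [mk_cons, rv_A, h3, isum_cons, ex, rv_inct, nv_eq h1 h2]
    have : ((nv p.2.1 : ℝ) + (p.2.2 : ℝ)) = ((nv p.2.1 + p.2.2 : ℕ) : ℝ) := by push_cast; ring
    rw [this, Real.rpow_natCast, en]
    push_cast
    ring

/-- Weight of a list of items. -/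
def wt (L : List It) : ℕ := (L.map fun p => 2 ^ p.2.2).sum

theorem wt_cons (p : It) (L : List It) : wt (p :: L) = 2 ^ p.2.2 + wt L := by
  simp [wt]

theorem wt_perm {L L' : List It} (h : L.Perm L') : wt L = wt L' := (h.map _).sum_eq

theorem le_wt {p : It} {L : List It} (h : p ∈ L) : 2 ^ p.2.2 ≤ wt L := by
  obtain ⟨l₁, l₂, rfl⟩ := List.append_of_mem h
  rw [wt_perm List.perm_middle, wt_cons]
  omega

theorem exists_dup {L : List It} (h : ¬ (L.map en).Nodup) :
    ∃ p p' L', L.Perm (p :: p' :: L') ∧ en p = en p' := by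
  induction L with
  | nil => simp at h
  | cons q L ih =>
    by_cases hq : en q ∈ L.map en
    · obtain ⟨p, hp, he⟩ := List.mem_map.1 hq
      obtain ⟨l₁, l₂, rfl⟩ := List.append_of_mem hp
      exact ⟨q, p, l₁ ++ l₂, List.perm_middle.cons q, he.symm⟩
    · rw [List.map_cons, List.nodup_cons] at h
      obtain ⟨p, p', L', h1, h2⟩ := ih (fun hn => h ⟨hq, hn⟩)
      refine ⟨p, p', q :: L', ?_, h2⟩
      have h3 := h1.cons q
      refine h3.trans ?_
      exact (List.Perm.swap p q _).trans ((List.Perm.swap p' q _).cons p)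

theorem exists_top {L : List It} (h : (L.map en).Nodup) (h0 : L ≠ []) :
    ∃ p L', L.Perm (p :: L') ∧ ∀ p' ∈ L', en p' < en p := by
  induction L with
  | nil => exact absurd rfl h0
  | cons q L ih =>
    rw [List.map_cons, List.nodup_cons] at h
    by_cases hL : L = []
    · subst hL
      exact ⟨q, [], List.Perm.refl _, by simp⟩
    · obtain ⟨p, L', h1, h2⟩ := ih h.2 hL
      have hpL : p ∈ L := h1.mem_iff.2 (by simp)
      have hne : en q ≠ en p := fun he => h.1 (List.mem_map.2 ⟨p, hpL, he.symm⟩)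
      rcases lt_or_gt_of_ne hne with hlt | hlt
      · refine ⟨p, q :: L', (h1.cons q).trans (List.Perm.swap p q L'), ?_⟩
        intro p' hp'
        rcases List.mem_cons.1 hp' with rfl | hp'
        · exact hlt
        · exact h2 p' hp'
      · refine ⟨q, p :: L', h1.cons q, ?_⟩
        intro p' hp'
        rcases List.mem_cons.1 hp' with rfl | hp'
        · exact hlt
        · exact (h2 p' hp').trans hlt

theorem abs_isum_lt {L : List It} (h : (L.map en).Nodup) {m : ℕ} (hm : ∀ p ∈ L, en p < m) :
    |isum L| < 2 ^ m := by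
  have h1 : |isum L| ≤ (((L.map en).map fun k => 2 ^ k).sum : ℕ) := by
    clear h hm
    induction L with
    | nil => simp [isum]
    | cons p L ih =>
      rw [isum_cons]
      refine (abs_add_le _ _).trans ?_
      have : |sg p.1 * 2 ^ en p| = 2 ^ en p := by
        rw [abs_mul]
        cases p.1 <;> simp
      rw [this]
      simp only [List.map_cons, List.sum_cons]
      push_cast
      have h2 := ih
      push_cast at h2
      linarith
  have h2 : ((L.map en).map fun k => 2 ^ k).sum = ∑ k ∈ (L.map en).toFinset, 2 ^ k :=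
    (List.sum_toFinset _ h).symm
  have h3 : ∑ k ∈ (L.map en).toFinset, 2 ^ k < 2 ^ m := by
    apply Nat.geomSum_lt le_rfl
    intro k hk
    rw [List.mem_toFinset, List.mem_map] at hk
    obtain ⟨p, hp, rfl⟩ := hk
    exact hm p hp
  rw [h2] at h1
  refine h1.trans_lt ?_
  exact_mod_cast h3

end OM80
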