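import Pool.Agent.OM80.Fixed
import Pool.Agent.BK21.Gap

/-!
# Powers of three as sums of signed powers of two
-/

set_option autoImplicit false

namespace OM80

open Dt BK21

/-- Value of one item. -/
noncomputable def iv (p : It) : ℤ := sg p.1 * 2 ^ en p

theorem isum_get (L : List It) : isum L = ∑ i : Fin L.length, iv (L.get i) := by
  have e : isum L = ((List.finRange L.length).map (fun i => iv (L.get i))).sum := by
    unfold isum
    conv_lhs => rw [← List.map_get_finRange L, List.map_map]
    rfl
  rw [e, ← List.sum_toFinset _ (List.nodup_finRange _)]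
  simp

theorem abs_sg (b : Bool) : |sg b| ≤ 1 := by cases b <;> simp

theorem smO_mk {lam : ℕ} {W : List It} (h : ∀ p ∈ W, p.2.1.Ok ∧ 0 ≤ rv p.2.1 ∧ en p < 2 ^ lam) :
    SmO lam (mk W Z) := by
  induction W with
  | nil => trivial
  | cons p W ih =>
    obtain ⟨h1, h2, h3⟩ := h p (by simp)
    refine ⟨⟨h1.inct _, en p, h3, ?_⟩, ih fun q hq => h q (by simp [hq])⟩
    rw [ex, rv_inct, nv_eq h1 h2, en]
    push_cast
    rfl

/-- A power of three which is the value of a short term is small, and is the value of a term
with small exponents. -/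
theorem red3 {t : Dt} (ht : t.Ok) {s x : ℕ} (hs1 : 1 ≤ s) (hs : t.sz ≤ s)
    (h : rv t = (3 : ℝ) ^ x) : x < 2 ^ (40000 * s ^ 2) ∧
      ∃ t' : Dt, t'.sz ≤ t.sz ∧ rv t' = rv t ∧ SmO (40000 * s ^ 2) t' := by
  classical
  obtain ⟨L, hL⟩ : ∃ L, L = its t := ⟨_, rfl⟩
  have hadm : Adm s L := by rw [hL]; exact its_adm ht (by omega)
  have hlen : L.length < t.sz := by rw [hL]; exact its_len t
  have hrv : rv t = isum L := by
    have := rv_mk (L := L) (fun p hp => ⟨(hadm p hp).1, (hadm p hp).2.1⟩) Z
    rw [hL, mk_its, rv, add_zero] at this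
    rw [this, hL]
  have hz3 : isum L = 3 ^ x := by
    rw [hrv] at h
    exact_mod_cast h
  set sgn : Option (Fin L.length) → ℤ := fun o => o.elim 1 (fun i => - sg (L.get i).1) with hsgn
  set bs : Option (Fin L.length) → Bool := fun o => o.elim true (fun _ => false) with hbs
  set e : Option (Fin L.length) → ℕ := fun o => o.elim x (fun i => en (L.get i)) with he
  have hsum : ∑ i ∈ (Finset.univ : Finset (Option (Fin L.length))),
      sgn i * (bas (bs i) : ℤ) ^ e i = 0 := by
    rw [Fintype.sum_option]
    have h1 : ∑ i : Fin L.length, sgn (some i) * (bas (bs (some i)) : ℤ) ^ e (some i) =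
        - isum L := by
      rw [isum_get, ← Finset.sum_neg_distrib]
      refine Finset.sum_congr rfl fun i _ => ?_
      simp only [hsgn, hbs, he, Option.elim_some, bas, iv]
      push_cast
      ring
    rw [h1, hz3]
    simp only [hsgn, hbs, he, Option.elim_none, bas]
    push_cast
    ring
  have hcard : (Finset.univ : Finset (Option (Fin L.length))).card ≤ L.length + 1 := by
    rw [Finset.card_univ, Fintype.card_option, Fintype.card_fin]
  obtain ⟨T, -, hT2, hT3, hTs⟩ := gap sgn bs e (k := L.length + 1) (G := 0)
    (lam₀ := 10000 * (2 * s) ^ 2) (by omega)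
    (bound_ok (m := 2 * s) (k := L.length + 1) (G := 0) (by omega) (by omega) (by positivity)) _ Finset.univ le_rfl hcard
    (by
      intro i _
      cases i with
      | none => simp [hsgn]
      | some i =>
        simp only [hsgn, Option.elim_some, abs_neg]
        exact abs_sg _)
    (by rw [hsum]; simp)
  have hlam : 10000 * (2 * s) ^ 2 = 40000 * s ^ 2 := by ring
  rw [hlam] at hTs
  have hnone : none ∉ T := by
    intro hn
    have h1 : T.filter (fun i => bs i = true) = {none} := by
      ext i
      cases i with
      | none => simp [hn, hbs]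
      | some i => simp [hbs]
    rw [h1, Finset.sum_singleton] at hT3
    simp only [hsgn, he, Option.elim_none, one_mul] at hT3
    exact absurd hT3 (by positivity)
  refine ⟨hTs none (by simp [hnone]), ?_⟩
  obtain ⟨F, hF⟩ : ∃ F, F = (List.finRange L.length).filter (fun i => decide (some i ∉ T)) :=
    ⟨_, rfl⟩
  obtain ⟨W, hW⟩ : ∃ W, W = F.map L.get := ⟨_, rfl⟩
  have hWL : W.Sublist L := by
    have h1 : (F.map L.get).Sublist ((List.finRange L.length).map L.get) := by
      rw [hF]
      exact List.Sublist.map _ List.filter_sublist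
    rwa [List.map_get_finRange, ← hW] at h1
  have hWm : ∀ p ∈ W, en p < 2 ^ (40000 * s ^ 2) := by
    intro p hp
    rw [hW] at hp
    obtain ⟨i, hi, rfl⟩ := List.mem_map.1 hp
    rw [hF, List.mem_filter] at hi
    have := hTs (some i) (by simpa using hi.2)
    simpa [he] using this
  have hWs : isum W = isum L := by
    have h1 : isum W = ∑ i : Fin L.length, if some i ∉ T then iv (L.get i) else 0 := by
      have hnd : F.Nodup := by
        rw [hF]
        exact (List.nodup_finRange _).filter _
      have h2 : isum W = (F.map (fun i => iv (L.get i))).sum := by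
        unfold isum
        rw [hW, List.map_map]
        rfl
      rw [h2, ← List.sum_toFinset _ hnd, ← Finset.sum_filter]
      refine Finset.sum_congr ?_ fun _ _ => rfl
      ext i
      rw [List.mem_toFinset, hF]
      simp
    have h3 : ∑ i : Fin L.length, (if some i ∈ T then iv (L.get i) else 0) = 0 := by
      have h4 : T.filter (fun i => bs i = false) =
          Finset.univ.filter (fun i => i ∈ T ∧ bs i = false) := by
        ext i
        simp
      rw [h4, Finset.sum_filter, Fintype.sum_option] at hT2
      have h5 : ¬ ((none : Option (Fin L.length)) ∈ T ∧ bs none = false) := by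
        simp [hbs]
      rw [if_neg h5, zero_add] at hT2
      have h6 : ∑ i : Fin L.length, (if some i ∈ T then iv (L.get i) else 0) =
          - ∑ i : Fin L.length, (if some i ∈ T ∧ bs (some i) = false then
            sgn (some i) * (2 : ℤ) ^ e (some i) else 0) := by
        rw [← Finset.sum_neg_distrib]
        refine Finset.sum_congr rfl fun i _ => ?_
        by_cases hi : some i ∈ T
        · rw [if_pos hi, if_pos ⟨hi, rfl⟩]
          simp only [hsgn, he, Option.elim_some, iv]
          ring
        · rw [if_neg hi, if_neg (fun h => hi h.1), neg_zero]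
      rw [h6, hT2, neg_zero]
    have h7 : (∑ i : Fin L.length, if some i ∉ T then iv (L.get i) else 0) +
        (∑ i : Fin L.length, if some i ∈ T then iv (L.get i) else 0) = isum L := by
      rw [isum_get, ← Finset.sum_add_distrib]
      refine Finset.sum_congr rfl fun i _ => ?_
      by_cases hi : some i ∈ T
      · simp [hi]
      · simp [hi]
    rw [h3, add_zero] at h7
    rw [h1, h7]
  refine ⟨mk W Z, ?_, ?_, ?_⟩
  · have h1 : (W.map ps).sum ≤ (L.map ps).sum := (hWL.map ps).sum_le_sum (by simp)
    have h2 : t.sz = (mk L Z).sz := by rw [hL, mk_its]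
    rw [h2, sz_mk, sz_mk]
    omega
  · rw [rv_mk (fun p hp => ⟨(hadm p (hWL.subset hp)).1, (hadm p (hWL.subset hp)).2.1⟩), rv,
      add_zero, hWs, hrv]
  · exact smO_mk fun p hp => ⟨(hadm p (hWL.subset hp)).1, (hadm p (hWL.subset hp)).2.1, hWm p hp⟩

end OM80
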